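import Pool.Agent.H749.GV.Blk

/-!
# Splitting off the top block of the binary expansion
-/

set_option autoImplicit false

namespace Pool.Agent.H749.GX

open Pool.Agent.H749.GV Pool.Agent.H749.GK.St
open Pool.Agent.Q171.DG (al)

/-- numbers without a long gap in the binary expansion -/
def Indec (s D : ℕ) : Prop :=
  ∀ ρ T c : ℕ, D = T + c → 2 ^ (ρ + 2 * s + 1) ∣ T → c < 2 ^ ρ → c = 0 ∨ T = 0

/-- the bound for the generators -/
def bd (s : ℕ) : ℕ := 2 ^ (2 * s * (2 * s + 1) + 1)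

theorem top_ex (s : ℕ) : ∀ t : ℕ, 0 < t → ∃ k D c, t = 2 ^ k * D + c ∧ Odd D ∧ Indec s D ∧
    c * 2 ^ (2 * s + 1) < 2 ^ k := by
  intro t
  induction t using Nat.strong_induction_on with
  | _ t ih =>
    intro ht
    obtain ⟨v, D₀, hD₀, ht2⟩ := Nat.exists_eq_two_pow_mul_odd ht.ne'
    by_cases hI : Indec s D₀
    · exact ⟨v, D₀, 0, by rw [add_zero]; exact ht2, hD₀, hI, by
        rw [zero_mul]; positivity⟩
    · simp only [Indec, not_forall, not_or] at hI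
      obtain ⟨ρ, T, c', h1, ⟨T'', rfl⟩, h3, h4, h5⟩ := hI
      have hT'' : 0 < T'' := Nat.pos_of_ne_zero fun h => h5 (by rw [h, mul_zero])
      have hlt : T'' < t := by
        have h6 : T'' ≤ 2 ^ (ρ + 2 * s + 1) * T'' := Nat.le_mul_of_pos_left _ (by positivity)
        have h7 : D₀ ≤ 2 ^ v * D₀ := Nat.le_mul_of_pos_left _ (by positivity)
        omega
      obtain ⟨k, D, c, h6, h7, h8, h9⟩ := ih T'' hlt hT''
      refine ⟨v + (ρ + 2 * s + 1) + k, D, 2 ^ (v + (ρ + 2 * s + 1)) * c + 2 ^ v * c', ?_, h7, h8, ?_⟩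
      · rw [ht2, h1, h6]
        rw [pow_add, pow_add]
        ring
      · have h10 : 2 ^ v * c' * 2 ^ (2 * s + 1) < 2 ^ (v + (ρ + 2 * s + 1)) := by
          have : 2 ^ (v + (ρ + 2 * s + 1)) = 2 ^ v * 2 ^ ρ * 2 ^ (2 * s + 1) := by
            rw [← pow_add, ← pow_add]; congr 1; omega
          rw [this]
          exact Nat.mul_lt_mul_of_pos_right (Nat.mul_lt_mul_of_pos_left h3 (by positivity))
            (by positivity)
        have h11 : c * 2 ^ (2 * s + 1) + 1 ≤ 2 ^ k := h9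
        have h12 : 2 ^ (v + (ρ + 2 * s + 1)) * (c * 2 ^ (2 * s + 1) + 1)
            ≤ 2 ^ (v + (ρ + 2 * s + 1)) * 2 ^ k := Nat.mul_le_mul_left _ h11
        rw [← pow_add] at h12
        calc (2 ^ (v + (ρ + 2 * s + 1)) * c + 2 ^ v * c') * 2 ^ (2 * s + 1)
            = 2 ^ (v + (ρ + 2 * s + 1)) * (c * 2 ^ (2 * s + 1)) + 2 ^ v * c' * 2 ^ (2 * s + 1) := by
              ring
          _ < 2 ^ (v + (ρ + 2 * s + 1)) * (c * 2 ^ (2 * s + 1)) + 2 ^ (v + (ρ + 2 * s + 1)) := by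
              omega
          _ = 2 ^ (v + (ρ + 2 * s + 1)) * (c * 2 ^ (2 * s + 1) + 1) := by ring
          _ ≤ _ := h12

theorem lt_of_mul {c s k : ℕ} (h : c * 2 ^ (2 * s + 1) < 2 ^ k) : c < 2 ^ k :=
  lt_of_le_of_lt (Nat.le_mul_of_pos_right _ (by positivity)) h

theorem top_aux {s k D c k' D' c' : ℕ} (h : 2 ^ k * D + c = 2 ^ k' * D' + c') (hD : Odd D)
    (hD' : Odd D') (hI : Indec s D) (hc : c * 2 ^ (2 * s + 1) < 2 ^ k)
    (hc' : c' * 2 ^ (2 * s + 1) < 2 ^ k') (hk : k < k') : False := by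
  obtain ⟨e, rfl⟩ : ∃ e, k' = k + e := ⟨k' - k, by omega⟩
  have hc2 := lt_of_mul hc
  have h1 : D = 2 ^ e * D' + c' / 2 ^ k := by
    have h2 : (2 ^ k * D + c) / 2 ^ k = D := by
      rw [Nat.mul_add_div (by positivity), Nat.div_eq_of_lt hc2, add_zero]
    rw [h, pow_add, mul_assoc, Nat.mul_add_div (by positivity)] at h2
    exact h2.symm
  have h3 : Odd (c' / 2 ^ k) := by
    have h4 : Even (2 ^ e * D') := by
      obtain ⟨e', rfl⟩ : ∃ e', e = e' + 1 := ⟨e - 1, by omega⟩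
      rw [pow_succ', mul_assoc]
      exact even_two_mul _
    rw [h1] at hD
    rcases Nat.even_or_odd (c' / 2 ^ k) with h5 | h5
    · exact absurd hD (Nat.not_odd_iff_even.mpr (h4.add h5))
    · exact h5
  have hq : 0 < c' / 2 ^ k := h3.pos
  have h5 : c' / 2 ^ k * 2 ^ (2 * s + 1) < 2 ^ e := by
    have h6 : 2 ^ k * (c' / 2 ^ k * 2 ^ (2 * s + 1)) < 2 ^ k * 2 ^ e := by
      rw [← pow_add]
      refine lt_of_le_of_lt ?_ hc'
      rw [← mul_assoc]
      exact Nat.mul_le_mul_right _ (Nat.mul_div_le _ _)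
    exact Nat.lt_of_mul_lt_mul_left h6
  have h6 : 2 * s + 1 < e := by
    have h7 : 2 ^ (2 * s + 1) < 2 ^ e := lt_of_le_of_lt (Nat.le_mul_of_pos_left _ hq) h5
    exact (Nat.pow_lt_pow_iff_right (by norm_num)).mp h7
  obtain ⟨ρ, rfl⟩ : ∃ ρ, e = ρ + 2 * s + 1 := ⟨e - (2 * s + 1), by omega⟩
  have h7 : c' / 2 ^ k < 2 ^ ρ := by
    have h5' : c' / 2 ^ k * 2 ^ (2 * s + 1) < 2 ^ ρ * 2 ^ (2 * s + 1) := by
      rwa [← pow_add, ← add_assoc]
    exact Nat.lt_of_mul_lt_mul_right h5'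
  rcases hI ρ _ _ h1 (Dvd.intro _ rfl) h7 with h8 | h8
  · omega
  · have := hD'.pos
    have h9 : 0 < 2 ^ (ρ + 2 * s + 1) * D' := by positivity
    omega

theorem top_un {s k D c k' D' c' : ℕ} (h : 2 ^ k * D + c = 2 ^ k' * D' + c') (hD : Odd D)
    (hD' : Odd D') (hI : Indec s D) (hI' : Indec s D') (hc : c * 2 ^ (2 * s + 1) < 2 ^ k)
    (hc' : c' * 2 ^ (2 * s + 1) < 2 ^ k') : k = k' ∧ D = D' ∧ c = c' := by
  rcases lt_trichotomy k k' with hk | hk | hk
  · exact (top_aux h hD hD' hI hc hc' hk).elim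
  · subst hk
    have h1 := lt_of_mul hc
    have h2 := lt_of_mul hc'
    have h3 : (2 ^ k * D + c) / 2 ^ k = D := by
      rw [Nat.mul_add_div (by positivity), Nat.div_eq_of_lt h1, add_zero]
    rw [h, Nat.mul_add_div (by positivity), Nat.div_eq_of_lt h2, add_zero] at h3
    subst h3
    exact ⟨rfl, rfl, by omega⟩
  · exact (top_aux h.symm hD' hD hI' hc' hc hk).elim

theorem top_dvd {s k D c : ℕ} (h : 2 ^ (2 * s + 1) ∣ 2 ^ k * D + c) (hD : Odd D)
    (hc : c * 2 ^ (2 * s + 1) < 2 ^ k) : 2 * s + 1 ≤ k ∧ 2 ^ (2 * s + 1) ∣ c := by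
  have h1 : 2 * s + 1 ≤ k := by
    by_contra hcon
    have h2 : 2 ^ k ≤ 2 ^ (2 * s + 1) := Nat.pow_le_pow_right (by norm_num) (by omega)
    have h3 : c = 0 := by
      by_contra h4
      have := Nat.le_mul_of_pos_left (2 ^ (2 * s + 1)) (Nat.pos_of_ne_zero h4)
      omega
    rw [h3, add_zero] at h
    obtain ⟨e, he⟩ : ∃ e, 2 * s + 1 = k + 1 + e := ⟨2 * s + 1 - (k + 1), by omega⟩
    rw [he, pow_add, pow_succ, mul_assoc] at h
    have h5 := Nat.dvd_of_mul_dvd_mul_left (by positivity : 0 < 2 ^ k) h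
    have h6 : 2 ∣ D := dvd_trans (Dvd.intro _ rfl) h5
    have := hD.not_two_dvd_nat
    exact this h6
  refine ⟨h1, ?_⟩
  exact (Nat.dvd_add_right (dvd_trans (pow_dvd_pow 2 h1) (Dvd.intro _ rfl))).mp h

/-- the blocks with `α(D) ≤ 2 s` are bounded -/
theorem bd_or {s D : ℕ} (hD : Odd D) (hI : Indec s D) : D < bd s ∨ 2 * s + 1 ≤ al D := by
  by_contra hcon
  push Not at hcon
  obtain ⟨h1, h2⟩ := hcon
  have h3 : 2 ^ (al D * (2 * s + 1) + 1) ≤ D := by
    refine le_trans (Nat.pow_le_pow_right (by norm_num) ?_) h1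
    have : al D * (2 * s + 1) ≤ 2 * s * (2 * s + 1) := Nat.mul_le_mul_right _ (by omega)
    omega
  rcases exists_gap s _ D rfl h3 with h4 | ⟨ρ, T, c, h4, h5, h6, h7, h8⟩
  · exact hD.not_two_dvd_nat (dvd_trans (dvd_pow_self 2 (by omega)) h4)
  · rcases hI ρ T c h4 h8 h7 with h9 | h9 <;> omega

/-- in the degrees of the large blocks everything vanishes -/
theorem bd_van {s a k D : ℕ} (ha : a ≤ s) (hD : Odd D) (hI : Indec s D) (h : bd s ≤ D)
    (α : Ext a ((2 ^ k * D : ℕ) : ℤ)) : α = 0 := by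
  have h1 : 2 * s + 1 ≤ al D := (bd_or hD hI).resolve_left (by omega)
  have h2 := al_pow2 k D
  exact tw (by omega) (by omega) α

end Pool.Agent.H749.GX
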