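import Pool.Agent.H749.GK.Def

/-!
# Products of members of `Sq⁰`-families with wide gaps
-/

set_option autoImplicit false

namespace Pool.Agent.H749.GX

open Pool.Agent.H749.GK.St

variable {ι : Type}

/-- The product `(Sq⁰)^{k₁} g_{i₁} ⋯ (Sq⁰)^{k_m} g_{i_m}` of the list `(i₁, k₁), …, (i_m, k_m)`, where
`g i` is a cocycle of degree `a i`: `Sq⁰` is the square of the cochain and the product of the cobar
complex is `x * shift a y` for `x` of degree `a`. -/
noncomputable def val (a : ι → ℕ) (g : ι → P) : List (ι × ℕ) → P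
  | [] => 1
  | x :: l => g x.1 ^ (2 ^ x.2) * shift (a x.1) (val a g l)

/-- The line `a_{i₁} + … + a_{i_m}` of the product. -/
def line (a : ι → ℕ) : List (ι × ℕ) → ℕ
  | [] => 0
  | x :: l => a x.1 + line a l

/-- The internal degree `2^{k₁} e_{i₁} + … + 2^{k_m} e_{i_m}` of the product, where `e i` is the internal
degree of `g i`. -/
def deg (e : ι → ℕ) : List (ι × ℕ) → ℕ
  | [] => 0
  | x :: l => 2 ^ x.2 * e x.1 + deg e l

/-- Wide gaps: for every `j` the internal degree of the product of the factors `j + 1, …, m` is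
smaller than `2^{k_j}`. -/
def Adm (e : ι → ℕ) : List (ι × ℕ) → Prop
  | [] => True
  | x :: l => deg e l < 2 ^ x.2 ∧ Adm e l

/-- The operation on the lists which corresponds to `(Sq⁰)^j`: all `k` are raised by `j`. -/
def up (j : ℕ) (l : List (ι × ℕ)) : List (ι × ℕ) := l.map fun x => (x.1, x.2 + j)

/-- `l'` is a term of the derivation with the matrix `M` applied to `l`: it arises from `l` by replacing
one `i` by a `j` with `M i j`. -/
def Der (M : ι → ι → Prop) : List (ι × ℕ) → List (ι × ℕ) → Prop
  | x :: l, y :: l' => (M x.1 y.1 ∧ y.2 = x.2 ∧ l' = l) ∨ (y = x ∧ Der M l l')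
  | _, _ => False

end Pool.Agent.H749.GX
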