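import Pool.Agent.H749.GX.E3

/-!
# Almost all degrees
-/

set_option autoImplicit false
set_option linter.unusedSectionVars false

namespace Pool.Agent.H749.GX

open Finset MvPolynomial TensorProduct Pool.Agent.H749.GK.St Pool.Agent.W624.Stz
open Pool.Agent.H749.GS hiding al
open Pool.Agent.Q171.DG (al al_two al_two1)
open Pool.Agent.H749.GV (tw al_pow2)
open Pool.Agent.Q171.ND3.St (sqC IsHom Diffs fam Cocycle)
open Pool.Agent.Q171.ND3.St renaming Z → NZ, cl → ncl, Ext → NE, B → NB, h → nh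

theorem al_pos : ∀ n : ℕ, 0 < n → 1 ≤ al n := by
  intro n
  induction n using Nat.strong_induction_on with
  | _ n ih =>
    intro hn
    rcases Nat.even_or_odd' n with ⟨m, rfl | rfl⟩
    · rw [al_two]
      exact ih m (by omega) (by omega)
    · rw [al_two1]
      omega

section line1

variable {s : ℕ} {ι : Type} {a D : ι → ℕ} {g : ι → P} {M : ι → Finset ι}

theorem Gen.nB (hG : Gen s a D g) (i : ι) : g i ∉ B (a i) ((2 : ℤ) ^ (2 * s + 1) * D i) := by
  intro h
  obtain ⟨b, hb⟩ := hG.bas (a i) (hG.le i) (D i) (hG.odd i) (hG.ind i)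
  have h1 := hb ⟨i, rfl, rfl⟩
  have h2 := (clP_zero (hG.mem i)).mpr h
  exact b.ne_zero _ (h1.trans h2)

theorem Gen.d1 (hG : Gen s a D g) {i : ι} (hi : a i = 1) : D i = 1 := by
  by_contra hne
  obtain ⟨m, hm⟩ := hG.odd i
  have hm0 : 0 < m := by omega
  have h1 : al (D i) = al m + 1 := by rw [hm, al_two1]
  have h2 := al_pos m hm0
  have h3 := al_pow2 (2 * s + 1) (D i)
  have hz := hG.mem i
  have hnB := hG.nB i
  rw [hi] at hz hnB
  have h4 : ((2 ^ (2 * s + 1) * D i : ℕ) : ℤ) = (2 : ℤ) ^ (2 * s + 1) * D i := by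
    push_cast; rfl
  rw [← h4] at hz hnB
  exact hnB ((clP_zero hz).mp (tw (by omega) (by omega) _))

theorem Gen.zt1 (hG : Gen s a D g) {i : ι} (hi : a i = 1) : g i = zt (2 * s + 1) := by
  have hm := hG.mem i
  have hnB := hG.nB i
  rw [hi, hG.d1 hi, Nat.cast_one, mul_one] at hm
  obtain ⟨r, hr⟩ := Z1_pow (2 * s + 1) hm
  rcases zm2 r with rfl | rfl
  · exfalso
    apply hnB
    rw [hr, map_zero, zero_mul]
    exact Submodule.zero_mem _
  · rw [hr, map_one, one_mul]

theorem Gen.u1 (hG : Gen s a D g) {i j : ι} (hi : a i = 1) (hj : a j = 1) : i = j := by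
  have hI : Indec s 1 := hG.d1 hi ▸ hG.ind i
  have hs : 1 ≤ s := hi ▸ hG.le i
  obtain ⟨b, hb⟩ := hG.bas 1 hs 1 odd_one hI
  have e : b ⟨i, hi, hG.d1 hi⟩ = b ⟨j, hj, hG.d1 hj⟩ := by
    rw [hb, hb]
    change clP 1 _ (g i) = clP 1 _ (g j)
    rw [hG.zt1 hi, hG.zt1 hj]
  exact congrArg Subtype.val (b.injective e)

theorem indec_one (s : ℕ) : Indec s 1 := by
  intro ρ T c h1 h2 h3
  rcases Nat.eq_zero_or_pos T with h | h
  · exact Or.inr h
  · have h4 := Nat.le_of_dvd h h2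
    have h5 : 2 ≤ 2 ^ (ρ + 2 * s + 1) := by
      rw [pow_succ]
      have : 1 ≤ 2 ^ (ρ + 2 * s) := Nat.one_le_two_pow
      omega
    omega

theorem Gen.ex1 (hG : Gen s a D g) (hs : 1 ≤ s) : ∃ i, a i = 1 := by
  by_contra hcon
  push Not at hcon
  obtain ⟨b, hb⟩ := hG.bas 1 hs 1 odd_one (indec_one s)
  have : IsEmpty {i // a i = 1 ∧ D i = 1} := ⟨fun i => hcon i.1 i.2.1⟩
  have h1 : ∀ α : Ext 1 ((2 : ℤ) ^ (2 * s + 1) * ((1 : ℕ) : ℤ)), α = 0 := fun α =>
    b.repr.injective (Subsingleton.elim _ _)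
  rw [Nat.cast_one, mul_one] at h1
  exact hc_ne _ (h1 (hc (2 * s + 1)))

theorem Mat.ne (hM : Mat s a D g M) (hG : Gen s a D g) {i : ι} (hi : a i = 1) (hs : 1 < s) :
    (M i).Nonempty := by
  by_contra h
  rw [not_nonempty_iff_eq_empty] at h
  have h1 := hM.eq i (by omega)
  rw [h, sum_empty, add_zero, hG.zt1 hi, hi, sq1_zt, hG.d1 hi] at h1
  apply zz2_B (2 * s + 1)
  have h2 : (2 : ℤ) ^ (2 * s + 1 + 1) = 2 * (2 ^ (2 * s + 1) * ((1 : ℕ) : ℤ)) := by
    push_cast; ring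
  rw [h2]
  exact h1

/-- the derivation does not kill sums of products of classes `h_k` -/
theorem not_even (hG : Gen s a D g) (hM : Mat s a D g M) (hs : 1 < s) {r t : ℕ}
    {S : Finset (List (ι × ℕ))} (hS : ∀ l ∈ S, Good s a D r t l)
    (h1 : ∀ l ∈ S, ∀ x ∈ l, a x.1 = 1) (hr : 0 < r) (hne : S.Nonempty) :
    ¬ ∀ l', Even (Nat.card {l // l ∈ S ∧ Der (fun i j => j ∈ M i) l l'}) := by
  obtain ⟨l, hl⟩ := hne
  cases l with
  | nil =>
    have := (hS _ hl).2.1
    rw [line] at this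
    omega
  | cons x l =>
    have hx := h1 _ hl x List.mem_cons_self
    obtain ⟨j, hj⟩ := hM.ne hG hx hs
    intro h
    have h2 := h ((j, x.2) :: l)
    have key : ∀ u, u ∈ S → Der (fun i j => j ∈ M i) u ((j, x.2) :: l) → u = x :: l := by
      intro u hu hd
      cases u with
      | nil => exact hd.elim
      | cons y u =>
        have hy := h1 _ hu y List.mem_cons_self
        rcases hd with ⟨_, h4, h5⟩ | ⟨h3, _⟩
        · have h6 : y = x := Prod.ext (hG.u1 hy hx) h4.symm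
          rw [h6, ← h5]
        · exfalso
          have h4 := hM.ln _ j hj
          rw [← h3] at hy
          simp only at hy
          omega
    have h3 : Nat.card {l'' // l'' ∈ S ∧ Der (fun i j => j ∈ M i) l'' ((j, x.2) :: l)} = 1 := by
      rw [Nat.card_eq_one_iff_unique]
      exact ⟨⟨fun u v => Subtype.ext ((key u.1 u.2.1 u.2.2).trans (key v.1 v.2.1 v.2.2).symm)⟩,
        ⟨⟨x :: l, hl, Or.inl ⟨hj, rfl, rfl⟩⟩⟩⟩
    rw [h3] at h2
    exact absurd h2 (by decide)

/-! ### Counting -/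

theorem deg_dvd (l : List (ι × ℕ)) : 2 ^ (2 * s + 1) ∣ deg (fun i => 2 ^ (2 * s + 1) * D i) l := by
  induction l with
  | nil => exact dvd_zero _
  | cons x l ih =>
    rw [deg]
    exact dvd_add (Dvd.dvd.mul_left (Dvd.intro _ rfl) _) ih

theorem deg_mem {e : ι → ℕ} {l : List (ι × ℕ)} {x : ι × ℕ} (h : x ∈ l) :
    2 ^ x.2 * e x.1 ≤ deg e l := by
  induction l with
  | nil => exact absurd h List.not_mem_nil
  | cons y l ih =>
    rw [deg]
    rcases List.mem_cons.mp h with rfl | h1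
    · omega
    · have := ih h1
      omega

theorem len_le (hpos : ∀ i, 1 ≤ a i) (l : List (ι × ℕ)) : l.length ≤ line a l := by
  induction l with
  | nil => exact le_rfl
  | cons y l ih =>
    rw [line, List.length_cons]
    have := hpos y.1
    omega

theorem len_lt (hpos : ∀ i, 1 ≤ a i) {l : List (ι × ℕ)} {x : ι × ℕ} (h : x ∈ l)
    (hx : a x.1 ≠ 1) : l.length < line a l := by
  induction l with
  | nil => exact absurd h List.not_mem_nil
  | cons y l ih =>
    rw [line, List.length_cons]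
    have h2 := hpos y.1
    rcases List.mem_cons.mp h with rfl | h1
    · have := len_le hpos l
      omega
    · have := ih h1
      omega

variable [Fintype ι]

/-- few degrees have products with less than `r` factors -/
theorem ex_card (hG : Gen s a D g) (hpos : ∀ i, 1 ≤ a i) (r N : ℕ) :
    Set.ncard {t | t < 2 ^ N ∧ ∃ l, Good s a D r t l ∧ ∃ x ∈ l, a x.1 ≠ 1}
      ≤ r * (Fintype.card ι * N + 1) ^ (r - 1) := by
  classical
  let F : Finset ℕ := (range r).biUnion fun n =>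
    (univ : Finset (Fin n → ι × Fin N)).image fun f =>
      deg (fun i => 2 ^ (2 * s + 1) * D i) (List.ofFn fun i => ((f i).1, ((f i).2 : ℕ)))
  have h1 : {t | t < 2 ^ N ∧ ∃ l, Good s a D r t l ∧ ∃ x ∈ l, a x.1 ≠ 1} ⊆ (F : Set ℕ) := by
    rintro t ⟨ht, l, hl, x, hx, hax⟩
    have h2 := len_lt hpos hx hax
    rw [hl.2.1] at h2
    have h3 : ∀ y ∈ l, y.2 < N := by
      intro y hy
      have h4 := deg_mem (e := fun i => 2 ^ (2 * s + 1) * D i) hy
      rw [hl.2.2] at h4
      have h5 : 0 < 2 ^ (2 * s + 1) * D y.1 := by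
        have := (hG.odd y.1).pos
        positivity
      have h6 : 2 ^ y.2 < 2 ^ N :=
        lt_of_le_of_lt ((Nat.le_mul_of_pos_right _ h5).trans h4) ht
      exact (Nat.pow_lt_pow_iff_right (by norm_num)).mp h6
    rw [mem_coe, mem_biUnion]
    refine ⟨l.length, mem_range.mpr h2, ?_⟩
    rw [mem_image]
    refine ⟨fun i => ((l.get i).1, ⟨(l.get i).2, h3 _ (List.get_mem l i)⟩), mem_univ _, ?_⟩
    have h4 : (List.ofFn fun i => (((l.get i).1, ((l.get i).2 : ℕ)) : ι × ℕ)) = l := by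
      conv_rhs => rw [← List.ofFn_get l]
    simp only
    rw [h4]
    exact hl.2.2
  refine (Set.ncard_le_ncard h1 (Finset.finite_toSet F)).trans ?_
  rw [Set.ncard_coe_finset]
  refine card_biUnion_le.trans ?_
  have h2 : ∀ n ∈ range r, ((univ : Finset (Fin n → ι × Fin N)).image fun f =>
      deg (fun i => 2 ^ (2 * s + 1) * D i) (List.ofFn fun i => ((f i).1, ((f i).2 : ℕ)))).card
      ≤ (Fintype.card ι * N + 1) ^ (r - 1) := by
    intro n hn
    rw [mem_range] at hn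
    refine card_image_le.trans ?_
    rw [card_univ, Fintype.card_fun, Fintype.card_prod, Fintype.card_fin, Fintype.card_fin]
    exact (Nat.pow_le_pow_left (Nat.le_succ _) n).trans
      (Nat.pow_le_pow_right (by omega) (by omega))
  refine (sum_le_sum h2).trans ?_
  rw [sum_const, card_range, smul_eq_mul]

/-- many degrees of products of classes `h_k` -/
noncomputable def TT' (s m : ℕ) : ℕ → Finset ℕ
  | 0 => {0}
  | n + 1 => ((range m) ×ˢ TT' s m n).image fun p =>
      2 ^ ((2 * s + 2) * (n * m + p.1) + (2 * s + 1)) + p.2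

theorem TT_lt (s m n : ℕ) : ∀ t ∈ TT' s m n, t < 2 ^ ((2 * s + 2) * (n * m)) := by
  induction n with
  | zero =>
    intro t ht
    rw [TT', mem_singleton] at ht
    rw [ht]
    positivity
  | succ n ih =>
    intro t ht
    rw [TT', mem_image] at ht
    obtain ⟨⟨f, u⟩, hp, rfl⟩ := ht
    rw [mem_product, mem_range] at hp
    simp only at hp ⊢
    have h1 := ih u hp.2
    have h2 : 2 ^ ((2 * s + 2) * (n * m)) ≤ 2 ^ ((2 * s + 2) * (n * m + f) + (2 * s + 1)) :=
      Nat.pow_le_pow_right (by norm_num) (by nlinarith)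
    have h3 : 2 ^ ((2 * s + 2) * (n * m + f) + (2 * s + 1) + 1) ≤ 2 ^ ((2 * s + 2) * ((n + 1) * m)) :=
      Nat.pow_le_pow_right (by norm_num) (by
        have h4 : n * m + f + 1 ≤ (n + 1) * m := by
          rw [add_mul, one_mul]
          omega
        calc (2 * s + 2) * (n * m + f) + (2 * s + 1) + 1 = (2 * s + 2) * (n * m + f + 1) := by ring
          _ ≤ _ := Nat.mul_le_mul_left _ h4)
    rw [pow_succ] at h3
    omega

theorem TT_card (s m n : ℕ) : (TT' s m n).card = m ^ n := by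
  induction n with
  | zero => rw [TT', card_singleton, pow_zero]
  | succ n ih =>
    rw [TT', card_image_of_injOn, card_product, card_range, ih, pow_succ, mul_comm]
    rintro ⟨f, u⟩ hf ⟨f', u'⟩ hf' h
    rw [mem_coe, mem_product, mem_range] at hf hf'
    simp only at h hf hf'
    have h1 := TT_lt s m n u hf.2
    have h2 := TT_lt s m n u' hf'.2
    have key : ∀ (f f' u u' : ℕ), u' < 2 ^ ((2 * s + 2) * (n * m)) →
        2 ^ ((2 * s + 2) * (n * m + f) + (2 * s + 1)) + u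
          = 2 ^ ((2 * s + 2) * (n * m + f') + (2 * s + 1)) + u' → ¬ f' < f := by
      intro f f' u u' h2 h h3
      have h4 : 2 ^ ((2 * s + 2) * (n * m + f') + (2 * s + 1) + 1)
          ≤ 2 ^ ((2 * s + 2) * (n * m + f) + (2 * s + 1)) :=
        Nat.pow_le_pow_right (by norm_num) (by nlinarith)
      have h5 : 2 ^ ((2 * s + 2) * (n * m)) ≤ 2 ^ ((2 * s + 2) * (n * m + f') + (2 * s + 1)) :=
        Nat.pow_le_pow_right (by norm_num) (by nlinarith)
      rw [pow_succ] at h4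
      omega
    have h3 := key f f' u u' h2 h
    have h4 := key f' f u' u h1 h.symm
    have h5 : f = f' := by omega
    subst h5
    rw [Prod.mk.injEq]
    exact ⟨rfl, by omega⟩

theorem TT_good (hG : Gen s a D g) {i₀ : ι} (hi : a i₀ = 1) (m n : ℕ) :
    ∀ t ∈ TT' s m n, ∃ l, Good s a D n t l := by
  induction n with
  | zero =>
    intro t ht
    rw [TT', mem_singleton] at ht
    subst ht
    exact ⟨[], trivial, rfl, rfl⟩
  | succ n ih =>
    intro t ht
    rw [TT', mem_image] at ht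
    obtain ⟨⟨f, u⟩, hp, rfl⟩ := ht
    rw [mem_product, mem_range] at hp
    simp only at hp ⊢
    obtain ⟨l, hl1, hl2, hl3⟩ := ih u hp.2
    have h1 := TT_lt s m n u hp.2
    refine ⟨(i₀, (2 * s + 2) * (n * m + f)) :: l, ⟨?_, hl1⟩, ?_, ?_⟩
    · rw [hl3]
      exact lt_of_lt_of_le h1 (Nat.pow_le_pow_right (by norm_num) (by nlinarith))
    · rw [line, hl2]
      simp only
      omega
    · rw [deg, hl3]
      simp only
      rw [hG.d1 hi, mul_one, ← pow_add]

theorem good_ne (hG : Gen s a D g) {r t : ℕ} (hr : r ≤ s) {l : List (ι × ℕ)}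
    (hl : Good s a D r t l) : ∃ z ∈ Z r (t : ℤ), z ∉ B r (t : ℤ) := by
  classical
  have hg' : ∀ i, g i ∈ Z (a i) ((2 ^ (2 * s + 1) * D i : ℕ) : ℤ) := fun i => by
    push_cast; exact hG.mem i
  have h1 := val_Z (a := a) (g := g) (e := fun i => 2 ^ (2 * s + 1) * D i) hg' l
  rw [hl.2.1, hl.2.2] at h1
  refine ⟨_, h1, fun h2 => ?_⟩
  have hdt : 2 ^ (2 * s + 1) ∣ t := hl.2.2 ▸ deg_dvd l
  have h3 := (pbw hG t hdt r hr).2 {l} (fun l' hl' => by
    rw [mem_singleton] at hl'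
    rw [hl']; exact hl) (by rw [sum_singleton]; exact h2)
  exact absurd h3 (singleton_ne_empty l)

end line1

/-- the sets of degrees -/
theorem density {s r : ℕ} {ι : Type} [Fintype ι] {a D : ι → ℕ} {g : ι → P}
    (hG : Gen s a D g) (hpos : ∀ i, 1 ≤ a i) (hr : 1 ≤ r) (hrs : r ≤ s) (E A : ℕ → Set ℕ)
    (hE : ∀ N, E N ⊆ {t | t < 2 ^ N ∧ ∃ l, Good s a D r t l ∧ ∃ x ∈ l, a x.1 ≠ 1})
    (hEA : ∀ N, E N ⊆ A N) (hAf : ∀ N, (A N).Finite)
    (hA : ∀ N, ∀ t : ℕ, t < 2 ^ N → 2 ^ (2 * s + 1) ∣ t →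
      (∃ z ∈ Z r (t : ℤ), z ∉ B r (t : ℤ)) → t ∈ A N) :
    ∃ C : ℕ, ∀ N, N * (E N).ncard ≤ C * (A N).ncard := by
  classical
  obtain ⟨i₀, hi₀⟩ := hG.ex1 (by omega)
  let q := Fintype.card ι
  let G := (2 * s + 2) * r
  have hG0 : 0 < G := Nat.mul_pos (by omega) (by omega)
  refine ⟨G + r * (q + 1) ^ (r - 1) * (2 * G) ^ r, fun N => ?_⟩
  rcases Nat.lt_or_ge N G with hN | hN
  · have h1 : (E N).ncard ≤ (A N).ncard := Set.ncard_le_ncard (hEA N) (hAf N)
    exact Nat.mul_le_mul (by omega) h1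
  · -- the upper bound for the exceptional degrees
    have h1 : (E N).ncard ≤ r * (q * N + 1) ^ (r - 1) := by
      refine le_trans (Set.ncard_le_ncard (hE N) ?_) (ex_card hG hpos r N)
      exact (Set.finite_Iio (2 ^ N)).subset fun t ht => ht.1
    -- the lower bound
    let m := N / G
    have hm1 : G * m ≤ N := Nat.mul_div_le N G
    have hm2 : N < G * (m + 1) := Nat.lt_mul_div_succ N hG0
    have hm0 : 1 ≤ m := Nat.div_pos hN hG0
    have h2 : m ^ r ≤ (A N).ncard := by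
      rw [← TT_card s m r, ← Set.ncard_coe_finset]
      refine Set.ncard_le_ncard ?_ (hAf N)
      intro t ht
      rw [mem_coe] at ht
      obtain ⟨l, hl⟩ := TT_good hG hi₀ m r t ht
      refine hA N t ?_ ?_ (good_ne hG hrs hl)
      · refine lt_of_lt_of_le (TT_lt _ m r t ht) (Nat.pow_le_pow_right (by norm_num) ?_)
        rw [← mul_assoc]
        exact hm1
      · have h3 := deg_dvd (s := s) (D := D) l
        rw [hl.2.2] at h3
        exact h3
    have hN2 : N ≤ 2 * G * m := by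
      have h4 : G ≤ G * m := Nat.le_mul_of_pos_right _ hm0
      have h5 : G * (m + 1) = G * m + G := by ring
      have h6 : 2 * G * m = G * m + G * m := by ring
      omega
    have hq : q * N + 1 ≤ (q + 1) * N := by
      have : 1 ≤ N := by omega
      calc q * N + 1 ≤ q * N + N := by omega
        _ = (q + 1) * N := by ring
    calc N * (E N).ncard ≤ N * (r * (q * N + 1) ^ (r - 1)) := Nat.mul_le_mul_left _ h1
      _ ≤ N * (r * ((q + 1) * N) ^ (r - 1)) :=
          Nat.mul_le_mul_left _ (Nat.mul_le_mul_left _ (Nat.pow_le_pow_left hq _))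
      _ = r * (q + 1) ^ (r - 1) * N ^ r := by
          obtain ⟨r', rfl⟩ : ∃ r', r = r' + 1 := ⟨r - 1, by omega⟩
          rw [Nat.add_sub_cancel, mul_pow, pow_succ N r']
          ring
      _ ≤ r * (q + 1) ^ (r - 1) * (2 * G * m) ^ r :=
          Nat.mul_le_mul_left _ (Nat.pow_le_pow_left hN2 _)
      _ = r * (q + 1) ^ (r - 1) * (2 * G) ^ r * m ^ r := by rw [mul_pow]; ring
      _ ≤ r * (q + 1) ^ (r - 1) * (2 * G) ^ r * (A N).ncard := Nat.mul_le_mul_left _ h2
      _ ≤ _ := Nat.mul_le_mul_right _ (Nat.le_add_left _ _)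

/-- **Almost all degrees** -/
theorem almost (s r : ℕ) (hr : 1 ≤ r) (hrs : r < s) : ∃ C : ℕ, ∀ N : ℕ,
    N * {t : ℕ | t < 2 ^ N ∧ 2 ^ (2 * s + 1) ∣ t ∧ ∃ (𝒟 : Diffs) (z : Cocycle r) (j : ℕ),
      3 ≤ j ∧ IsHom t z.val ∧ z.cls ≠ 0 ∧ 𝒟.d₂ r (fam r j z.cls) = 0}.ncard
      ≤ C * {t : ℕ | t < 2 ^ N ∧ 2 ^ (2 * s + 1) ∣ t ∧ ∃ z : Cocycle r, IsHom t z.val ∧
        z.cls ≠ 0}.ncard := by
  classical
  haveI : Fintype (Ix s) := Fintype.ofFinite _
  obtain ⟨M, hM⟩ := mat (gen s)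
  refine density (gen s) (gA_pos s) hr hrs.le _ _ (fun N => ?_) (fun N => ?_) (fun N => ?_)
    fun N t ht hdt => ?_
  · rintro t ⟨ht, hdt, 𝒟, z, j, hj, hz, hz0, hd⟩
    refine ⟨ht, ?_⟩
    by_contra hcon
    push Not at hcon
    have hzZ : z.val ∈ Z r (t : ℤ) := by
      have h1 := (toG z.toZ hz).2
      rw [toG_val] at h1
      exact h1
    obtain ⟨S, ⟨hS, hzS⟩, _⟩ := (basis s hrs.le hdt).2 z.val hzZ
    have h0 := hzS 0
    simp only [val_up, pow_zero, pow_one, one_mul] at h0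
    have hne : S.Nonempty := by
      rw [nonempty_iff_ne_empty]
      rintro rfl
      rw [sum_empty, add_zero] at h0
      exact hz0 (ncl_zero.mpr (toG_B h0))
    refine not_even (gen s) hM (by omega) hS (fun l hl x hx => hcon l (hS l hl) x hx) (by omega)
      hne ?_
    exact (d2_iff 𝒟 hM hrs hdt hz hS h0 hj).mp hd
  · rintro t ⟨ht, hdt, 𝒟, z, j, hj, hz, hz0, hd⟩
    exact ⟨ht, hdt, z, hz, hz0⟩
  · exact (Set.finite_Iio (2 ^ N)).subset fun t ht => ht.1
  · rintro ⟨z, hz, hzB⟩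
    refine ⟨ht, hdt, coc (toN ⟨z, hz⟩), ?_, ?_⟩
    · exact toN_hom ⟨z, hz⟩
    · intro h
      apply hzB
      have h1 : ncl (toN ⟨z, hz⟩) = 0 := h
      have h2 := toN_B (toN_hom ⟨z, hz⟩) (ncl_zero.mp h1)
      rw [toN_val] at h2
      exact h2

end Pool.Agent.H749.GX
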