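import Pool.Agent.H749.GX.Dn
import Pool.Agent.H749.GS.Fin

/-!
# The `E₄`-page outside a set of degrees of codimension two
-/

set_option autoImplicit false
set_option linter.unusedSectionVars false

namespace Pool.Agent.H749.GX

open Finset MvPolynomial TensorProduct Pool.Agent.H749.GK.St Pool.Agent.W624.Stz
open Pool.Agent.H749.GS hiding al
open Pool.Agent.Q171.DG (al al_two al_two1)
open Pool.Agent.H749.GV (tw al_pow2)
open Pool.Agent.Q171.ND3.St (sqC IsHom Diffs fam Cocycle IsDeg fr)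
open Pool.Agent.Q171.ND3.St renaming Z → NZ, cl → ncl, Ext → NE, B → NB, h → nh

section comb

variable {s : ℕ} {ι : Type} {a D : ι → ℕ} {g : ι → P} {M : ι → Finset ι}

/-- `i` is not in the image of the matrix -/
def Top (M : ι → Finset ι) (i : ι) : Prop := ∀ j, i ∉ M j

theorem no_pre : ∀ l : List (ι × ℕ), (∀ x ∈ l, Top M x.1) → ∀ u,
    ¬ Der (fun i j => j ∈ M i) u l := by
  intro l
  induction l with
  | nil =>
    intro _ u h
    cases u with
    | nil => exact h
    | cons v u => exact h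
  | cons y l ih =>
    intro hT u h
    cases u with
    | nil => exact h
    | cons v u =>
      rcases h with ⟨h1, _, _⟩ | ⟨_, h2⟩
      · exact hT y List.mem_cons_self v.1 h1
      · exact ih (fun x hx => hT x (List.mem_cons_of_mem _ hx)) u h2

theorem uniq (hG : Gen s a D g) (hM : Mat s a D g M) (hs : 1 < s) : ∀ l : List (ι × ℕ),
    (∀ x ∈ l, Top M x.1) → (∃ x ∈ l, a x.1 = 1) →
    ∃ l', Der (fun i j => j ∈ M i) l l' ∧ ∀ u, Der (fun i j => j ∈ M i) u l' → u = l := by
  intro l
  induction l with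
  | nil =>
    rintro _ ⟨x, hx, _⟩
    exact absurd hx List.not_mem_nil
  | cons y l ih =>
    intro hT hx
    have hT' : ∀ x ∈ l, Top M x.1 := fun x hx => hT x (List.mem_cons_of_mem _ hx)
    by_cases hy : a y.1 = 1
    · obtain ⟨j, hj⟩ := hM.ne hG hy hs
      refine ⟨(j, y.2) :: l, Or.inl ⟨hj, rfl, rfl⟩, ?_⟩
      intro u hu
      cases u with
      | nil => exact hu.elim
      | cons v u =>
        rcases hu with ⟨h1, h2, h3⟩ | ⟨_, h2⟩
        · have h4 := hM.ln _ j hj
          have h5 := hM.ln _ j h1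
          have h6 : v.1 = y.1 := hG.u1 (by omega) hy
          have h7 : v = y := Prod.ext h6 h2.symm
          rw [h7, h3]
        · exact absurd h2 (no_pre l hT' u)
    · obtain ⟨x, hx, hax⟩ := hx
      have hxl : x ∈ l := by
        rcases List.mem_cons.mp hx with h | h
        · exact absurd (h ▸ hax) hy
        · exact h
      obtain ⟨l', h1, h2⟩ := ih hT' ⟨x, hxl, hax⟩
      refine ⟨y :: l', Or.inr ⟨rfl, h1⟩, ?_⟩
      intro u hu
      cases u with
      | nil => exact hu.elim
      | cons v u =>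
        rcases hu with ⟨h3, _, _⟩ | ⟨h3, h4⟩
        · exact absurd h3 (hT y List.mem_cons_self v.1)
        · rw [h2 u h4, h3]

theorem not_even2 (hG : Gen s a D g) (hM : Mat s a D g M) (hs : 1 < s)
    {S : Finset (List (ι × ℕ))} {l : List (ι × ℕ)} (hl : l ∈ S)
    (hT : ∀ x ∈ l, Top M x.1) (hx : ∃ x ∈ l, a x.1 = 1) :
    ¬ ∀ l', Even (Nat.card {l // l ∈ S ∧ Der (fun i j => j ∈ M i) l l'}) := by
  obtain ⟨l', h1, h2⟩ := uniq hG hM hs l hT hx
  intro h
  have h4 := h l'
  have h3 : Nat.card {l'' // l'' ∈ S ∧ Der (fun i j => j ∈ M i) l'' l'} = 1 := by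
    rw [Nat.card_eq_one_iff_unique]
    exact ⟨⟨fun u v => Subtype.ext ((h2 u.1 u.2.2).trans (h2 v.1 v.2.2).symm)⟩,
      ⟨⟨l, hl, h1⟩⟩⟩
  rw [h3] at h4
  exact absurd h4 (by decide)

/-- lists with almost the maximal number of factors -/
theorem shape (hpos : ∀ i, 1 ≤ a i) : ∀ l : List (ι × ℕ), line a l ≤ l.length + 1 →
    (∀ y ∈ l, a y.1 = 1) ∨ ∃ x ∈ l, a x.1 = 2 ∧ line a l = l.length + 1 ∧
      ∀ y ∈ l, a y.1 = 1 ∨ y = x := by
  intro l
  induction l with
  | nil => exact fun _ => Or.inl fun y hy => absurd hy List.not_mem_nil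
  | cons y l ih =>
    intro h
    rw [line, List.length_cons] at h
    have h1 := hpos y.1
    have h2 := len_le hpos l
    by_cases hy : a y.1 = 1
    · rcases ih (by omega) with h3 | ⟨x, hx, h3, h4, h5⟩
      · left
        intro z hz
        rcases List.mem_cons.mp hz with rfl | hz
        · exact hy
        · exact h3 z hz
      · right
        refine ⟨x, List.mem_cons_of_mem _ hx, h3, ?_, ?_⟩
        · rw [line, List.length_cons]; omega
        · intro z hz
          rcases List.mem_cons.mp hz with rfl | hz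
          · exact Or.inl hy
          · exact h5 z hz
    · right
      have h6 : line a l = l.length := by omega
      refine ⟨y, List.mem_cons_self, by omega, ?_, ?_⟩
      · rw [line, List.length_cons]; omega
      · intro z hz
        rcases List.mem_cons.mp hz with rfl | hz
        · exact Or.inr rfl
        · left
          by_contra hne
          have := len_lt hpos hz hne
          omega

/-- the classes in the degrees of codimension one: either they are not killed by the derivation,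
or the degree is a sum of powers of two -/
theorem codim1 (hG : Gen s a D g) (hM : Mat s a D g M) (hpos : ∀ i, 1 ≤ a i) (hs : 1 < s)
    {r t : ℕ} (hr : 3 ≤ r) {S : Finset (List (ι × ℕ))} (hS : ∀ l ∈ S, Good s a D r t l)
    {l : List (ι × ℕ)} (hl : l ∈ S) (hlen : r ≤ l.length + 1)
    (hev : ∀ l', Even (Nat.card {l // l ∈ S ∧ Der (fun i j => j ∈ M i) l l'})) :
    l.length + 1 = r ∧ ∀ x ∈ l, D x.1 = 1 := by
  have hline := (hS l hl).2.1
  have T1 : ∀ i, a i = 1 → Top M i := by
    intro i hi j hij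
    have := hM.ln j i hij
    have := hpos j
    omega
  rcases shape hpos l (by omega) with h | ⟨x, hx, h2, h3, h4⟩
  · exfalso
    cases l with
    | nil => rw [List.length_nil] at hlen; omega
    | cons y l =>
      refine not_even2 hG hM hs hl (fun x hx => T1 _ (h x hx)) ?_ hev
      exact ⟨y, List.mem_cons_self, h y List.mem_cons_self⟩
  · refine ⟨by omega, ?_⟩
    by_cases hD : D x.1 = 1
    · intro y hy
      rcases h4 y hy with h5 | rfl
      · exact hG.d1 h5
      · exact hD
    · exfalso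
      refine not_even2 hG hM hs hl (fun y hy => ?_) ?_ hev
      · rcases h4 y hy with h5 | rfl
        · exact T1 _ h5
        · intro j hij
          have h6 := hM.ln j y.1 hij
          have h7 := hM.dg j y.1 hij
          have h8 := hG.d1 (i := j) (by omega)
          omega
      · by_contra hcon
        push Not at hcon
        have h5 : ∀ y ∈ l, y = x := fun y hy => (h4 y hy).resolve_left (hcon y hy)
        have h6 : ∀ y ∈ l, a y.1 = 2 := fun y hy => by rw [h5 y hy, h2]
        have h7 : ∀ l : List (ι × ℕ), (∀ y ∈ l, a y.1 = 2) → line a l = 2 * l.length := by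
          intro l
          induction l with
          | nil => intro _; rfl
          | cons y l ih =>
            intro h
            rw [line, List.length_cons, h y List.mem_cons_self,
              ih fun z hz => h z (List.mem_cons_of_mem _ hz)]
            omega
        have h8 := h7 l h6
        omega

/-! ### Counting -/

/-- the number given by a list of coefficients and exponents -/
def num (w : List (ℕ × ℕ)) : ℕ := (w.map fun x => x.1 * 2 ^ x.2).sum

theorem num_perm {w w' : List (ℕ × ℕ)} (h : w.Perm w') : num w = num w' :=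
  (h.map _).sum_eq

theorem num_cons (x : ℕ × ℕ) (w : List (ℕ × ℕ)) : num (x :: w) = x.1 * 2 ^ x.2 + num w := by
  rw [num, List.map_cons, List.sum_cons]; rfl

/-- the numbers with short expansions are few -/
theorem count (F : Finset ℕ) (hF : ∀ c ∈ F, 1 ≤ c) (n N : ℕ) :
    Set.ncard {t | t < 2 ^ N ∧ ∃ w : List (ℕ × ℕ), w.length ≤ n ∧ (∀ x ∈ w, x.1 ∈ F) ∧ num w = t}
      ≤ (n + 1) * (F.card * N + 1) ^ n := by
  classical
  let G : Finset ℕ := (range (n + 1)).biUnion fun m =>
    (Fintype.piFinset fun _ : Fin m => F ×ˢ range N).image fun f => num (List.ofFn f)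
  have h1 : {t | t < 2 ^ N ∧ ∃ w : List (ℕ × ℕ), w.length ≤ n ∧ (∀ x ∈ w, x.1 ∈ F) ∧ num w = t}
      ⊆ (G : Set ℕ) := by
    rintro t ⟨ht, w, hw, hwF, rfl⟩
    have h3 : ∀ y ∈ w, y.2 < N := by
      intro y hy
      have h4 : y.1 * 2 ^ y.2 ≤ num w :=
        List.single_le_sum (fun _ _ => Nat.zero_le _) _ (List.mem_map.mpr ⟨y, hy, rfl⟩)
      have h5 := hF _ (hwF y hy)
      have h6 : 2 ^ y.2 < 2 ^ N :=
        lt_of_le_of_lt ((Nat.le_mul_of_pos_left _ (by omega)).trans h4) ht
      exact (Nat.pow_lt_pow_iff_right (by norm_num)).mp h6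
    rw [mem_coe, mem_biUnion]
    refine ⟨w.length, mem_range.mpr (by omega), ?_⟩
    rw [mem_image]
    refine ⟨fun i => w.get i, ?_, ?_⟩
    · rw [Fintype.mem_piFinset]
      intro i
      rw [mem_product, mem_range]
      exact ⟨hwF _ (List.get_mem w i), h3 _ (List.get_mem w i)⟩
    · rw [List.ofFn_get]
  refine (Set.ncard_le_ncard h1 (Finset.finite_toSet G)).trans ?_
  rw [Set.ncard_coe_finset]
  refine card_biUnion_le.trans ?_
  have h2 : ∀ m ∈ range (n + 1), ((Fintype.piFinset fun _ : Fin m => F ×ˢ range N).image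
      fun f => num (List.ofFn f)).card ≤ (F.card * N + 1) ^ n := by
    intro m hm
    rw [mem_range] at hm
    refine card_image_le.trans ?_
    rw [Fintype.card_piFinset, prod_const, card_product, card_range, card_univ, Fintype.card_fin]
    exact (Nat.pow_le_pow_left (Nat.le_succ _) m).trans
      (Nat.pow_le_pow_right (by omega) (by omega))
  refine (sum_le_sum h2).trans ?_
  rw [sum_const, card_range, smul_eq_mul]

/-- a sum of powers of two with narrow gaps has a shorter expansion -/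
theorem merge (L c : ℕ) (F : Finset ℕ) (h0 : c ∈ F) (h1 : ∀ δ < L, c * (2 ^ δ + 1) ∈ F) :
    ∀ l : List ℕ, l.Pairwise (fun x y => y ≤ x) → l.Pairwise (fun x y => y + L ≤ x) ∨
      ∃ w : List (ℕ × ℕ), w.length + 1 = l.length ∧ (∀ x ∈ w, x.1 ∈ F) ∧
        num w = c * (l.map fun k => 2 ^ k).sum := by
  intro l
  induction l with
  | nil => exact fun _ => Or.inl List.Pairwise.nil
  | cons x l ih =>
    intro hp
    rw [List.pairwise_cons] at hp
    by_cases hx : ∀ y ∈ l, y + L ≤ x
    · rcases ih hp.2 with h | ⟨w, hw1, hw2, hw3⟩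
      · exact Or.inl (List.pairwise_cons.mpr ⟨hx, h⟩)
      · right
        refine ⟨(c, x) :: w, by rw [List.length_cons, List.length_cons]; omega, ?_, ?_⟩
        · intro y hy
          rcases List.mem_cons.mp hy with rfl | hy
          · exact h0
          · exact hw2 y hy
        · rw [num_cons, hw3, List.map_cons, List.sum_cons, mul_add]
    · right
      push Not at hx
      obtain ⟨y, hy, hxy⟩ := hx
      have hyx := hp.1 y hy
      obtain ⟨l₁, l₂, rfl⟩ := List.append_of_mem hy
      refine ⟨(c * (2 ^ (x - y) + 1), y) :: (l₁ ++ l₂).map fun k => (c, k), ?_, ?_, ?_⟩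
      · simp only [List.length_cons, List.length_map, List.length_append]
        omega
      · intro z hz
        rcases List.mem_cons.mp hz with rfl | hz
        · exact h1 _ (by omega)
        · rw [List.mem_map] at hz
          obtain ⟨k, _, rfl⟩ := hz
          exact h0
      · have h2 : ∀ l : List ℕ, num (l.map fun k => (c, k)) = c * (l.map fun k => 2 ^ k).sum := by
          intro l
          induction l with
          | nil => rfl
          | cons k l ih => rw [List.map_cons, num_cons, ih, List.map_cons, List.sum_cons, mul_add]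
        rw [num_cons, h2]
        simp only [List.map_cons, List.map_append, List.sum_cons, List.sum_append]
        have h3 : (2 : ℕ) ^ x = 2 ^ (x - y) * 2 ^ y := by rw [← pow_add]; congr 1; omega
        rw [h3]
        ring

/-- exponents with wide gaps as a sequence -/
theorem mkk (L c : ℕ) (hc : L ≤ c) : ∀ l : List ℕ, l.Pairwise (fun x y => y + L ≤ x) →
    ∃ k : ℕ → ℕ, (∀ i, k i + L ≤ k (i + 1)) ∧ L ≤ k 0 ∧
      (∀ i < l.length, ∃ y ∈ l, k i = y + c) ∧
      ∑ i ∈ range l.length, 2 ^ k i = 2 ^ c * (l.map fun k => 2 ^ k).sum := by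
  intro l
  induction l with
  | nil =>
    intro _
    refine ⟨fun i => (i + 1) * L, fun i => ?_, ?_, fun i hi => absurd hi (Nat.not_lt_zero _), ?_⟩
    · simp only
      ring_nf
      exact le_rfl
    · simp only
      omega
    · rw [List.length_nil, range_zero, sum_empty, List.map_nil, List.sum_nil, mul_zero]
  | cons x l ih =>
    intro hp
    rw [List.pairwise_cons] at hp
    obtain ⟨k, h1, h2, h3, h4⟩ := ih hp.2
    refine ⟨fun i => if i < l.length then k i else x + c + (i - l.length) * L, fun i => ?_, ?_,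
      fun i hi => ?_, ?_⟩
    · simp only
      by_cases hi : i + 1 < l.length
      · rw [if_pos (show i < l.length by omega), if_pos hi]
        exact h1 i
      · rw [if_neg hi]
        by_cases hi2 : i < l.length
        · rw [if_pos hi2]
          obtain ⟨y, hy, hky⟩ := h3 i hi2
          have := hp.1 y hy
          omega
        · rw [if_neg hi2]
          have h5 : i + 1 - l.length = (i - l.length) + 1 := by omega
          rw [h5, add_mul, one_mul]
          omega
    · simp only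
      by_cases hi : 0 < l.length
      · rw [if_pos hi]; exact h2
      · rw [if_neg hi]; omega
    · simp only
      by_cases hi2 : i < l.length
      · rw [if_pos hi2]
        obtain ⟨y, hy, hky⟩ := h3 i hi2
        exact ⟨y, List.mem_cons_of_mem _ hy, hky⟩
      · rw [if_neg hi2]
        rw [List.length_cons] at hi
        have h5 : i - l.length = 0 := by omega
        exact ⟨x, List.mem_cons_self, by rw [h5, zero_mul, add_zero]⟩
    · rw [List.length_cons, sum_range_succ, List.map_cons, List.sum_cons]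
      have h5 : ∑ i ∈ range l.length, 2 ^ (if i < l.length then k i else x + c + (i - l.length) * L)
          = ∑ i ∈ range l.length, 2 ^ k i :=
        sum_congr rfl fun i hi => by rw [if_pos (mem_range.mp hi)]
      rw [h5, h4]
      simp only [lt_irrefl, if_false, Nat.sub_self, zero_mul, add_zero]
      rw [mul_add, pow_add]
      ring

theorem adm_pw (hD : ∀ i, Odd (D i)) : ∀ l : List (ι × ℕ),
    Adm (fun i => 2 ^ (2 * s + 1) * D i) l → (l.map Prod.snd).Pairwise (fun x y => y ≤ x) := by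
  intro l
  induction l with
  | nil => exact fun _ => List.Pairwise.nil
  | cons x l ih =>
    rintro ⟨h1, h2⟩
    rw [List.map_cons, List.pairwise_cons]
    refine ⟨fun y hy => ?_, ih h2⟩
    rw [List.mem_map] at hy
    obtain ⟨z, hz, rfl⟩ := hy
    have h3 := deg_mem (e := fun i => 2 ^ (2 * s + 1) * D i) hz
    have h4 : 0 < 2 ^ (2 * s + 1) * D z.1 := by
      have := (hD z.1).pos
      positivity
    have h5 : 2 ^ z.2 < 2 ^ x.2 := lt_of_le_of_lt ((Nat.le_mul_of_pos_right _ h4).trans h3) h1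
    exact ((Nat.pow_lt_pow_iff_right (by norm_num)).mp h5).le

theorem deg_ones : ∀ l : List (ι × ℕ), (∀ x ∈ l, D x.1 = 1) →
    deg (fun i => 2 ^ (2 * s + 1) * D i) l
      = 2 ^ (2 * s + 1) * ((l.map Prod.snd).map fun k => 2 ^ k).sum := by
  intro l
  induction l with
  | nil => intro _; rw [deg, List.map_nil, List.map_nil, List.sum_nil, mul_zero]
  | cons x l ih =>
    intro h
    rw [deg, ih fun y hy => h y (List.mem_cons_of_mem _ hy), h x List.mem_cons_self,
      List.map_cons, List.map_cons, List.sum_cons]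
    ring

theorem deg_num : ∀ l : List (ι × ℕ),
    num (l.map fun x => (2 ^ (2 * s + 1) * D x.1, x.2)) = deg (fun i => 2 ^ (2 * s + 1) * D i) l := by
  intro l
  induction l with
  | nil => rfl
  | cons x l ih => rw [List.map_cons, num_cons, ih, deg, mul_comm (2 ^ x.2)]

end comb

theorem coc_Z {r t : ℕ} (z : Cocycle r) (hz : IsHom t z.val) : z.val ∈ Z r (t : ℤ) := by
  have h1 := (toG z.toZ hz).2
  have h2 : (toG z.toZ hz).1 = z.toZ.1 := toG_val z.toZ hz
  rw [h2] at h1
  exact h1

theorem fam_deg {r t : ℕ} (z : Cocycle r) (hz : IsHom t z.val) (j : ℕ) :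
    IsDeg r (2 ^ j * t) (fam r j z.cls) :=
  ⟨coc (Pool.Agent.Q171.ND3.St.fr^[j] z.toZ), Pool.Agent.Q171.ND3.St.fr_hom hz j,
    (fam_ncl j z.toZ).symm⟩

theorem fam_zero {r t : ℕ} (z : Cocycle r) (hz : IsHom t z.val) (hdt : 2 ^ (2 * r + 1) ∣ t) (j : ℕ)
    (h : fam r j z.cls = 0) : z.cls = 0 := by
  have h4 : fam r j z.cls = ncl (Pool.Agent.Q171.ND3.St.fr^[j] z.toZ) := fam_ncl j z.toZ
  rw [h4] at h
  have h5 := toN_B (Pool.Agent.Q171.ND3.St.fr_hom hz j) (ncl_zero.mp h)
  rw [fr_pow] at h5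
  have h6 : z.val ∈ B r (t : ℤ) := by
    refine of_pow_B (by exact_mod_cast hdt) (coc_Z z hz) j ?_
    push_cast at h5
    exact h5
  exact ncl_zero.mpr (toG_B h6)

/-- the degrees where some class survives to `E₄` have short expansions -/
theorem surv {s r : ℕ} (hr : 4 ≤ r) (hrs : r < s) : ∃ (J : ℕ) (F : Finset ℕ), (∀ c ∈ F, 1 ≤ c) ∧
    ∀ t : ℕ, 2 ^ (2 * s + 1) ∣ t → ∀ (𝒟 : Diffs) (z : Cocycle r) (j : ℕ), J ≤ j →
      IsHom t z.val → z.cls ≠ 0 → 𝒟.Survives₄ r (fam r j z.cls) →
      ∃ w : List (ℕ × ℕ), w.length ≤ r - 2 ∧ (∀ x ∈ w, x.1 ∈ F) ∧ num w = t := by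
  classical
  have : Fintype (Ix s) := Fintype.ofFinite _
  obtain ⟨M, hM⟩ := mat (gen s)
  obtain ⟨r', rfl⟩ : ∃ r', r = r' + 1 := ⟨r - 1, by omega⟩
  obtain ⟨L, hL⟩ := sparse r'
  refine ⟨L + 3, (univ.image fun i : Ix s => 2 ^ (2 * s + 1) * gD s i) ∪
    ({2 ^ (2 * s + 1)} ∪ (range L).image fun δ => 2 ^ (2 * s + 1) * (2 ^ δ + 1)), ?_, ?_⟩
  · intro c hc
    rcases mem_union.mp hc with h | h
    · obtain ⟨i, _, rfl⟩ := mem_image.mp h
      have := ((gen s).odd i).pos
      exact Nat.mul_pos (by positivity) this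
    · rcases mem_union.mp h with h | h
      · rw [mem_singleton.mp h]
        exact Nat.one_le_two_pow
      · obtain ⟨i, _, rfl⟩ := mem_image.mp h
        exact Nat.mul_pos (by positivity) (by positivity)
  · intro t hdt 𝒟 z j hj hz hz0 hsurv
    have hzZ : z.val ∈ Z (r' + 1) (t : ℤ) := coc_Z z hz
    obtain ⟨S, ⟨hS, hzS⟩, _⟩ := (basis s hrs.le hdt).2 z.val hzZ
    have h0 := hzS 0
    simp only [val_up, pow_zero, pow_one, one_mul] at h0
    have hne : S.Nonempty := by
      rw [nonempty_iff_ne_empty]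
      rintro rfl
      rw [sum_empty, add_zero] at h0
      exact hz0 (ncl_zero.mpr (toG_B h0))
    have hev := (d2_iff 𝒟 hM hrs hdt hz hS h0 (show 3 ≤ j by omega)).mp hsurv.1
    obtain ⟨l, hl⟩ := hne
    have hgl : Good s (gA s) (gD s) (r' + 1) t l := hS l hl
    rcases Nat.lt_or_ge (l.length + 1) (r' + 1) with hlen | hlen
    · refine ⟨l.map fun x => (2 ^ (2 * s + 1) * gD s x.1, x.2), by rw [List.length_map]; omega,
        ?_, ?_⟩
      · intro x hx
        obtain ⟨y, _, rfl⟩ := List.mem_map.mp hx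
        exact mem_union_left _ (mem_image.mpr ⟨y.1, mem_univ _, rfl⟩)
      · rw [deg_num]
        exact hgl.2.2
    · obtain ⟨h1, h2⟩ := codim1 (gen s) hM (gA_pos s) (by omega) (by omega) hS hl hlen hev
      have hpw := adm_pw (s := s) (gen s).odd l hgl.1
      have hdeg := deg_ones (s := s) l h2
      rw [hgl.2.2] at hdeg
      rcases merge L (2 ^ (2 * s + 1))
          ((univ.image fun i : Ix s => 2 ^ (2 * s + 1) * gD s i) ∪
            ({2 ^ (2 * s + 1)} ∪ (range L).image fun δ => 2 ^ (2 * s + 1) * (2 ^ δ + 1)))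
          (mem_union_right _ (mem_union_left _ (mem_singleton_self _)))
          (fun δ hδ => mem_union_right _ (mem_union_right _ (mem_image.mpr ⟨δ, mem_range.mpr hδ, rfl⟩)))
          (l.map Prod.snd) hpw with hw | ⟨w, hw1, hw2, hw3⟩
      · exfalso
        obtain ⟨k, k1, k2, _, k4⟩ := mkk L (2 * s + 1 + j) (by omega) _ hw
        rw [List.length_map] at k4
        have hsum : ∑ i ∈ range l.length, 2 ^ k i = 2 ^ j * t := by
          rw [k4, hdeg, pow_add]
          ring
        have h3 := (hL 0 0 l.length k (dvd_zero _) (fun i hi => absurd hi (Nat.not_lt_zero _)) k2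
          (by rw [mul_zero]; exact Nat.zero_le _) k1 𝒟 (fam (r' + 1) j z.cls) (by
            rw [zero_add, hsum]
            exact fam_deg z hz j)).2
          (Or.inr (Or.inl ⟨by omega, by omega⟩)) hsurv
        exact hz0 (fam_zero z hz ((pow_dvd_pow 2 (by omega)).trans hdt) j h3)
      · refine ⟨w, ?_, hw2, ?_⟩
        · rw [List.length_map] at hw1
          omega
        · rw [hw3, ← hdeg]

/-- the sets of degrees -/
theorem density2 {s r : ℕ} {ι : Type} [Fintype ι] {a D : ι → ℕ} {g : ι → P}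
    (hG : Gen s a D g) (hr : 4 ≤ r) (hrs : r ≤ s) (F : Finset ℕ)
    (hF : ∀ c ∈ F, 1 ≤ c) (E A : ℕ → Set ℕ)
    (hE : ∀ N, E N ⊆ {t | t < 2 ^ N ∧ ∃ w : List (ℕ × ℕ), w.length ≤ r - 2 ∧ (∀ x ∈ w, x.1 ∈ F) ∧
      num w = t})
    (hEA : ∀ N, E N ⊆ A N) (hAf : ∀ N, (A N).Finite)
    (hA : ∀ N, ∀ t : ℕ, t < 2 ^ N → 2 ^ (2 * s + 1) ∣ t →
      (∃ z ∈ Z r (t : ℤ), z ∉ B r (t : ℤ)) → t ∈ A N) :
    ∃ C : ℕ, ∀ N, N ^ 2 * (E N).ncard ≤ C * (A N).ncard := by
  classical
  obtain ⟨i₀, hi₀⟩ := hG.ex1 (by omega)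
  let q := F.card
  let G := (2 * s + 2) * r
  have hG0 : 0 < G := Nat.mul_pos (by omega) (by omega)
  refine ⟨G ^ 2 + (r - 2 + 1) * (q + 1) ^ (r - 2) * (2 * G) ^ r, fun N => ?_⟩
  rcases Nat.lt_or_ge N G with hN | hN
  · have h1 : (E N).ncard ≤ (A N).ncard := Set.ncard_le_ncard (hEA N) (hAf N)
    exact Nat.mul_le_mul ((Nat.pow_le_pow_left hN.le 2).trans (Nat.le_add_right _ _)) h1
  · -- the upper bound for the exceptional degrees
    have h1 : (E N).ncard ≤ (r - 2 + 1) * (q * N + 1) ^ (r - 2) := by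
      refine le_trans (Set.ncard_le_ncard (hE N) ?_) (count F hF (r - 2) N)
      exact (Set.finite_Iio (2 ^ N)).subset fun t ht => ht.1
    -- the lower bound
    let m := N / G
    have hm1 : G * m ≤ N := Nat.mul_div_le N G
    have hm2 : N < G * (m + 1) := Nat.lt_mul_div_succ N hG0
    have hm0 : 1 ≤ m := Nat.div_pos hN hG0
    have h2 : m ^ r ≤ (A N).ncard := by
      rw [← TT_card s m r, ← Set.ncard_coe_finset]
      refine Set.ncard_le_ncard ?_ (hAf N)
      intro t ht
      rw [mem_coe] at ht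
      obtain ⟨l, hl⟩ := TT_good hG hi₀ m r t ht
      refine hA N t ?_ ?_ (good_ne hG hrs hl)
      · refine lt_of_lt_of_le (TT_lt _ m r t ht) (Nat.pow_le_pow_right (by norm_num) ?_)
        rw [← mul_assoc]
        exact hm1
      · have h3 := deg_dvd (s := s) (D := D) l
        rw [hl.2.2] at h3
        exact h3
    have hN2 : N ≤ 2 * G * m := by
      have h4 : G ≤ G * m := Nat.le_mul_of_pos_right _ hm0
      have h5 : G * (m + 1) = G * m + G := by ring
      have h6 : 2 * G * m = G * m + G * m := by ring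
      omega
    have hq : q * N + 1 ≤ (q + 1) * N := by
      have : 1 ≤ N := by omega
      calc q * N + 1 ≤ q * N + N := by omega
        _ = (q + 1) * N := by ring
    calc N ^ 2 * (E N).ncard ≤ N ^ 2 * ((r - 2 + 1) * (q * N + 1) ^ (r - 2)) :=
          Nat.mul_le_mul_left _ h1
      _ ≤ N ^ 2 * ((r - 2 + 1) * ((q + 1) * N) ^ (r - 2)) :=
          Nat.mul_le_mul_left _ (Nat.mul_le_mul_left _ (Nat.pow_le_pow_left hq _))
      _ = (r - 2 + 1) * (q + 1) ^ (r - 2) * N ^ r := by
          obtain ⟨r', rfl⟩ : ∃ r', r = r' + 2 := ⟨r - 2, by omega⟩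
          rw [Nat.add_sub_cancel, mul_pow, pow_add N r' 2]
          ring
      _ ≤ (r - 2 + 1) * (q + 1) ^ (r - 2) * (2 * G * m) ^ r :=
          Nat.mul_le_mul_left _ (Nat.pow_le_pow_left hN2 _)
      _ = (r - 2 + 1) * (q + 1) ^ (r - 2) * (2 * G) ^ r * m ^ r := by rw [mul_pow]; ring
      _ ≤ (r - 2 + 1) * (q + 1) ^ (r - 2) * (2 * G) ^ r * (A N).ncard := Nat.mul_le_mul_left _ h2
      _ ≤ _ := Nat.mul_le_mul_right _ (Nat.le_add_left _ _)

/-- **The `E₄`-page outside of codimension two** -/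
theorem almost2 (s r : ℕ) (hr : 4 ≤ r) (hrs : r < s) : ∃ C J : ℕ, ∀ N : ℕ,
    N ^ 2 * {t : ℕ | t < 2 ^ N ∧ 2 ^ (2 * s + 1) ∣ t ∧ ∃ (𝒟 : Diffs) (z : Cocycle r) (j : ℕ),
      J ≤ j ∧ IsHom t z.val ∧ z.cls ≠ 0 ∧ 𝒟.Survives₄ r (fam r j z.cls)}.ncard
      ≤ C * {t : ℕ | t < 2 ^ N ∧ 2 ^ (2 * s + 1) ∣ t ∧ ∃ z : Cocycle r, IsHom t z.val ∧
        z.cls ≠ 0}.ncard := by
  classical
  have : Fintype (Ix s) := Fintype.ofFinite _
  obtain ⟨J, F, hF, h⟩ := surv hr hrs
  suffices hk : ∃ C : ℕ, ∀ N : ℕ,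
      N ^ 2 * {t : ℕ | t < 2 ^ N ∧ 2 ^ (2 * s + 1) ∣ t ∧ ∃ (𝒟 : Diffs) (z : Cocycle r) (j : ℕ),
        J ≤ j ∧ IsHom t z.val ∧ z.cls ≠ 0 ∧ 𝒟.Survives₄ r (fam r j z.cls)}.ncard
      ≤ C * {t : ℕ | t < 2 ^ N ∧ 2 ^ (2 * s + 1) ∣ t ∧ ∃ z : Cocycle r, IsHom t z.val ∧
        z.cls ≠ 0}.ncard by
    obtain ⟨C, hC⟩ := hk
    exact ⟨C, J, hC⟩
  refine density2 (gen s) hr hrs.le F hF _ _ (fun N => ?_) (fun N => ?_) (fun N => ?_)
    fun N t ht hdt => ?_
  · rintro t ⟨ht, hdt, 𝒟, z, j, hj, hz, hz0, hd⟩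
    exact ⟨ht, h t hdt 𝒟 z j hj hz hz0 hd⟩
  · rintro t ⟨ht, hdt, 𝒟, z, j, hj, hz, hz0, hd⟩
    exact ⟨ht, hdt, z, hz, hz0⟩
  · exact (Set.finite_Iio (2 ^ N)).subset fun t ht => ht.1
  · rintro ⟨z, hz, hzB⟩
    refine ⟨ht, hdt, coc (toN ⟨z, hz⟩), ?_, ?_⟩
    · exact toN_hom ⟨z, hz⟩
    · intro h
      apply hzB
      have h1 : ncl (toN ⟨z, hz⟩) = 0 := h
      have h2 := toN_B (toN_hom ⟨z, hz⟩) (ncl_zero.mp h1)
      rw [toN_val] at h2
      exact h2

end Pool.Agent.H749.GX
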