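import Pool.Agent.H749.GX.Gn
import Pool.Agent.H749.GS.Prd

/-!
# `Sq¹` on the basis of products and the `E₃`-page
-/

set_option autoImplicit false
set_option linter.unusedSectionVars false

namespace Pool.Agent.H749.GX

open Finset MvPolynomial TensorProduct Pool.Agent.H749.GK.St Pool.Agent.H749.GS
  Pool.Agent.W624.Stz
open Pool.Agent.Q171.ND3.St (sqC)

variable {s : ℕ} {ι : Type} {a D : ι → ℕ} {g : ι → P}

theorem B_le_Z {s : ℕ} {t : ℤ} {x : P} (h : x ∈ B s t) : x ∈ Z s t := by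
  cases s with
  | zero =>
    rw [(Submodule.mem_bot _).mp h]
    exact Submodule.zero_mem _
  | succ s =>
    obtain ⟨v, hv, rfl⟩ := Submodule.mem_map.mp h
    exact ⟨d_C hv, LinearMap.mem_ker.mpr (d_d hv.1)⟩

theorem cupR {r a₀ b₀ : ℕ} {T c : ℤ} (h : a₀ + b₀ = r) {x y : P} (hx : x ∈ Z a₀ T)
    (hy : y ∈ B b₀ c) : x * shift a₀ y ∈ B r (T + c) :=
  cup_right h ⟨x, hx⟩ (y := ⟨y, B_le_Z hy⟩) hy

theorem cupL {r a₀ b₀ : ℕ} {T c : ℤ} (h : a₀ + b₀ = r) {x y : P} (hx : x ∈ B a₀ T)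
    (hy : y ∈ Z b₀ c) : x * shift a₀ y ∈ B r (T + c) :=
  cup_left h (x := ⟨x, B_le_Z hx⟩) ⟨y, hy⟩ hx

theorem sqC_pow (k s n : ℕ) (x : P) : sqC k s (x ^ (2 ^ n)) = sqC k s x ^ (2 ^ n) := by
  induction n with
  | zero => rw [pow_zero, pow_one, pow_one]
  | succ n ih => rw [pow_succ, pow_mul, GS.sqC_sq, ih, pow_mul]

open Classical in
/-- the terms of the derivation -/
noncomputable def dl (M : ι → Finset ι) : List (ι × ℕ) → Finset (List (ι × ℕ))
  | [] => ∅
  | x :: l => ((M x.1).image fun i => (i, x.2) :: l) ∪ ((dl M l).image fun l' => x :: l')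

open Classical in
theorem mem_dl {M : ι → Finset ι} : ∀ l l' : List (ι × ℕ),
    l' ∈ dl M l ↔ Der (fun i j => j ∈ M i) l l'
  | [], l' => by
    rw [dl]
    cases l' <;> simp [Der]
  | x :: l, [] => by
    rw [dl]
    simp [Der]
  | x :: l, y :: l' => by
    rw [dl, mem_union, mem_image, mem_image, Der, ← mem_dl l l']
    constructor
    · rintro (⟨i, hi, h⟩ | ⟨l'', hl, h⟩)
      · obtain ⟨h1, h2⟩ := List.cons.inj h
        subst h1 h2
        exact Or.inl ⟨hi, rfl, rfl⟩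
      · obtain ⟨h1, h2⟩ := List.cons.inj h
        subst h1 h2
        exact Or.inr ⟨rfl, hl⟩
    · rintro (⟨h1, h2, h3⟩ | ⟨h1, h2⟩)
      · subst h3
        exact Or.inl ⟨y.1, h1, by rw [← h2]⟩
      · subst h1
        exact Or.inr ⟨l', h2, rfl⟩

theorem sum_dl {M : ι → Finset ι} (x : ι × ℕ) (l : List (ι × ℕ)) (hx : x.1 ∉ M x.1)
    (f : List (ι × ℕ) → P) : ∑ l' ∈ dl M (x :: l), f l'
      = ∑ i ∈ M x.1, f ((i, x.2) :: l) + ∑ l' ∈ dl M l, f (x :: l') := by
  classical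
  rw [dl, sum_union, sum_image, sum_image]
  · intro l₁ _ l₂ _ h
    exact (List.cons.inj h).2
  · intro i _ j _ h
    exact (Prod.mk.inj (List.cons.inj h).1).1
  · rw [Finset.disjoint_left]
    intro l' h1 h2
    obtain ⟨i, hi, rfl⟩ := mem_image.mp h1
    obtain ⟨l'', _, h3⟩ := mem_image.mp h2
    apply hx
    have h4 := (List.cons.inj h3).1
    have h5 : x.1 = i := by rw [h4]
    rwa [← h5] at hi

/-- the properties of the matrix -/
structure Mat (s : ℕ) (a D : ι → ℕ) (g : ι → P) (M : ι → Finset ι) : Prop where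
  ln : ∀ i, ∀ j ∈ M i, a j = a i + 1
  dg : ∀ i, ∀ j ∈ M i, D j = D i
  eq : ∀ i, a i < s → sqC 1 (a i) (g i) + ∑ j ∈ M i, g j ^ 2
    ∈ B (a i + 1) (2 * ((2 : ℤ) ^ (2 * s + 1) * D i))

theorem dl_good {M : ι → Finset ι} (hM : Mat s a D g M) : ∀ l l' : List (ι × ℕ), l' ∈ dl M l →
    line a l' = line a l + 1 ∧ deg (fun i => 2 ^ (2 * s + 1) * D i) l'
      = deg (fun i => 2 ^ (2 * s + 1) * D i) l ∧
    (Adm (fun i => 2 ^ (2 * s + 1) * D i) l → Adm (fun i => 2 ^ (2 * s + 1) * D i) l') := by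
  classical
  intro l
  induction l with
  | nil =>
    intro l' h
    rw [dl] at h
    exact absurd h (notMem_empty _)
  | cons x l ih =>
    intro l' h
    rw [dl, mem_union, mem_image, mem_image] at h
    rcases h with ⟨j, hj, rfl⟩ | ⟨l'', hl, rfl⟩
    · have h1 := hM.ln _ j hj
      have h2 := hM.dg _ j hj
      refine ⟨?_, ?_, ?_⟩
      · rw [line, line]
        simp only
        omega
      · rw [deg, deg]
        simp only
        rw [h2]
      · exact id
    · obtain ⟨h1, h2, h3⟩ := ih l'' hl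
      refine ⟨?_, ?_, ?_⟩
      · rw [line, line]
        omega
      · rw [deg, deg, h2]
      · rw [Adm, Adm, h2]
        exact fun h => ⟨h.1, h3 h.2⟩

/-- `Sq¹` on the products -/
theorem sqv {M : ι → Finset ι} (hM : Mat s a D g M)
    (hg : ∀ i, g i ∈ Z (a i) ((2 : ℤ) ^ (2 * s + 1) * D i)) : ∀ l : List (ι × ℕ),
    (∀ x ∈ l, a x.1 < s) → sqC 1 (line a l) (val a g l) + ∑ l' ∈ dl M l, val a g l' ^ 2
      ∈ B (line a l + 1) (2 * (deg (fun i => 2 ^ (2 * s + 1) * D i) l : ℤ)) := by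
  intro l
  induction l with
  | nil =>
    intro _
    rw [dl, sum_empty, add_zero]
    have h1 := sqC_Z (k := 1) one_Z
    have h2 : (2 * (deg (fun i => 2 ^ (2 * s + 1) * D i) ([] : List (ι × ℕ)) : ℤ)) = 0 := by
      rw [deg]; rfl
    rw [h2]
    rw [mul_zero] at h1
    exact B_pos0 h1
  | cons x l ih =>
    intro hl
    have hx : a x.1 < s := hl x (List.mem_cons_self)
    have ihl := ih fun y hy => hl y (List.mem_cons_of_mem _ hy)
    have hg' : ∀ i, g i ∈ Z (a i) ((2 ^ (2 * s + 1) * D i : ℕ) : ℤ) := fun i => by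
      push_cast; exact hg i
    have hY := val_Z (a := a) (g := g) (e := fun i => 2 ^ (2 * s + 1) * D i) hg' l
    have hX := pow_Z (ρ := x.2) (hg x.1)
    rw [sum_dl x l (fun h => by have := hM.ln _ _ h; omega), val_cons, line]
    rw [q1_mul hX.1.1 (LinearMap.mem_ker.mp hX.2) (LinearMap.mem_ker.mp hY.2)]
    -- the first part
    have h1 : (sqC 1 (a x.1) (g x.1) + ∑ j ∈ M x.1, g j ^ 2) ^ (2 ^ x.2)
        * shift (a x.1 + 1) (val a g l ^ 2) ∈ B (a x.1 + line a l + 1)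
          (2 ^ x.2 * (2 * ((2 : ℤ) ^ (2 * s + 1) * D x.1))
            + 2 * (deg (fun i => 2 ^ (2 * s + 1) * D i) l : ℤ)) :=
      cupL (by omega) (pow_B (hM.eq _ hx)) (sq_Z hY)
    have h2 : (g x.1 ^ (2 ^ x.2)) ^ 2 * shift (a x.1) (sqC 1 (line a l) (val a g l)
        + ∑ l' ∈ dl M l, val a g l' ^ 2) ∈ B (a x.1 + line a l + 1)
          (2 * (2 ^ x.2 * ((2 : ℤ) ^ (2 * s + 1) * D x.1))
            + 2 * (deg (fun i => 2 ^ (2 * s + 1) * D i) l : ℤ)) :=
      cupR (by omega) (sq_Z hX) ihl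
    have e1 : (2 * (deg (fun i => 2 ^ (2 * s + 1) * D i) (x :: l) : ℤ))
        = 2 ^ x.2 * (2 * ((2 : ℤ) ^ (2 * s + 1) * D x.1))
            + 2 * (deg (fun i => 2 ^ (2 * s + 1) * D i) l : ℤ) := by
      rw [deg]; push_cast; ring
    have e2 : (2 * (deg (fun i => 2 ^ (2 * s + 1) * D i) (x :: l) : ℤ))
        = 2 * (2 ^ x.2 * ((2 : ℤ) ^ (2 * s + 1) * D x.1))
            + 2 * (deg (fun i => 2 ^ (2 * s + 1) * D i) l : ℤ) := by
      rw [deg]; push_cast; ring
    rw [← e1] at h1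
    rw [← e2] at h2
    have h3 := Submodule.add_mem _ h1 h2
    have h4 : (sqC 1 (a x.1) (g x.1) + ∑ j ∈ M x.1, g j ^ 2) ^ (2 ^ x.2)
        * shift (a x.1 + 1) (val a g l ^ 2)
        = sqC 1 (a x.1) (g x.1 ^ (2 ^ x.2)) * shift (a x.1 + 1) (val a g l ^ 2)
          + ∑ j ∈ M x.1, val a g ((j, x.2) :: l) ^ 2 := by
      rw [add_pow0, sum_pow0, ← sqC_pow, add_mul, sum_mul]
      congr 1
      refine sum_congr rfl fun j hj => ?_
      rw [val_cons]
      simp only
      rw [hM.ln _ j hj, mul_pow, map_pow, ← pow_mul, ← pow_mul, mul_comm 2]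
    have h5 : (g x.1 ^ (2 ^ x.2)) ^ 2 * shift (a x.1) (sqC 1 (line a l) (val a g l)
        + ∑ l' ∈ dl M l, val a g l' ^ 2)
        = (g x.1 ^ (2 ^ x.2)) ^ 2 * shift (a x.1) (sqC 1 (line a l) (val a g l))
          + ∑ l' ∈ dl M l, val a g (x :: l') ^ 2 := by
      rw [map_add, mul_add, map_sum, mul_sum]
      congr 1
      refine sum_congr rfl fun l' _ => ?_
      rw [val_cons, mul_pow, map_pow]
    rw [h4, h5] at h3
    convert h3 using 1
    ring

variable [Fintype ι]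

/-- the matrix of `Sq¹` -/
theorem mat (hG : Gen s a D g) : ∃ M : ι → Finset ι, Mat s a D g M := by
  classical
  have key : ∀ i, ∃ S : Finset ι, (∀ j ∈ S, a j = a i + 1 ∧ D j = D i) ∧
      (a i < s → sqC 1 (a i) (g i) + ∑ j ∈ S, g j ^ 2
        ∈ B (a i + 1) (2 * ((2 : ℤ) ^ (2 * s + 1) * D i))) := by
    intro i
    by_cases hi : a i < s
    · obtain ⟨b, hb⟩ := hG.bas' 1 (show a i + 1 ≤ s by omega) (hG.odd i) (hG.ind i)
      have hZ := sqC_Z (k := 1) (hG.mem i)
      have hZ' : sqC 1 (a i) (g i) ∈ Z (a i + 1) (2 ^ 1 * ((2 : ℤ) ^ (2 * s + 1) * D i)) := by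
        rw [pow_one]; exact hZ
      let α := clP (a i + 1) (2 ^ 1 * ((2 : ℤ) ^ (2 * s + 1) * D i)) (sqC 1 (a i) (g i))
      let S₀ : Finset {j // a j = a i + 1 ∧ D j = D i} := univ.filter fun j => b.repr α j ≠ 0
      have hα : α = ∑ j ∈ S₀, b j := by
        conv_lhs => rw [← b.sum_repr α]
        rw [sum_filter]
        refine sum_congr rfl fun j _ => ?_
        rcases zm2 (b.repr α j) with h | h
        · rw [h, zero_smul, if_neg (by simp)]
        · rw [h, one_smul, if_pos (by simp)]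
      refine ⟨S₀.map (Function.Embedding.subtype _), ?_, fun _ => ?_⟩
      · intro j hj
        obtain ⟨j', _, rfl⟩ := mem_map.mp hj
        exact j'.2
      · have h1 : ∀ j ∈ S₀, g j.1 ^ 2 ∈ Z (a i + 1) (2 ^ 1 * ((2 : ℤ) ^ (2 * s + 1) * D i)) := by
          rintro ⟨j, h2, h3⟩ _
          have h4 := pow_Z (ρ := 1) (hG.mem j)
          rw [h2, h3] at h4
          simpa using h4
        rw [sum_map]
        have h2 := clP_eq hZ' (Submodule.sum_mem _ h1) (by
          rw [clP_sum _ _ h1]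
          refine Eq.trans hα (sum_congr rfl fun j _ => ?_)
          rw [hb]
          exact congrArg _ (by rw [pow_one]))
        rw [pow_one] at h2
        exact h2
    · exact ⟨∅, fun j hj => absurd hj (notMem_empty _), fun h => absurd h hi⟩
  choose M h1 h2 using key
  exact ⟨M, fun i j hj => (h1 i j hj).1, fun i j hj => (h1 i j hj).2, h2⟩

/-- the double sum modulo 2 -/
theorem dsum {κ : Type} [DecidableEq κ] (S : Finset κ) (E : κ → Finset κ) (f : κ → P) :
    ∑ l ∈ S, ∑ l' ∈ E l, f l'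
      = ∑ l' ∈ (S.biUnion E).filter (fun l' => ¬ Even (S.filter fun l => l' ∈ E l).card), f l' := by
  have h1 : ∑ l ∈ S, ∑ l' ∈ E l, f l' = ∑ l' ∈ S.biUnion E, ∑ l ∈ S.filter (fun l => l' ∈ E l),
      f l' := by
    refine sum_comm' ?_
    intro l l'
    rw [mem_biUnion, mem_filter]
    constructor
    · rintro ⟨h1, h2⟩
      exact ⟨⟨h1, h2⟩, l, h1, h2⟩
    · rintro ⟨⟨h1, h2⟩, _⟩
      exact ⟨h1, h2⟩
  rw [h1, sum_filter]
  refine sum_congr rfl fun l' _ => ?_
  rw [sum_const]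
  by_cases h : Even (S.filter fun l => l' ∈ E l).card
  · rw [if_neg (not_not.mpr h)]
    obtain ⟨m, hm⟩ := h
    rw [hm, add_smul, p2_add_self]
  · rw [if_pos h]
    rw [Nat.not_even_iff_odd] at h
    obtain ⟨m, hm⟩ := h
    rw [hm, add_smul, one_smul, two_mul, add_smul, p2_add_self, zero_add]

theorem line_mem {l : List (ι × ℕ)} {x : ι × ℕ} (h : x ∈ l) : a x.1 ≤ line a l := by
  induction l with
  | nil => exact absurd h List.not_mem_nil
  | cons y l ih =>
    rw [line]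
    rcases List.mem_cons.mp h with rfl | h1
    · omega
    · have := ih h1
      omega

/-- `Sq¹ z = 0` in terms of the expansion of `z` -/
theorem e3 (hG : Gen s a D g) {M : ι → Finset ι} (hM : Mat s a D g M) {r t : ℕ} (hr : r < s)
    (ht : 2 ^ (2 * s + 1) ∣ t) {z : P} (hz : z ∈ Z r (t : ℤ)) {S : Finset (List (ι × ℕ))}
    (hS : ∀ l ∈ S, Good s a D r t l) (hzS : z + ∑ l ∈ S, val a g l ∈ B r (t : ℤ)) :
    sqC 1 r z ∈ B (r + 1) (2 * (t : ℤ)) ↔
      ∀ l', Even (Nat.card {l // l ∈ S ∧ Der (fun i j => j ∈ M i) l l'}) := by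
  classical
  have hg' : ∀ i, g i ∈ Z (a i) ((2 ^ (2 * s + 1) * D i : ℕ) : ℤ) := fun i => by
    push_cast; exact hG.mem i
  have hval : ∀ l ∈ S, val a g l ∈ Z r (t : ℤ) := fun l hl => by
    have := val_Z (a := a) (g := g) (e := fun i => 2 ^ (2 * s + 1) * D i) hg' l
    rwa [(hS l hl).2.1, (hS l hl).2.2] at this
  have hgood : ∀ l ∈ S, ∀ l' ∈ dl M l, Good s a D (r + 1) t l' := by
    intro l hl l' hl'
    obtain ⟨h1, h2, h3⟩ := dl_good hM l l' hl'
    obtain ⟨h4, h5, h6⟩ := hS l hl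
    exact ⟨h3 h4, by rw [h1, h5], by rw [h2, h6]⟩
  have hval' : ∀ l ∈ S, ∀ l' ∈ dl M l, val a g l' ∈ Z (r + 1) (t : ℤ) := fun l hl l' hl' => by
    have := val_Z (a := a) (g := g) (e := fun i => 2 ^ (2 * s + 1) * D i) hg' l'
    have h1 := hgood l hl l' hl'
    rwa [h1.2.1, h1.2.2] at this
  let U := (S.biUnion (dl M)).filter (fun l' => ¬ Even (S.filter fun l => l' ∈ dl M l).card)
  have hUg : ∀ l' ∈ U, Good s a D (r + 1) t l' := by
    intro l' hl'
    obtain ⟨l, hl, h1⟩ := mem_biUnion.mp (mem_filter.mp hl').1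
    exact hgood l hl l' h1
  have hUZ : ∑ l' ∈ U, val a g l' ∈ Z (r + 1) (t : ℤ) := by
    refine Submodule.sum_mem _ fun l' hl' => ?_
    obtain ⟨l, hl, h1⟩ := mem_biUnion.mp (mem_filter.mp hl').1
    exact hval' l hl l' h1
  -- the sum of `Sq¹`
  have h1 : sqC 1 r z + (∑ l' ∈ U, val a g l') ^ 2 ∈ B (r + 1) (2 * (t : ℤ)) := by
    have hSk : ∀ x (hx : x ∈ Z r (t : ℤ)), Sk 0 r (rfl : 2 * (t : ℤ) = 2 * t) (clP r t x)
        = clP (r + 1) (2 * (t : ℤ)) (sqC 1 r x) := by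
      intro x hx
      rw [clP_mem hx, Sk_cl, clP_mem (sqC_Z (k := 1) hx)]
      rfl
    have h2 : clP r (t : ℤ) z = ∑ l ∈ S, clP r (t : ℤ) (val a g l) := by
      rw [← clP_sum _ _ hval, clP_mem hz, clP_mem (Submodule.sum_mem _ hval)]
      exact cl_eq hzS
    have h3 := congrArg (Sk 0 r (rfl : 2 * (t : ℤ) = 2 * t)) h2
    rw [map_sum, hSk z hz, sum_congr rfl fun l hl => hSk _ (hval l hl)] at h3
    have h4 : ∀ l ∈ S, clP (r + 1) (2 * (t : ℤ)) (sqC 1 r (val a g l))
        = clP (r + 1) (2 * (t : ℤ)) (∑ l' ∈ dl M l, val a g l' ^ 2) := by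
      intro l hl
      have h5 := sqv hM hG.mem l (fun x hx => by
        have h6 := line_mem (a := a) hx
        rw [(hS l hl).2.1] at h6
        omega)
      rw [(hS l hl).2.1, (hS l hl).2.2] at h5
      rw [clP_mem (sqC_Z (k := 1) (hval l hl)), clP_mem (Submodule.sum_mem _ fun l' hl' =>
        sq_Z (hval' l hl l' hl'))]
      exact cl_eq h5
    rw [sum_congr rfl h4, ← clP_sum _ _ (fun l hl => Submodule.sum_mem _ fun l' hl' =>
        sq_Z (hval' l hl l' hl'))] at h3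
    have h5 := clP_eq (sqC_Z (k := 1) hz) (Submodule.sum_mem _ fun l hl =>
      Submodule.sum_mem _ fun l' hl' => sq_Z (hval' l hl l' hl')) h3
    rw [dsum S (dl M) fun l' => val a g l' ^ 2] at h5
    have h6 := sum_pow0 U (fun l' => val a g l') 1
    rw [pow_one] at h6
    rw [h6]
    exact h5
  have h2 : sqC 1 r z ∈ B (r + 1) (2 * (t : ℤ)) ↔ U = ∅ := by
    constructor
    · intro h3
      have h4 := Submodule.add_mem _ h3 h1
      rw [← add_assoc, p2_add_self, zero_add] at h4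
      have h5 : (∑ l' ∈ U, val a g l') ∈ B (r + 1) (t : ℤ) := by
        refine of_pow_B ?_ hUZ 1 ?_
        · have h6 : 2 ^ (2 * (r + 1) + 1) ∣ t := dvd_trans (pow_dvd_pow 2 (by omega)) ht
          exact_mod_cast h6
        · rw [pow_one, pow_one]
          exact h4
      exact (pbw hG t ht (r + 1) (by omega)).2 U hUg h5
    · intro h3
      rw [h3, sum_empty, zero_pow (by norm_num), add_zero] at h1
      exact h1
  rw [h2]
  have h3 : ∀ l', Nat.card {l // l ∈ S ∧ Der (fun i j => j ∈ M i) l l'}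
      = (S.filter fun l => l' ∈ dl M l).card := by
    intro l'
    rw [← Fintype.card_coe, ← Nat.card_eq_fintype_card]
    refine Nat.card_congr (Equiv.subtypeEquivRight fun l => ?_)
    rw [mem_filter, mem_dl]
  constructor
  · intro h4 l'
    rw [h3]
    by_contra h5
    have h6 : l' ∈ U := by
      refine mem_filter.mpr ⟨?_, h5⟩
      have h7 : (S.filter fun l => l' ∈ dl M l).Nonempty := by
        rw [nonempty_iff_ne_empty]
        intro h8
        rw [h8, card_empty] at h5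
        exact h5 (by simp)
      obtain ⟨l, hl⟩ := h7
      rw [mem_filter] at hl
      exact mem_biUnion.mpr ⟨l, hl.1, hl.2⟩
    rw [h4] at h6
    exact absurd h6 (notMem_empty _)
  · intro h4
    by_contra h5
    obtain ⟨l', hl'⟩ := nonempty_iff_ne_empty.mpr h5
    have h6 := h4 l'
    rw [h3] at h6
    exact (mem_filter.mp hl').2 h6

end Pool.Agent.H749.GX
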