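import Pool.Agent.H749.GX.Dr
import Pool.Agent.H749.GS.Fin

/-!
# The `E₃`-page
-/

set_option autoImplicit false
set_option linter.unusedSectionVars false

namespace Pool.Agent.H749.GX

open Finset MvPolynomial TensorProduct Pool.Agent.H749.GK.St Pool.Agent.H749.GS
  Pool.Agent.W624.Stz
open Pool.Agent.Q171.ND3.St (sqC IsHom Sq Sq0 fr Diffs fam sq0 Cocycle mulh h_cl Sq0_fr Sq_hom
  fr_hom)
open Pool.Agent.Q171.ND3.St renaming Z → NZ, cl → ncl, Ext → NE, B → NB, h → nh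

/-- multiplication by `h₀` is injective -/
theorem h0_inj {q : ℕ} {T : ℤ} (hT : (2 : ℤ) ^ (2 * q + 4) ∣ T) {x : P} (hx : x ∈ Z q T)
    (h : x * X (q, 0) ∈ B (q + 1) (T + 1)) : x ∈ B q T := by
  have hz := zt_Z 0
  rw [pow_zero] at hz
  have e1 : shift q (zt 0) = X (q, 0) := by
    rw [zt, pow_zero, pow_one, shift_X, add_zero]
  have h1 : KK (q + 1) (sgl q 1 (clP q T x ⊗ₜ[ZMod 2] clP 1 1 (zt 0))) = 0 := by
    rw [KK_sgl rfl, be_clP rfl hx hz, e1]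
    refine (clP_zero ?_).mpr h
    rw [← e1]
    exact cup_Z rfl hx hz
  have h2 := KK_inj (ρ := 1) (by
    rw [show 1 + 2 * (q + 1) + 1 = 2 * q + 4 by omega]
    exact hT) (by norm_num) (by norm_num) h1 (rfl : q + 1 = q + 1)
  rw [sgl_same] at h2
  rcases ten_zero'.mp h2 with h3 | h3
  · exact (clP_zero hx).mp h3
  · exfalso
    have h4 := (clP_zero hz).mp h3
    apply zt_B 0
    rw [pow_zero]
    exact h4

/-- the criterion for `d₂ (Sq⁰ x) = 0` in an explicit range -/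
theorem critE {r : ℕ} (𝒟 : Diffs) {t : ℕ} (ht : 2 ^ (2 * r + 5) ∣ t) (x : NZ r)
    (hx : IsHom t x.1) : 𝒟.d₂ r (Sq0 r (ncl x)) = 0 ↔ sqC 1 r x.1 ∈ B (r + 1) (2 * (t : ℤ)) := by
  have hev : Even t := even_iff_two_dvd.mpr (dvd_trans (dvd_pow_self 2 (by omega)) ht)
  have hb : 𝒟.d₂ r (Sq0 r (ncl x)) = nh 0 (r + 1) (ncl (Sq 1 x)) := 𝒟.lin.bruner₂ r t x hev hx
  have hZ : sqC 1 r x.1 ∈ Z (r + 1) (2 * (t : ℤ)) := by
    have h1 := (toG x hx).2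
    rw [toG_val] at h1
    exact sqC_Z (k := 1) h1
  rw [hb]
  constructor
  · intro h
    have h1 : sqC 1 r x.1 * X (r + 1, 0) ^ 2 ^ 0 ∈ NB (r + 1 + 1) := ncl_zero.mp h
    rw [pow_zero, pow_one] at h1
    have h2 : IsHom (2 * t + 1) (sqC 1 r x.1 * X (r + 1, 0)) := by
      have h3 : IsHom (2 * t) (Sq 1 x).1 := Sq_hom hx
      have h4 : IsHom 1 (X (r + 1, 0) : P) := homI.mpr (by
        have h5 := isWeightedHomogeneous_X (ZMod 2) wt (r + 1, 0)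
        have h6 : wt (r + 1, 0) = ((1 : ℕ) : ℤ) := by norm_num [wt]
        rw [h6] at h5
        exact h5)
      exact h3.mul h4
    have h3 := toN_B h2 h1
    refine h0_inj (T := 2 * (t : ℤ)) ?_ hZ ?_
    · have h4 : 2 ^ (2 * (r + 1) + 4) ∣ 2 * t := by
        rw [show 2 * (r + 1) + 4 = (2 * r + 5) + 1 by omega, pow_succ']
        exact Nat.mul_dvd_mul_left 2 ht
      exact_mod_cast h4
    · have h4 : ((2 * t + 1 : ℕ) : ℤ) = 2 * (t : ℤ) + 1 := by push_cast; rfl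
      rw [h4] at h3
      exact h3
  · intro h
    have h1 : ncl (Sq 1 x) = 0 := ncl_zero.mpr (toG_B h)
    rw [h1, map_zero]

theorem fr_pow {r : ℕ} (x : NZ r) (j : ℕ) : (fr^[j] x).1 = x.1 ^ (2 ^ j) := by
  induction j with
  | zero => rw [Function.iterate_zero, id, pow_zero, pow_one]
  | succ j ih =>
    rw [Function.iterate_succ_apply', pow_succ, pow_mul, ← ih]
    rfl

/-- the kernel of `d₂` -/
theorem d2_iff {s : ℕ} (𝒟 : Diffs) {M : Ix s → Finset (Ix s)}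
    (hM : Mat s (gA s) (gD s) (gG s) M) {r t : ℕ} (hr : r < s) (ht : 2 ^ (2 * s + 1) ∣ t)
    {z : Cocycle r} (hz : IsHom t z.val) {S : Finset (List (Ix s × ℕ))}
    (hS : ∀ l ∈ S, Adm (fun i => 2 ^ (2 * s + 1) * gD s i) l ∧ line (gA s) l = r ∧
      deg (fun i => 2 ^ (2 * s + 1) * gD s i) l = t)
    (hzS : z.val + ∑ l ∈ S, val (gA s) (gG s) l ∈ B r (t : ℤ)) {j : ℕ} (hj : 3 ≤ j) :
    𝒟.d₂ r (fam r j z.cls) = 0 ↔
      ∀ l', Even (Nat.card {l // l ∈ S ∧ Der (fun i j => j ∈ M i) l l'}) := by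
  classical
  haveI : Fintype (Ix s) := Fintype.ofFinite _
  have hzZ : z.val ∈ Z r (t : ℤ) := by
    have h1 := (toG z.toZ hz).2
    rw [toG_val] at h1
    exact h1
  rw [← e3 (gen s) hM hr ht hzZ hS hzS]
  obtain ⟨j, rfl⟩ : ∃ j', j = j' + 1 := ⟨j - 1, by omega⟩
  have h1 : fam r (j + 1) z.cls = Sq0 r (ncl (fr^[j] z.toZ)) := by
    have h2 : fam r (j + 1) (ncl z.toZ) = ncl (fr^[j + 1] z.toZ) := fam_ncl _ _
    rw [Function.iterate_succ_apply', ← Sq0_fr] at h2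
    exact h2
  have h2 : 2 ^ (2 * r + 5) ∣ 2 ^ j * t := by
    have h3 : 2 ^ (2 * r + 5) ∣ 2 ^ j * 2 ^ (2 * s + 1) := by
      rw [← pow_add]
      exact pow_dvd_pow 2 (by omega)
    exact dvd_trans h3 (Nat.mul_dvd_mul_left _ ht)
  rw [h1, critE 𝒟 h2 _ (fr_hom hz j), fr_pow, sqC_pow]
  have h3 : (2 * ((2 ^ j * t : ℕ) : ℤ)) = 2 ^ j * (2 * (t : ℤ)) := by push_cast; ring
  rw [h3]
  have h4 : sqC 1 r z.toZ.1 ∈ Z (r + 1) (2 * (t : ℤ)) := sqC_Z (k := 1) hzZ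
  constructor
  · intro h5
    refine of_pow_B ?_ h4 j h5
    have h6 : 2 ^ (2 * (r + 1) + 1) ∣ 2 * t :=
      Dvd.dvd.mul_left (dvd_trans (pow_dvd_pow 2 (by omega)) ht) 2
    exact_mod_cast h6
  · intro h5
    exact pow_B h5

/-- the theorem on `E₂` and `E₃` -/
theorem main3 (s : ℕ) : ∃ (ι : Type) (_ : Finite ι) (a D : ι → ℕ) (g : ι → P)
    (M : ι → ι → Prop),
    (∀ i, 1 ≤ a i ∧ a i ≤ s ∧ Odd (D i) ∧ D i < 2 ^ (2 * s * (2 * s + 1) + 1) ∧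
      g i ∈ Z (a i) ((2 ^ (2 * s + 1) * D i : ℕ) : ℤ)) ∧
    (∀ i j, M i j → a j = a i + 1 ∧ D j = D i) ∧
    (∀ r ≤ s, ∀ t : ℕ, 2 ^ (2 * s + 1) ∣ t →
      (∀ l : List (ι × ℕ), line a l = r → deg (fun i => 2 ^ (2 * s + 1) * D i) l = t →
        val a g l ∈ Z r (t : ℤ)) ∧
      ∀ z ∈ Z r (t : ℤ), ∃! S : Finset (List (ι × ℕ)),
        (∀ l ∈ S, Adm (fun i => 2 ^ (2 * s + 1) * D i) l ∧ line a l = r ∧
          deg (fun i => 2 ^ (2 * s + 1) * D i) l = t) ∧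
        ∀ j : ℕ, z ^ (2 ^ j) + ∑ l ∈ S, val a g (up j l) ∈ B r ((2 ^ j * t : ℕ) : ℤ)) ∧
    ∀ (𝒟 : Diffs), ∀ r < s, ∀ t : ℕ, 2 ^ (2 * s + 1) ∣ t → ∀ z : Cocycle r, IsHom t z.val →
      ∀ S : Finset (List (ι × ℕ)),
        (∀ l ∈ S, Adm (fun i => 2 ^ (2 * s + 1) * D i) l ∧ line a l = r ∧
          deg (fun i => 2 ^ (2 * s + 1) * D i) l = t) →
        z.val + ∑ l ∈ S, val a g l ∈ B r (t : ℤ) →
        ∀ j, 3 ≤ j → (𝒟.d₂ r (fam r j z.cls) = 0 ↔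
          ∀ l', Even (Nat.card {l // l ∈ S ∧ Der M l l'})) := by
  classical
  obtain ⟨M, hM⟩ : ∃ M : Ix s → Finset (Ix s), Mat s (gA s) (gD s) (gG s) M := by
    haveI : Fintype (Ix s) := Fintype.ofFinite _
    exact mat (gen s)
  have hZ : ∀ i, gG s i ∈ Z (gA s i) ((2 ^ (2 * s + 1) * gD s i : ℕ) : ℤ) := fun i => by
    push_cast
    exact (gen s).mem i
  exact ⟨Ix s, inferInstance, gA s, gD s, gG s, fun i j => j ∈ M i, fun i => ⟨gA_pos s i,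
    (gen s).le i, (gen s).odd i, i.1.1.2.2, hZ i⟩, fun i j h => ⟨hM.ln i j h, hM.dg i j h⟩,
    fun r hr t ht => basis s hr ht, fun 𝒟 r hr t ht z hz S hS hzS j hj =>
    d2_iff 𝒟 hM hr ht hz hS hzS hj⟩

end Pool.Agent.H749.GX
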