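import Pool.Agent.H749.GX.Pb

/-!
# Finitely many generators
-/

set_option autoImplicit false
set_option linter.unusedSectionVars false

namespace Pool.Agent.H749.GX

open Finset MvPolynomial TensorProduct Pool.Agent.H749.GK.St Pool.Agent.H749.GS
  Pool.Agent.W624.Stz

/-! ### Finite dimension -/

theorem exp_le {a : ℕ} {t : ℤ} {f : P} (hf : f ∈ C a t) {e : (ℕ × ℕ) →₀ ℕ} (he : coeff e f ≠ 0) :
    e ≤ ∑ v ∈ range a ×ˢ range t.toNat, Finsupp.single v t.toNat := by
  classical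
  have hw : Finsupp.weight wt e = t := hf.2 he
  intro v
  rcases Nat.eq_zero_or_pos (e v) with h0 | h0
  · rw [h0]; exact Nat.zero_le _
  · have h1 : v.1 < a := by
      by_contra hcon
      exact h0.ne' (supp_Sup hf.1 he (by omega))
    have h2 : (e v : ℤ) * wt v ≤ t := by
      rw [← hw, Finsupp.weight_apply, Finsupp.sum]
      have h3 := single_le_sum (f := fun c => e c • wt c) (s := e.support) (fun c _ => by
        rw [nsmul_eq_mul]
        exact mul_nonneg (by positivity) (wt_pos c).le) (Finsupp.mem_support_iff.mpr h0.ne')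
      simpa [nsmul_eq_mul] using h3
    have h3 := wt_pos v
    have h4 : (e v : ℤ) ≤ t := by
      have : (e v : ℤ) * 1 ≤ e v * wt v := mul_le_mul_of_nonneg_left (by omega) (by positivity)
      omega
    have h5 : (v.2 : ℤ) < t := by
      have h6 : (1 : ℤ) * wt v ≤ e v * wt v := mul_le_mul_of_nonneg_right (by omega) h3.le
      have h7 : v.2 + 1 < 2 ^ (v.2 + 1) := Nat.lt_two_pow_self
      have h8 : wt v = ((2 ^ (v.2 + 1) : ℕ) : ℤ) - 1 := by
        simp only [wt]; push_cast; rfl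
      omega
    rw [Finsupp.finsetSum_apply, sum_eq_single v]
    · rw [Finsupp.single_eq_same]
      omega
    · intro w _ hw
      rw [Finsupp.single_eq_of_ne hw.symm]
    · intro h
      exfalso
      apply h
      rw [mem_product, mem_range, mem_range]
      exact ⟨h1, by omega⟩

theorem C_fin (a : ℕ) (t : ℤ) : Module.Finite (ZMod 2) (C a t) := by
  classical
  let S : Set P := (fun d => monomial d (1 : ZMod 2)) '' Set.Iic
    (∑ v ∈ range a ×ˢ range t.toNat, Finsupp.single v t.toNat)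
  have hS : S.Finite := (Set.finite_Iic _).image _
  have := FiniteDimensional.span_of_finite (ZMod 2) hS
  refine Submodule.finiteDimensional_of_le (S₂ := Submodule.span (ZMod 2) S) ?_
  intro f hf
  rw [← support_sum_monomial_coeff f]
  refine Submodule.sum_mem _ fun d hd => ?_
  have h1 : monomial d (coeff d f) = coeff d f • monomial d (1 : ZMod 2) := by
    rw [smul_monomial, smul_eq_mul, mul_one]
  rw [h1]
  exact Submodule.smul_mem _ _ (Submodule.subset_span
    ⟨d, exp_le hf (mem_support_iff.mp hd), rfl⟩)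

instance Ext_fin (a : ℕ) (t : ℤ) : Module.Finite (ZMod 2) (Ext a t) := by
  have := C_fin a t
  have : Module.Finite (ZMod 2) (Z a t) :=
    Submodule.finiteDimensional_of_le (S₂ := C a t) inf_le_left
  exact Module.Finite.of_surjective (clL a t) fun α => cl_surj α

/-! ### The generators -/

/-- the pairs of a line and a block -/
abbrev Pr (s : ℕ) : Type := {x : Fin (s + 1) × Fin (bd s) // Odd (x.2 : ℕ) ∧ Indec s x.2}

/-- the index set of the generators -/
abbrev Ix (s : ℕ) : Type := Σ x : Pr s,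
  Fin (Module.finrank (ZMod 2) (Ext x.1.1 ((2 : ℤ) ^ (2 * s + 1) * ((x.1.2 : ℕ) : ℤ))))

/-- the line of a generator -/
def gA (s : ℕ) (i : Ix s) : ℕ := i.1.1.1
/-- the block of a generator -/
def gD (s : ℕ) (i : Ix s) : ℕ := i.1.1.2

/-- the generators -/
noncomputable def gG (s : ℕ) (i : Ix s) : P := (rep (Module.finBasis (ZMod 2)
  (Ext i.1.1.1 ((2 : ℤ) ^ (2 * s + 1) * ((i.1.1.2 : ℕ) : ℤ))) i.2)).1

theorem gen (s : ℕ) : Gen s (gA s) (gD s) (gG s) where
  odd i := i.1.2.1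
  ind i := i.1.2.2
  le i := by
    have := i.1.1.1.2
    rw [gA]
    omega
  mem i := (rep (Module.finBasis (ZMod 2)
    (Ext i.1.1.1 ((2 : ℤ) ^ (2 * s + 1) * ((i.1.1.2 : ℕ) : ℤ))) i.2)).2
  bas a₀ ha D₀ hD hI := by
    by_cases hb : D₀ < bd s
    · let x₀ : Pr s := ⟨(⟨a₀, by omega⟩, ⟨D₀, hb⟩), hD, hI⟩
      let f : Fin (Module.finrank (ZMod 2) (Ext a₀ ((2 : ℤ) ^ (2 * s + 1) * (D₀ : ℤ)))) →
          {i : Ix s // gA s i = a₀ ∧ gD s i = D₀} := fun j => ⟨⟨x₀, j⟩, rfl, rfl⟩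
      have hf : Function.Bijective f := by
        constructor
        · intro j j' h
          have h1 := congrArg Subtype.val h
          exact eq_of_heq (Sigma.mk.inj h1).2
        · rintro ⟨⟨⟨⟨⟨a', h1⟩, ⟨D', h2⟩⟩, h3⟩, j⟩, h4, h5⟩
          change a' = a₀ at h4
          change D' = D₀ at h5
          subst h4 h5
          exact ⟨j, rfl⟩
      refine ⟨(Module.finBasis (ZMod 2) (Ext a₀ ((2 : ℤ) ^ (2 * s + 1) * (D₀ : ℤ)))).reindex
        (Equiv.ofBijective f hf), fun i => ?_⟩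
      obtain ⟨j, rfl⟩ := hf.2 i
      rw [Module.Basis.reindex_apply, Equiv.ofBijective_symm_apply_apply]
      have h1 : gG s (f j).1 = (rep (Module.finBasis (ZMod 2)
        (Ext a₀ ((2 : ℤ) ^ (2 * s + 1) * (D₀ : ℤ))) j)).1 := rfl
      rw [h1, clP_mem (rep _).2, Subtype.coe_eta, cl_rep]
    · haveI : IsEmpty {i : Ix s // gA s i = a₀ ∧ gD s i = D₀} := by
        refine ⟨?_⟩
        rintro ⟨i, _, h⟩
        have := i.1.1.2.2
        rw [gD] at h
        omega
      have : Subsingleton (Ext a₀ ((2 : ℤ) ^ (2 * s + 1) * (D₀ : ℤ))) := by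
        have h1 : ∀ α : Ext a₀ ((2 : ℤ) ^ (2 * s + 1) * (D₀ : ℤ)), α = 0 := by
          have h2 := bd_van (k := 2 * s + 1) ha hD hI (not_lt.mp hb)
          have h3 : ((2 ^ (2 * s + 1) * D₀ : ℕ) : ℤ) = (2 : ℤ) ^ (2 * s + 1) * (D₀ : ℤ) := by
            push_cast; rfl
          rw [h3] at h2
          exact h2
        exact ⟨fun α β => by rw [h1 α, h1 β]⟩
      exact ⟨Module.Basis.empty _, fun i => isEmptyElim i⟩

theorem Z0_pos {T : ℤ} (hT : 0 < T) {z : P} (hz : z ∈ Z 0 T) : z = 0 := by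
  obtain ⟨r, rfl⟩ := C0_const hz.1
  by_contra h
  obtain ⟨e, he⟩ := ne_zero_iff.mp h
  have h1 : Finsupp.weight wt e = T := hz.1.2 he
  have h2 : e = 0 := by
    by_contra h3
    rw [coeff_C, if_neg (Ne.symm h3)] at he
    exact he rfl
  rw [h2, map_zero] at h1
  omega

theorem gA_pos (s : ℕ) (i : Ix s) : 1 ≤ gA s i := by
  by_contra hcon
  obtain ⟨⟨⟨⟨a', h1⟩, ⟨D', h2⟩⟩, h3⟩, j⟩ := i
  have h4 : a' = 0 := by
    change ¬ 1 ≤ a' at hcon
    omega
  subst h4
  have hD : 0 < D' := h3.1.pos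
  have hT : (0 : ℤ) < (2 : ℤ) ^ (2 * s + 1) * (D' : ℤ) := by positivity
  have h5 : ∀ α : Ext 0 ((2 : ℤ) ^ (2 * s + 1) * (D' : ℤ)), α = 0 := by
    intro α
    obtain ⟨z, rfl⟩ := cl_surj α
    rw [cl_zero, Z0_pos hT z.2]
    exact Submodule.zero_mem _
  have : Subsingleton (Ext 0 ((2 : ℤ) ^ (2 * s + 1) * (D' : ℤ))) :=
    ⟨fun α β => by rw [h5 α, h5 β]⟩
  have h6 : Module.finrank (ZMod 2) (Ext 0 ((2 : ℤ) ^ (2 * s + 1) * (D' : ℤ))) = 0 :=
    Module.finrank_zero_of_subsingleton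
  have h7 : (j : ℕ) < Module.finrank (ZMod 2) (Ext 0 ((2 : ℤ) ^ (2 * s + 1) * (D' : ℤ))) := j.2
  omega

theorem val_up {ι : Type} {a : ι → ℕ} {g : ι → P} (j : ℕ) :
    ∀ l : List (ι × ℕ), val a g (up j l) = val a g l ^ (2 ^ j)
  | [] => by rw [up, List.map_nil, val, one_pow]
  | x :: l => by
    rw [up, List.map_cons, val_cons, val_cons, mul_pow, ← pow_mul, ← pow_add, ← map_pow,
      ← val_up j l]
    rfl

theorem sum_symm {κ : Type} [DecidableEq κ] (S S' : Finset κ) (f : κ → P) :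
    ∑ l ∈ symmDiff S S', f l = ∑ l ∈ S, f l + ∑ l ∈ S', f l := by
  have h1 : ∑ l ∈ S, f l = ∑ l ∈ S \ S', f l + ∑ l ∈ S ∩ S', f l := by
    rw [← sum_union (disjoint_sdiff_inter S S'), sdiff_union_inter]
  have h2 : ∑ l ∈ S', f l = ∑ l ∈ S' \ S, f l + ∑ l ∈ S ∩ S', f l := by
    rw [inter_comm, ← sum_union (disjoint_sdiff_inter S' S), sdiff_union_inter]
  have h3 : ∑ l ∈ symmDiff S S', f l = ∑ l ∈ S \ S', f l + ∑ l ∈ S' \ S, f l := by
    rw [symmDiff, sup_eq_union, sum_union disjoint_sdiff_sdiff]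
  have h4 := p2_add_self (∑ l ∈ S ∩ S', f l)
  rw [h1, h2, h3]
  calc _ = ∑ l ∈ S \ S', f l + ∑ l ∈ S' \ S, f l + 0 := by rw [add_zero]
    _ = _ := by rw [← h4]; ring

/-- the basis -/
theorem basis (s : ℕ) {r t : ℕ} (hr : r ≤ s) (ht : 2 ^ (2 * s + 1) ∣ t) :
    (∀ l : List (Ix s × ℕ), line (gA s) l = r →
      deg (fun i => 2 ^ (2 * s + 1) * gD s i) l = t → val (gA s) (gG s) l ∈ Z r (t : ℤ)) ∧
      ∀ z ∈ Z r (t : ℤ), ∃! S : Finset (List (Ix s × ℕ)),
        (∀ l ∈ S, Adm (fun i => 2 ^ (2 * s + 1) * gD s i) l ∧ line (gA s) l = r ∧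
          deg (fun i => 2 ^ (2 * s + 1) * gD s i) l = t) ∧
        ∀ j : ℕ, z ^ (2 ^ j) + ∑ l ∈ S, val (gA s) (gG s) (up j l)
          ∈ B r ((2 ^ j * t : ℕ) : ℤ) := by
  classical
  have hZ : ∀ i, gG s i ∈ Z (gA s i) ((2 ^ (2 * s + 1) * gD s i : ℕ) : ℤ) := fun i => by
    push_cast
    exact (gen s).mem i
  refine ⟨fun l h1 h2 => ?_, fun z hz => ?_⟩
  · have := val_Z hZ l
    rwa [h1, h2] at this
  · haveI : Fintype (Ix s) := Fintype.ofFinite _
    obtain ⟨hA, hB⟩ := pbw (gen s) t ht r hr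
    obtain ⟨S, hS, hzS⟩ := hA z hz
    refine ⟨S, ⟨hS, fun j => ?_⟩, ?_⟩
    · have h1 := pow_B (ρ := j) hzS
      rw [add_pow0, sum_pow0] at h1
      simp only [val_up]
      push_cast
      exact h1
    · rintro S' ⟨hS', hz'⟩
      have h1 := hz' 0
      simp only [val_up, pow_zero, pow_one, one_mul] at h1
      have h2 := Submodule.add_mem _ hzS h1
      have h3 : ∑ l ∈ symmDiff S S', val (gA s) (gG s) l
          = z + ∑ l ∈ S, val (gA s) (gG s) l + (z + ∑ l ∈ S', val (gA s) (gG s) l) := by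
        rw [sum_symm]
        have h4 := p2_add_self z
        calc _ = 0 + (∑ l ∈ S, val (gA s) (gG s) l + ∑ l ∈ S', val (gA s) (gG s) l) := by
              rw [zero_add]
          _ = _ := by rw [← h4]; ring
      rw [← h3] at h2
      have h4 := hB (symmDiff S S') (fun l hl => by
        rcases mem_symmDiff.mp hl with h | h
        · exact hS l h.1
        · exact hS' l h.1) h2
      exact (symmDiff_eq_bot.mp h4).symm

end Pool.Agent.H749.GX
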