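import Pool.Agent.H749.GX.Sq
import Pool.Agent.H749.GX.Df

/-!
# The basis of products
-/

set_option autoImplicit false
set_option linter.unusedSectionVars false

namespace Pool.Agent.H749.GX

open Finset MvPolynomial TensorProduct Pool.Agent.H749.GK.St Pool.Agent.H749.GS
  Pool.Agent.W624.Stz

variable {s : ℕ} {ι : Type} {a D : ι → ℕ} {g : ι → P}

theorem val_cons (x : ι × ℕ) (l : List (ι × ℕ)) :
    val a g (x :: l) = g x.1 ^ (2 ^ x.2) * shift (a x.1) (val a g l) := rfl

theorem one_Z : (1 : P) ∈ Z 0 0 := ⟨one_C0, LinearMap.mem_ker.mpr (d_zero one_C0)⟩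

theorem val_Z {e : ι → ℕ} (h : ∀ i, g i ∈ Z (a i) (e i : ℤ)) :
    ∀ l : List (ι × ℕ), val a g l ∈ Z (line a l) (deg e l : ℤ)
  | [] => by
    have := one_Z
    simpa [val, line, deg] using this
  | x :: l => by
    have h1 := cup_Z (r := a x.1 + line a l) rfl (pow_Z (ρ := x.2) (h x.1)) (val_Z h l)
    have h2 : ((deg e (x :: l) : ℕ) : ℤ) = 2 ^ x.2 * (e x.1 : ℤ) + (deg e l : ℤ) := by
      rw [deg]; push_cast; rfl
    rw [h2]
    exact h1

/-- the lists of a given line and degree -/
def Good (s : ℕ) (a D : ι → ℕ) (r t : ℕ) (l : List (ι × ℕ)) : Prop :=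
  Adm (fun i => 2 ^ (2 * s + 1) * D i) l ∧ line a l = r ∧
    deg (fun i => 2 ^ (2 * s + 1) * D i) l = t

/-- adding a head -/
def consE (i : ι) (k : ℕ) : List (ι × ℕ) ↪ List (ι × ℕ) :=
  ⟨fun l => (i, k) :: l, fun _ _ h => (List.cons.inj h).2⟩

theorem consE_apply (i : ι) (k : ℕ) (l : List (ι × ℕ)) : consE i k l = (i, k) :: l := rfl

open Classical in
/-- the sets of lists with heads `(i, k)`, `i ∈ I` -/
noncomputable def bi (I : Finset ι) (k : ℕ) (Sf : ι → Finset (List (ι × ℕ))) :
    Finset (List (ι × ℕ)) := I.biUnion fun i => (Sf i).map (consE i k)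

theorem mem_bi {I : Finset ι} {k : ℕ} {Sf : ι → Finset (List (ι × ℕ))} {l : List (ι × ℕ)} :
    l ∈ bi I k Sf ↔ ∃ i ∈ I, ∃ l' ∈ Sf i, (i, k) :: l' = l := by
  classical
  rw [bi, mem_biUnion]
  simp only [mem_map, consE_apply]

theorem sum_bi (I : Finset ι) (k : ℕ) (Sf : ι → Finset (List (ι × ℕ))) :
    ∑ l ∈ bi I k Sf, val a g l
      = ∑ i ∈ I, g i ^ (2 ^ k) * shift (a i) (∑ l ∈ Sf i, val a g l) := by
  classical
  rw [bi, sum_biUnion]
  · refine sum_congr rfl fun i _ => ?_
    rw [sum_map, map_sum, mul_sum]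
    rfl
  · intro i _ j _ hij
    rw [Function.onFun, Finset.disjoint_left]
    intro l h1 h2
    obtain ⟨l1, _, e1⟩ := mem_map.mp h1
    obtain ⟨l2, _, e2⟩ := mem_map.mp h2
    rw [← e2, consE_apply, consE_apply] at e1
    exact hij (Prod.mk.inj (List.cons.inj e1).1).1

theorem deg_pos {r t : ℕ} {l : List (ι × ℕ)} (hD : ∀ i, Odd (D i)) (h : Good s a D r t l)
    (ht : t = 0) : l = [] := by
  cases l with
  | nil => rfl
  | cons x l =>
    exfalso
    have h1 := h.2.2
    rw [deg] at h1
    have h2 := (hD x.1).pos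
    have h3 : 0 < 2 ^ x.2 * (2 ^ (2 * s + 1) * D x.1) := by positivity
    omega

theorem B_pos0 {b : ℕ} {z : P} (hz : z ∈ Z (b + 1) 0) : z ∈ B (b + 1) 0 := by
  obtain ⟨v, hv⟩ := nzc_surj 0 (b + 1) (cl ⟨z, hz⟩)
  have h1 : v.1 = 0 := V_deg0 v.2.1
  have h2 : nzc 0 (b + 1) v = 0 := by
    refine cl_zero.mpr ?_
    change v.1 ∈ _
    rw [h1]
    exact Submodule.zero_mem _
  rw [h2] at hv
  exact cl_zero.mp hv.symm

theorem zm2 : ∀ κ : ZMod 2, κ = 0 ∨ κ = 1 := by decide

variable [Fintype ι]

theorem pbw (hG : Gen s a D g) : ∀ t : ℕ, 2 ^ (2 * s + 1) ∣ t → ∀ r ≤ s,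
    (∀ z ∈ Z r (t : ℤ), ∃ S : Finset (List (ι × ℕ)), (∀ l ∈ S, Good s a D r t l) ∧
      z + ∑ l ∈ S, val a g l ∈ B r (t : ℤ)) ∧
    (∀ S : Finset (List (ι × ℕ)), (∀ l ∈ S, Good s a D r t l) →
      ∑ l ∈ S, val a g l ∈ B r (t : ℤ) → S = ∅) := by
  classical
  intro t
  induction t using Nat.strong_induction_on with
  | _ t ih =>
    intro hdt r hr
    rcases Nat.eq_zero_or_pos t with ht | ht
    · -- degree zero
      subst ht
      rw [Nat.cast_zero]
      cases r with
      | zero =>
        constructor
        · intro z hz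
          obtain ⟨κ, hκ⟩ := C_deg0 hz.1
          have h2 := zm2 κ
          rcases h2 with rfl | rfl
          · refine ⟨∅, fun l hl => absurd hl (notMem_empty _), ?_⟩
            rw [sum_empty, add_zero, hκ, map_zero]
            exact Submodule.zero_mem _
          · refine ⟨{[]}, fun l hl => ?_, ?_⟩
            · rw [mem_singleton] at hl
              subst hl
              exact ⟨trivial, rfl, rfl⟩
            · rw [sum_singleton, hκ, map_one]
              change (1 : P) + 1 ∈ _
              rw [p2_add_self]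
              exact Submodule.zero_mem _
        · intro S hS hB
          by_contra hne
          have h1 : S = {[]} := by
            refine Finset.eq_singleton_iff_unique_mem.mpr ⟨?_, fun l hl =>
              deg_pos hG.odd (hS l hl) rfl⟩
            obtain ⟨l, hl⟩ := Finset.nonempty_iff_ne_empty.mpr hne
            have := deg_pos hG.odd (hS l hl) rfl
            rwa [this] at hl
          rw [h1, sum_singleton] at hB
          have h2 : (1 : P) = 0 := (Submodule.mem_bot _).mp hB
          exact one_ne_zero h2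
      | succ r =>
        constructor
        · intro z hz
          refine ⟨∅, fun l hl => absurd hl (notMem_empty _), ?_⟩
          rw [sum_empty, add_zero]
          exact B_pos0 hz
        · intro S hS _
          by_contra hne
          obtain ⟨l, hl⟩ := Finset.nonempty_iff_ne_empty.mpr hne
          have h1 := deg_pos hG.odd (hS l hl) rfl
          have h2 := (hS l hl).2.1
          rw [h1] at h2
          exact absurd h2 (by rw [line]; omega)
    · -- positive degree
      obtain ⟨k', D₀, c, htk, hD, hI, hc⟩ := top_ex s t ht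
      obtain ⟨hk', hdc⟩ := top_dvd (htk ▸ hdt) hD hc
      obtain ⟨k, rfl⟩ : ∃ k, k' = k + (2 * s + 1) := ⟨k' - (2 * s + 1), by omega⟩
      have hck : c < 2 ^ k := by
        have hc' : c * 2 ^ (2 * s + 1) < 2 ^ k * 2 ^ (2 * s + 1) := by rwa [← pow_add]
        exact Nat.lt_of_mul_lt_mul_right hc'
      have hct : c < t := by
        have := hD.pos
        have : 0 < 2 ^ (k + (2 * s + 1)) * D₀ := by positivity
        omega
      have htz : (t : ℤ) = (2 : ℤ) ^ k * ((2 : ℤ) ^ (2 * s + 1) * (D₀ : ℤ)) + (c : ℤ) := by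
        rw [htk, pow_add]; push_cast; ring
      have hcz : (c : ℤ) < 2 ^ k := by exact_mod_cast hck
      constructor
      · intro z hz
        rw [htz] at hz
        obtain ⟨y, hy, hyB⟩ := KSurj hG hr hD hI (Int.natCast_nonneg c) hcz hz
        have h1 : ∀ i, ∃ Si : Finset (List (ι × ℕ)), D i = D₀ → a i ≤ r →
            (∀ l ∈ Si, Good s a D (r - a i) c l) ∧
              y i + ∑ l ∈ Si, val a g l ∈ B (r - a i) (c : ℤ) := by
          intro i
          by_cases h : D i = D₀ ∧ a i ≤ r
          · obtain ⟨Si, h2⟩ := (ih c hct hdc (r - a i) (by omega)).1 (y i) (hy i h.1 h.2)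
            exact ⟨Si, fun _ _ => h2⟩
          · exact ⟨∅, fun h1 h2 => absurd ⟨h1, h2⟩ h⟩
        choose Sf hSf using h1
        refine ⟨bi (idx a D r D₀) k Sf, ?_, ?_⟩
        · intro l hl
          obtain ⟨i, hi, l', hl', rfl⟩ := mem_bi.mp hl
          obtain ⟨h2, h3⟩ := mem_idx.mp hi
          obtain ⟨h4, h5, h6⟩ := (hSf i h2 h3).1 l' hl'
          refine ⟨⟨?_, h4⟩, ?_, ?_⟩
          · rw [h6]; exact hck
          · rw [line, h5]; simp only; omega
          · rw [deg, h6, htk, h2, pow_add]; ring
        · rw [sum_bi, htz]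
          have h2 : ∑ i ∈ idx a D r D₀, g i ^ (2 ^ k) * shift (a i) (y i + ∑ l ∈ Sf i, val a g l)
              ∈ B r ((2 : ℤ) ^ k * ((2 : ℤ) ^ (2 * s + 1) * (D₀ : ℤ)) + (c : ℤ)) := by
            refine Submodule.sum_mem _ fun i hi => ?_
            obtain ⟨h2, h3⟩ := mem_idx.mp hi
            have hgi := pow_Z (ρ := k) (hG.mem i)
            rw [h2] at hgi
            have h4 : y i + ∑ l ∈ Sf i, val a g l ∈ Z (r - a i) (c : ℤ) := by
              refine Submodule.add_mem _ (hy i h2 h3) (Submodule.sum_mem _ fun l hl => ?_)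
              obtain ⟨_, h5, h6⟩ := (hSf i h2 h3).1 l hl
              have h7 := val_Z (a := a) (g := g) (e := fun i => 2 ^ (2 * s + 1) * D i)
                (fun i => by push_cast; exact hG.mem i) l
              rwa [h5, h6] at h7
            exact cup_B (by omega) hgi h4 (hSf i h2 h3).2
          have h3 := Submodule.add_mem _ hyB h2
          have h4 : ∑ i ∈ idx a D r D₀, g i ^ (2 ^ k)
              * shift (a i) (y i + ∑ l ∈ Sf i, val a g l)
              = ∑ i ∈ idx a D r D₀, g i ^ (2 ^ k) * shift (a i) (y i)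
                + ∑ i ∈ idx a D r D₀, g i ^ (2 ^ k) * shift (a i) (∑ l ∈ Sf i, val a g l) := by
            rw [← sum_add_distrib]
            exact sum_congr rfl fun i _ => by rw [map_add, mul_add]
          rw [h4, ← add_assoc, add_assoc z, p2_add_self, add_zero] at h3
          exact h3
      · intro S hS hB
        -- the heads
        have hhead : ∀ l ∈ S, ∃ i l', l = (i, k) :: l' ∧ D i = D₀ ∧ a i ≤ r ∧
            Good s a D (r - a i) c l' := by
          intro l hl
          obtain ⟨h1, h2, h3⟩ := hS l hl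
          cases l with
          | nil =>
            exfalso
            rw [deg] at h3
            omega
          | cons x l =>
            obtain ⟨i, k₁⟩ := x
            rw [deg] at h3
            simp only at h3
            rw [Adm] at h1
            obtain ⟨h4, h5⟩ := h1
            simp only at h4
            rw [line] at h2
            simp only at h2
            have h6 : 2 ^ (k₁ + (2 * s + 1)) * D i
                + deg (fun i => 2 ^ (2 * s + 1) * D i) l = 2 ^ (k + (2 * s + 1)) * D₀ + c := by
              rw [← htk, ← h3, pow_add]; ring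
            obtain ⟨h7, h8, h9⟩ := top_un h6 (hG.odd i) hD (hG.ind i) hI (by
              rw [pow_add 2 k₁]
              exact Nat.mul_lt_mul_of_pos_right h4 (by positivity)) hc
            have h10 : k₁ = k := by omega
            subst h10
            exact ⟨i, l, rfl, h8, by omega, h5, by omega, h9⟩
        let Sf : ι → Finset (List (ι × ℕ)) := fun i => S.preimage (consE i k)
          (consE i k).injective.injOn
        have hSf : ∀ i l, l ∈ Sf i ↔ (i, k) :: l ∈ S := fun i l => mem_preimage
        have hSbi : S = bi (idx a D r D₀) k Sf := by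
          ext l
          rw [mem_bi]
          constructor
          · intro hl
            obtain ⟨i, l', rfl, h1, h2, _⟩ := hhead l hl
            exact ⟨i, mem_idx.mpr ⟨h1, h2⟩, l', (hSf i l').mpr hl, rfl⟩
          · rintro ⟨i, _, l', hl', rfl⟩
            exact (hSf i l').mp hl'
        have hgood : ∀ i, ∀ l ∈ Sf i, Good s a D (r - a i) c l := by
          intro i l hl
          obtain ⟨i', l', h1, _, _, h4⟩ := hhead _ ((hSf i l).mp hl)
          have h5 := List.cons.inj h1
          have h6 := (Prod.mk.inj h5.1).1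
          rw [h6, h5.2]
          exact h4
        have hyZ : ∀ i, ∑ l ∈ Sf i, val a g l ∈ Z (r - a i) (c : ℤ) := by
          intro i
          refine Submodule.sum_mem _ fun l hl => ?_
          obtain ⟨_, h5, h6⟩ := hgood i l hl
          have h7 := val_Z (a := a) (g := g) (e := fun i => 2 ^ (2 * s + 1) * D i)
            (fun i => by push_cast; exact hG.mem i) l
          rwa [h5, h6] at h7
        rw [hSbi, sum_bi, htz] at hB
        have h1 := KInj hG hr hD hI (Int.natCast_nonneg c) hcz (fun i _ _ => hyZ i) hB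
        rw [hSbi]
        by_contra hne
        obtain ⟨l, hl⟩ := Finset.nonempty_iff_ne_empty.mpr hne
        obtain ⟨i, hi, l', hl', _⟩ := mem_bi.mp hl
        obtain ⟨h2, h3⟩ := mem_idx.mp hi
        have h4 := (ih c hct hdc (r - a i) (by omega)).2 (Sf i) (hgood i) (h1 i h2 h3)
        rw [h4] at hl'
        exact absurd hl' (notMem_empty _)

end Pool.Agent.H749.GX
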