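import Pool.Agent.H749.GX.Ar

/-!
# The iterated `Sq⁰` as an isomorphism, and the Künneth theorem for families of generators
-/

set_option autoImplicit false
set_option linter.unusedSectionVars false

namespace Pool.Agent.H749.GX

open Finset MvPolynomial TensorProduct Pool.Agent.H749.GK.St Pool.Agent.H749.GS
  Pool.Agent.W624.Stz

/-! ### Classes of polynomials -/

open Classical in
/-- the class of a cocycle, zero for the other polynomials -/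
noncomputable def clP (s : ℕ) (t : ℤ) (x : P) : Ext s t := if h : x ∈ Z s t then cl ⟨x, h⟩ else 0

theorem clP_mem {s : ℕ} {t : ℤ} {x : P} (h : x ∈ Z s t) : clP s t x = cl ⟨x, h⟩ := dif_pos h

theorem clP_zero {s : ℕ} {t : ℤ} {x : P} (h : x ∈ Z s t) : clP s t x = 0 ↔ x ∈ B s t := by
  rw [clP_mem h]
  exact cl_zero

theorem clP_surj {s : ℕ} {t : ℤ} (α : Ext s t) : ∃ x ∈ Z s t, clP s t x = α := by
  obtain ⟨x, rfl⟩ := cl_surj α
  exact ⟨x.1, x.2, clP_mem x.2⟩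

theorem clP_sum {κ : Type} {s : ℕ} {t : ℤ} (I : Finset κ) (f : κ → P)
    (h : ∀ i ∈ I, f i ∈ Z s t) : clP s t (∑ i ∈ I, f i) = ∑ i ∈ I, clP s t (f i) := by
  classical
  induction I using Finset.induction_on with
  | empty =>
    rw [sum_empty, sum_empty]
    exact (clP_zero (Submodule.zero_mem _)).mpr (Submodule.zero_mem _)
  | insert i I hi ih =>
    have h1 := h i (mem_insert_self _ _)
    have h2 : ∀ j ∈ I, f j ∈ Z s t := fun j hj => h j (mem_insert_of_mem hj)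
    rw [sum_insert hi, sum_insert hi, ← ih h2, clP_mem h1, clP_mem (Submodule.sum_mem _ h2),
      ← cl_add, clP_mem (Submodule.add_mem _ h1 (Submodule.sum_mem _ h2))]
    rfl

theorem clP_eq {s : ℕ} {t : ℤ} {x y : P} (hx : x ∈ Z s t) (hy : y ∈ Z s t)
    (h : clP s t x = clP s t y) : x + y ∈ B s t := by
  have h1 : cl (⟨x, hx⟩ + ⟨y, hy⟩ : Z s t) = 0 := by
    rw [cl_add, ← clP_mem hx, ← clP_mem hy, h]
    exact Pool.Agent.H749.GK.KA.ch2 _
  exact cl_zero.mp h1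

/-! ### The iterated `Sq⁰` -/

theorem pow_Z {a ρ : ℕ} {T : ℤ} {x : P} (h : x ∈ Z a T) : x ^ (2 ^ ρ) ∈ Z a (2 ^ ρ * T) :=
  (sqZ ρ T a ⟨x, h⟩).2

theorem pow_B {a ρ : ℕ} {T : ℤ} {x : P} (h : x ∈ B a T) : x ^ (2 ^ ρ) ∈ B a (2 ^ ρ * T) := by
  cases a with
  | zero =>
    have h1 : x = 0 := (Submodule.mem_bot _).mp h
    rw [h1, zero_pow (by positivity)]
    exact Submodule.zero_mem _
  | succ a =>
    obtain ⟨v, hv, hv2⟩ := Submodule.mem_map.mp h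
    rw [← hv2, ← d_pow]
    exact Submodule.mem_map_of_mem (pow_C ρ hv)

theorem of_pow_B {a : ℕ} {T : ℤ} {x : P} (hT : (2 : ℤ) ^ (2 * a + 1) ∣ T) (hx : x ∈ Z a T) (ρ : ℕ)
    (h : x ^ (2 ^ ρ) ∈ B a (2 ^ ρ * T)) : x ∈ B a T := by
  induction ρ with
  | zero =>
    simpa using h
  | succ ρ ih =>
    apply ih
    have h1 : (2 : ℤ) ^ (ρ + 1) * T = 2 * (2 ^ ρ * T) := by ring
    have h2 : S0 a h1 (cl ⟨x ^ (2 ^ ρ), pow_Z hx⟩) = 0 := by
      rw [S0_cl, cl_zero]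
      change (x ^ (2 ^ ρ)) ^ 2 ∈ _
      rw [← pow_mul, ← pow_succ]
      exact h
    exact cl_zero.mp (S0_inj h1 (dvd_mul_of_dvd_right hT _) h2)

/-- the iterated `Sq⁰` -/
noncomputable def sqE (ρ : ℕ) (T : ℤ) (a : ℕ) : Ext a T →ₗ[ZMod 2] Ext a (2 ^ ρ * T) :=
  Submodule.liftQ ((B a T).comap (Z a T).subtype) (sqc ρ T a) (by
    intro x hx
    rw [LinearMap.mem_ker]
    exact cl_zero.mpr (pow_B hx))

theorem sqE_cl (ρ : ℕ) (T : ℤ) (a : ℕ) (x : Z a T) : sqE ρ T a (cl x) = sqc ρ T a x := rfl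

theorem sqE_clP (ρ : ℕ) (T : ℤ) (a : ℕ) {x : P} (hx : x ∈ Z a T) :
    sqE ρ T a (clP a T x) = clP a (2 ^ ρ * T) (x ^ (2 ^ ρ)) := by
  rw [clP_mem hx, sqE_cl, clP_mem (pow_Z hx)]
  rfl

theorem sqE_bij {ρ : ℕ} {T : ℤ} {a : ℕ} (hT : (2 : ℤ) ^ (2 * a + 1) ∣ T) :
    Function.Bijective (sqE ρ T a) := by
  constructor
  · rw [injective_iff_map_eq_zero]
    intro α hα
    obtain ⟨x, hx, rfl⟩ := clP_surj α
    rw [sqE_clP ρ T a hx] at hα
    exact (clP_zero hx).mpr (of_pow_B hT hx ρ ((clP_zero (pow_Z hx)).mp hα))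
  · intro β
    obtain ⟨x, hx⟩ := sqc_surj ρ T hT β
    exact ⟨cl x, hx⟩

/-! ### The Künneth theorem for a family of generators -/

/-- a family of cocycles which gives bases in the degrees of the blocks -/
structure Gen (s : ℕ) {ι : Type} (a D : ι → ℕ) (g : ι → P) : Prop where
  odd : ∀ i, Odd (D i)
  ind : ∀ i, Indec s (D i)
  le : ∀ i, a i ≤ s
  mem : ∀ i, g i ∈ Z (a i) ((2 : ℤ) ^ (2 * s + 1) * D i)
  bas : ∀ a₀ ≤ s, ∀ D₀, Odd D₀ → Indec s D₀ →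
    ∃ b : Module.Basis {i // a i = a₀ ∧ D i = D₀} (ZMod 2) (Ext a₀ ((2 : ℤ) ^ (2 * s + 1) * D₀)),
      ∀ i, b i = clP a₀ _ (g i)

variable {s : ℕ} {ι : Type} {a D : ι → ℕ} {g : ι → P}

theorem Gen.bas' (hG : Gen s a D g) (k : ℕ) {a₀ D₀ : ℕ} (ha : a₀ ≤ s) (hD : Odd D₀)
    (hI : Indec s D₀) :
    ∃ b : Module.Basis {i // a i = a₀ ∧ D i = D₀} (ZMod 2)
        (Ext a₀ ((2 : ℤ) ^ k * ((2 : ℤ) ^ (2 * s + 1) * D₀))),
      ∀ i, b i = clP a₀ _ (g i ^ (2 ^ k)) := by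
  obtain ⟨b, hb⟩ := hG.bas a₀ ha D₀ hD hI
  have hT : (2 : ℤ) ^ (2 * a₀ + 1) ∣ (2 : ℤ) ^ (2 * s + 1) * D₀ :=
    dvd_mul_of_dvd_left (pow_dvd_pow 2 (by omega)) _
  refine ⟨b.map (LinearEquiv.ofBijective _ (sqE_bij (ρ := k) hT)), ?_⟩
  rintro ⟨i, rfl, rfl⟩
  rw [Module.Basis.map_apply, LinearEquiv.ofBijective_apply, hb]
  exact sqE_clP k _ _ (hG.mem i)

variable [Fintype ι]

open Classical in
/-- the generators of a given degree -/
noncomputable def idx (a D : ι → ℕ) (r D₀ : ℕ) : Finset ι :=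
  univ.filter fun i => D i = D₀ ∧ a i ≤ r

theorem mem_idx {r D₀ : ℕ} {i : ι} : i ∈ idx a D r D₀ ↔ D i = D₀ ∧ a i ≤ r := by
  simp [idx]

open Classical in
/-- the family of tensors -/
noncomputable def FF (a D : ι → ℕ) (g : ι → P) (D₀ k : ℕ) (T c : ℤ) (y : ι → P) : FT T c :=
  fun a₀ b₀ => ∑ i : {i // a i = a₀ ∧ D i = D₀},
    clP a₀ T (g i ^ (2 ^ k)) ⊗ₜ[ZMod 2] clP b₀ c (y i)

theorem be_clP {r a₀ b₀ : ℕ} {T c : ℤ} (h : a₀ + b₀ = r) {x y : P} (hx : x ∈ Z a₀ T)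
    (hy : y ∈ Z b₀ c) : be r a₀ b₀ (clP a₀ T x ⊗ₜ[ZMod 2] clP b₀ c y)
      = clP r (T + c) (x * shift a₀ y) := by
  have h1 := (cupZ h ⟨x, hx⟩ ⟨y, hy⟩).2
  rw [be, dif_pos h, TensorProduct.lift.tmul, clP_mem hx, clP_mem hy, cupE_cl]
  exact (clP_mem h1).symm

theorem cup_Z {r a₀ b₀ : ℕ} {T c : ℤ} (h : a₀ + b₀ = r) {x y : P} (hx : x ∈ Z a₀ T)
    (hy : y ∈ Z b₀ c) : x * shift a₀ y ∈ Z r (T + c) := (cupZ h ⟨x, hx⟩ ⟨y, hy⟩).2

theorem cup_B {r a₀ b₀ : ℕ} {T c : ℤ} (h : a₀ + b₀ = r) {x y : P} (hx : x ∈ Z a₀ T)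
    (hy : y ∈ Z b₀ c) (hyB : y ∈ B b₀ c) : x * shift a₀ y ∈ B r (T + c) :=
  cup_right h ⟨x, hx⟩ (y := ⟨y, hy⟩) hyB

theorem KK_FF (hG : Gen s a D g) {r k D₀ : ℕ} {c : ℤ} {y : ι → P}
    (hy : ∀ i, D i = D₀ → a i ≤ r → y i ∈ Z (r - a i) c) :
    KK r (FF a D g D₀ k ((2 : ℤ) ^ k * ((2 : ℤ) ^ (2 * s + 1) * D₀)) c y)
      = clP r ((2 : ℤ) ^ k * ((2 : ℤ) ^ (2 * s + 1) * D₀) + c)
        (∑ i ∈ idx a D r D₀, g i ^ (2 ^ k) * shift (a i) (y i)) := by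
  classical
  rw [clP_sum]
  · rw [KK, ← sum_fiberwise_of_maps_to (s := idx a D r D₀) (t := antidiagonal r)
      (g := fun i => (a i, r - a i))]
    · refine sum_congr rfl fun p hp => ?_
      have hp' := HasAntidiagonal.mem_antidiagonal.mp hp
      rw [FF, map_sum]
      rw [← sum_coe_sort ((idx a D r D₀).filter fun i => (a i, r - a i) = p)]
      refine Fintype.sum_bijective (fun i : {i // a i = p.1 ∧ D i = D₀} =>
        (⟨i.1, ?_⟩ : {i // i ∈ (idx a D r D₀).filter fun i => (a i, r - a i) = p})) ?_ _ _ ?_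
      · rw [mem_filter, mem_idx]
        refine ⟨⟨i.2.2, ?_⟩, Prod.ext i.2.1 ?_⟩
        · rw [i.2.1]; omega
        · simp only; rw [i.2.1]; omega
      · constructor
        · intro i j hij
          exact Subtype.ext (congrArg (fun x => x.1) hij)
        · rintro ⟨i, hi⟩
          have hi' := mem_filter.mp hi
          exact ⟨⟨i, by rw [← hi'.2], (mem_idx.mp hi'.1).1⟩, rfl⟩
      · rintro ⟨i, h1, h2⟩
        have h3 : p.2 = r - a i := by omega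
        simp only
        have hr : a i ≤ r := by omega
        have hyi := hy i h2 hr
        rw [← h3] at hyi
        have hgi := pow_Z (ρ := k) (hG.mem i)
        rw [h1, h2] at hgi
        rw [be_clP hp' hgi hyi, h1]
    · intro i hi
      have := (mem_idx.mp hi).2
      rw [HasAntidiagonal.mem_antidiagonal]
      simp only
      omega
  · intro i hi
    have h1 := mem_idx.mp hi
    have hgi := pow_Z (ρ := k) (hG.mem i)
    rw [h1.1] at hgi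
    exact cup_Z (by omega) hgi (hy i h1.1 h1.2)

/-- Künneth, surjectivity -/
theorem KSurj (hG : Gen s a D g) {r k D₀ : ℕ} {c : ℤ} (hr : r ≤ s) (hD : Odd D₀)
    (hI : Indec s D₀) (hc : 0 ≤ c) (hc2 : c < 2 ^ k) {z : P}
    (hz : z ∈ Z r ((2 : ℤ) ^ k * ((2 : ℤ) ^ (2 * s + 1) * D₀) + c)) :
    ∃ y : ι → P, (∀ i, D i = D₀ → a i ≤ r → y i ∈ Z (r - a i) c) ∧
      z + ∑ i ∈ idx a D r D₀, g i ^ (2 ^ k) * shift (a i) (y i)
        ∈ B r ((2 : ℤ) ^ k * ((2 : ℤ) ^ (2 * s + 1) * D₀) + c) := by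
  classical
  have hT : (2 : ℤ) ^ (k + 2 * r + 1) ∣ (2 : ℤ) ^ k * ((2 : ℤ) ^ (2 * s + 1) * D₀) := by
    rw [add_assoc, pow_add]
    exact mul_dvd_mul_left _ (dvd_mul_of_dvd_left (pow_dvd_pow 2 (by omega)) _)
  obtain ⟨F, hF⟩ := KK_surj hT hc hc2 (clP r _ z)
  -- the coefficients
  have h1 : ∀ a₀ b₀ : ℕ, ∃ w : ι → P, (∀ i, w i ∈ Z b₀ c) ∧ (a₀ ≤ s →
      F a₀ b₀ = ∑ i : {i // a i = a₀ ∧ D i = D₀},
        clP a₀ _ (g i ^ (2 ^ k)) ⊗ₜ[ZMod 2] clP b₀ c (w i)) := by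
    intro a₀ b₀
    by_cases ha : a₀ ≤ s
    · obtain ⟨b, hb⟩ := hG.bas' k ha hD hI
      obtain ⟨m, hm⟩ := TensorProduct.eq_repr_basis_left (N := Ext b₀ c) b (F a₀ b₀)
      choose w hw hw2 using fun α : Ext b₀ c => clP_surj α
      refine ⟨fun i => if h : a i = a₀ ∧ D i = D₀ then w (m ⟨i, h⟩) else 0, fun i => ?_,
        fun _ => ?_⟩
      · simp only
        split_ifs with h
        · exact hw _
        · exact Submodule.zero_mem _
      · rw [← hm, Finsupp.sum_fintype]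
        · refine sum_congr rfl fun i _ => ?_
          have e1 : (if h : a i.1 = a₀ ∧ D i.1 = D₀ then w (m ⟨i.1, h⟩) else 0) = w (m i) :=
            dif_pos i.2
          rw [hb]
          congr 1
          exact ((congrArg (clP b₀ c) e1).trans (hw2 (m i))).symm
        · intro i
          exact tmul_zero _ _
    · exact ⟨fun _ => 0, fun _ => Submodule.zero_mem _, fun h => absurd h ha⟩
  choose w hw hw2 using h1
  refine ⟨fun i => w (a i) (r - a i) i, fun i _ _ => hw _ _ _, ?_⟩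
  have h2 : ∀ i, D i = D₀ → a i ≤ r → w (a i) (r - a i) i ∈ Z (r - a i) c :=
    fun i _ _ => hw _ _ _
  have h3 := KK_FF hG (k := k) h2
  have h4 : KK r F = KK r (FF a D g D₀ k _ c fun i => w (a i) (r - a i) i) := by
    refine KK_congr fun a₀ b₀ hab => ?_
    rw [hw2 a₀ b₀ (by omega), FF]
    refine sum_congr rfl fun i _ => ?_
    have : r - a i = b₀ := by
      have := i.2.1
      omega
    rw [i.2.1, show r - a₀ = b₀ by omega]
  refine clP_eq hz (Submodule.sum_mem _ fun i hi => ?_) ?_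
  · have h1 := mem_idx.mp hi
    have hgi := pow_Z (ρ := k) (hG.mem i)
    rw [h1.1] at hgi
    exact cup_Z (by omega) hgi (hw _ _ _)
  · rw [← h3, ← h4, hF]

/-- Künneth, injectivity -/
theorem KInj (hG : Gen s a D g) {r k D₀ : ℕ} {c : ℤ} (hr : r ≤ s) (hD : Odd D₀)
    (hI : Indec s D₀) (hc : 0 ≤ c) (hc2 : c < 2 ^ k) {y : ι → P}
    (hy : ∀ i, D i = D₀ → a i ≤ r → y i ∈ Z (r - a i) c)
    (h : ∑ i ∈ idx a D r D₀, g i ^ (2 ^ k) * shift (a i) (y i)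
        ∈ B r ((2 : ℤ) ^ k * ((2 : ℤ) ^ (2 * s + 1) * D₀) + c)) :
    ∀ i, D i = D₀ → a i ≤ r → y i ∈ B (r - a i) c := by
  classical
  have hT : (2 : ℤ) ^ (k + 2 * r + 1) ∣ (2 : ℤ) ^ k * ((2 : ℤ) ^ (2 * s + 1) * D₀) := by
    rw [add_assoc, pow_add]
    exact mul_dvd_mul_left _ (dvd_mul_of_dvd_left (pow_dvd_pow 2 (by omega)) _)
  have h1 := KK_FF hG (k := k) hy
  have h2 : ∑ i ∈ idx a D r D₀, g i ^ (2 ^ k) * shift (a i) (y i)
      ∈ Z r ((2 : ℤ) ^ k * ((2 : ℤ) ^ (2 * s + 1) * D₀) + c) := by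
    refine Submodule.sum_mem _ fun i hi => ?_
    have h1 := mem_idx.mp hi
    have hgi := pow_Z (ρ := k) (hG.mem i)
    rw [h1.1] at hgi
    exact cup_Z (by omega) hgi (hy i h1.1 h1.2)
  rw [(clP_zero h2).mpr h] at h1
  intro i hDi hai
  have h3 := KK_inj hT hc hc2 h1 (show a i + (r - a i) = r by omega)
  obtain ⟨b, hb⟩ := hG.bas' k (show a i ≤ s by omega) hD hI
  have h4 := TensorProduct.sum_tmul_basis_left_eq_zero (N := Ext (r - a i) c) b
    (Finsupp.equivFunOnFinite.symm fun j => clP (r - a i) c (y j)) (by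
      rw [Finsupp.sum_fintype]
      · rw [FF] at h3
        rw [← h3]
        refine sum_congr rfl fun j _ => ?_
        rw [hb]
        rfl
      · intro j
        exact tmul_zero _ _)
  have h5 := DFunLike.congr_fun h4 (⟨i, rfl, hDi⟩ : {j // a j = a i ∧ D j = D₀})
  exact (clP_zero (hy i hDi hai)).mp h5

end Pool.Agent.H749.GX
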