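import Pool.Agent.H749.GX.Dn

/-!
# The uniform doomsday conjecture in almost all degrees
-/

set_option autoImplicit false
set_option linter.unusedSectionVars false

namespace Pool.Agent.H749.GX

open Finset MvPolynomial Pool.Agent.H749.GS
open Pool.Agent.Q171.ND3.St (IsHom Sq Sq0 fr Diffs fam sq0 Cocycle hmul Sq0_fr Sq_iter fr_hom)
open Pool.Agent.Q171.ND3.St renaming Z → NZ, cl → ncl

/-- Bruner's formula for the members of a family -/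
theorem d2_fam {r t : ℕ} (𝒟 : Diffs) (z : Cocycle r) (hz : IsHom t z.val) {j : ℕ} (hj : 1 ≤ j) :
    𝒟.d₂ r (fam r (j + 1) z.cls) = hmul 0 (r + 1) (fam (r + 1) j (z.Sq 1).cls) := by
  have hcls : ∀ j, fam r j z.cls = ncl (fr^[j] z.toZ) := fun j => fam_ncl j z.toZ
  have hS1 : ∀ j, fam (r + 1) j (z.Sq 1).cls = ncl (fr^[j] (Sq 1 z.toZ)) :=
    fun j => fam_ncl j (Sq 1 z.toZ)
  have hzt : IsHom t z.toZ.1 := hz
  obtain ⟨j', rfl⟩ : ∃ j', j = j' + 1 := ⟨j - 1, by omega⟩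
  have h1 := 𝒟.lin.bruner₂ r (2 ^ (j' + 1) * t) (fr^[j' + 1] z.toZ)
    (by rw [pow_succ', mul_assoc]; exact even_two_mul _) (fr_hom hzt (j' + 1))
  rw [Sq0_fr, ← Function.iterate_succ_apply' fr, Sq_iter] at h1
  rw [hcls, hS1]
  exact h1

/-- **The uniform doomsday conjecture in almost all degrees.** -/
theorem uniformA (r : ℕ) (hr : 1 ≤ r) : ∃ C : ℕ, ∀ N : ℕ,
    N * {t : ℕ | t < 2 ^ N ∧ 2 ^ (2 * r + 3) ∣ t ∧ ∃ (𝒟 : Diffs) (z : Cocycle r),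
      IsHom t z.val ∧ z.cls ≠ 0 ∧ ¬ ∀ j, 2 ≤ j →
        𝒟.d₂ r (fam r (j + 1) z.cls) = hmul 0 (r + 1) (fam (r + 1) j (z.Sq 1).cls) ∧
        hmul 0 (r + 1) (fam (r + 1) j (z.Sq 1).cls) ≠ 0}.ncard
      ≤ C * {t : ℕ | t < 2 ^ N ∧ 2 ^ (2 * r + 3) ∣ t ∧ ∃ z : Cocycle r, IsHom t z.val ∧
        z.cls ≠ 0}.ncard := by
  obtain ⟨C, hC⟩ := almost (r + 1) r hr (Nat.lt_succ_self r)
  rw [show 2 * (r + 1) + 1 = 2 * r + 3 by ring] at hC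
  refine ⟨C, fun N => le_trans (Nat.mul_le_mul_left N (Set.ncard_le_ncard ?_ ?_)) (hC N)⟩
  · rintro t ⟨ht, hd, 𝒟, z, hz, hz0, h⟩
    push Not at h
    obtain ⟨j, hj, h1⟩ := h
    have h2 := d2_fam 𝒟 z hz (show 1 ≤ j by omega)
    exact ⟨ht, hd, 𝒟, z, j + 1, by omega, hz, hz0, h2.trans (h1 h2)⟩
  · exact (Set.finite_Iio (2 ^ N)).subset fun t ht => ht.1

end Pool.Agent.H749.GX
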