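import Pool.Agent.H749.GX.Dq
import Pool.Agent.H749.GX.Ud
import Pool.Agent.H749.GS.Uni

/-!
# The uniform doomsday conjecture outside of codimension two
-/

set_option autoImplicit false
set_option linter.unusedSectionVars false

namespace Pool.Agent.H749.GX

open Finset MvPolynomial TensorProduct Pool.Agent.H749.GK.St Pool.Agent.W624.Stz
open Pool.Agent.H749.GS hiding al
open Pool.Agent.Q171.ND3.St (sqC IsHom Diffs fam Cocycle IsDeg hmul)
open Pool.Agent.Q171.ND3.St renaming Z → NZ, cl → ncl, Ext → NE, B → NB, h → nh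

/-- exponents with wide gaps as a sequence -/
theorem mkk0 (L c : ℕ) : ∀ l : List ℕ, l.Pairwise (fun x y => y + L ≤ x) →
    ∃ k : ℕ → ℕ, (∀ i, k i + L ≤ k (i + 1)) ∧
      (∀ i < l.length, ∃ y ∈ l, k i = y + c) ∧
      ∑ i ∈ range l.length, 2 ^ k i = 2 ^ c * (l.map fun k => 2 ^ k).sum := by
  intro l
  induction l with
  | nil =>
    intro _
    refine ⟨fun i => (i + 1) * L, fun i => ?_, fun i hi => absurd hi (Nat.not_lt_zero _), ?_⟩
    · simp only
      ring_nf
      exact le_rfl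
    · rw [List.length_nil, range_zero, sum_empty, List.map_nil, List.sum_nil, mul_zero]
  | cons x l ih =>
    intro hp
    rw [List.pairwise_cons] at hp
    obtain ⟨k, h1, h3, h4⟩ := ih hp.2
    refine ⟨fun i => if i < l.length then k i else x + c + (i - l.length) * L, fun i => ?_,
      fun i hi => ?_, ?_⟩
    · simp only
      by_cases hi : i + 1 < l.length
      · rw [if_pos (show i < l.length by omega), if_pos hi]
        exact h1 i
      · rw [if_neg hi]
        by_cases hi2 : i < l.length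
        · rw [if_pos hi2]
          obtain ⟨y, hy, hky⟩ := h3 i hi2
          have := hp.1 y hy
          omega
        · rw [if_neg hi2]
          have h5 : i + 1 - l.length = (i - l.length) + 1 := by omega
          rw [h5, add_mul, one_mul]
          omega
    · simp only
      by_cases hi2 : i < l.length
      · rw [if_pos hi2]
        obtain ⟨y, hy, hky⟩ := h3 i hi2
        exact ⟨y, List.mem_cons_of_mem _ hy, hky⟩
      · rw [if_neg hi2]
        rw [List.length_cons] at hi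
        have h5 : i - l.length = 0 := by omega
        exact ⟨x, List.mem_cons_self, by rw [h5, zero_mul, add_zero]⟩
    · rw [List.length_cons, sum_range_succ, List.map_cons, List.sum_cons]
      have h5 : ∑ i ∈ range l.length, 2 ^ (if i < l.length then k i else x + c + (i - l.length) * L)
          = ∑ i ∈ range l.length, 2 ^ k i :=
        sum_congr rfl fun i hi => by rw [if_pos (mem_range.mp hi)]
      rw [h5, h4]
      simp only [lt_irrefl, if_false, Nat.sub_self, zero_mul, add_zero]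
      rw [mul_add, pow_add]
      ring

/-- The uniform doomsday conjecture for the family of `z`, with `r = 2`, `c = h₀` or `r = 3`, `c = h₁`. -/
def Doom (𝒟 : Diffs) (r J : ℕ) (z : Cocycle r) : Prop :=
  (∀ j, J ≤ j → 𝒟.d₂ r (fam r (j + 1) z.cls) = hmul 0 (r + 1) (fam (r + 1) j (z.Sq 1).cls) ∧
    hmul 0 (r + 1) (fam (r + 1) j (z.Sq 1).cls) ≠ 0) ∨
  (∀ j, J ≤ j → 𝒟.d₂ r (fam r (j + 1) z.cls) = 0 ∧
    (∃ w, 𝒟.d₃ r (fam r (j + 1) z.cls)
      = hmul 1 (r + 2) (fam (r + 2) j (z.Sq 2).cls) + 𝒟.d₂ (r + 1) w) ∧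
    ¬ ∃ w, 𝒟.d₃ r (fam r (j + 1) z.cls) = 𝒟.d₂ (r + 1) w)

/-- the degrees where the conjecture fails for some class have short expansions -/
theorem surv3 {r : ℕ} (hr : 4 ≤ r) : ∃ (J : ℕ) (F : Finset ℕ), (∀ c ∈ F, 1 ≤ c) ∧
    ∀ t : ℕ, 2 ^ (2 * (r + 1) + 1) ∣ t → ∀ (𝒟 : Diffs) (z : Cocycle r),
      IsHom t z.val → z.cls ≠ 0 → ¬ Doom 𝒟 r J z →
      ∃ w : List (ℕ × ℕ), w.length ≤ r - 2 ∧ (∀ x ∈ w, x.1 ∈ F) ∧ num w = t := by
  classical
  have : Fintype (Ix (r + 1)) := Fintype.ofFinite _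
  obtain ⟨M, hM⟩ := mat (gen (r + 1))
  obtain ⟨s, rfl⟩ : ∃ s, s = r + 1 := ⟨_, rfl⟩
  obtain ⟨r', rfl⟩ : ∃ r', r = r' + 1 := ⟨r - 1, by omega⟩
  obtain ⟨L, hL⟩ := Pool.Agent.H749.GS.uniform r'
  refine ⟨L + 3, (univ.image fun i : Ix (r' + 1 + 1) =>
      2 ^ (2 * (r' + 1 + 1) + 1) * gD (r' + 1 + 1) i) ∪
    ({2 ^ (2 * (r' + 1 + 1) + 1)} ∪
      (range L).image fun δ => 2 ^ (2 * (r' + 1 + 1) + 1) * (2 ^ δ + 1)), ?_, ?_⟩
  · intro c hc
    rcases mem_union.mp hc with h | h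
    · obtain ⟨i, _, rfl⟩ := mem_image.mp h
      have := ((gen (r' + 1 + 1)).odd i).pos
      exact Nat.mul_pos (by positivity) this
    · rcases mem_union.mp h with h | h
      · rw [mem_singleton.mp h]
        exact Nat.one_le_two_pow
      · obtain ⟨i, _, rfl⟩ := mem_image.mp h
        exact Nat.mul_pos (by positivity) (by positivity)
  · intro t hdt 𝒟 z hz hz0 hdoom
    have hzZ : z.val ∈ Z (r' + 1) (t : ℤ) := coc_Z z hz
    obtain ⟨S, ⟨hS, hzS⟩, _⟩ := (basis (r' + 1 + 1) (Nat.le_succ _) hdt).2 z.val hzZ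
    have h0 := hzS 0
    simp only [val_up, pow_zero, pow_one, one_mul] at h0
    have hne : S.Nonempty := by
      rw [nonempty_iff_ne_empty]
      rintro rfl
      rw [sum_empty, add_zero] at h0
      exact hz0 (ncl_zero.mpr (toG_B h0))
    by_cases hev : ∀ l', Even (Nat.card {l // l ∈ S ∧ Der (fun i j => j ∈ M i) l l'})
    · obtain ⟨l, hl⟩ := hne
      have hgl : Good (r' + 1 + 1) (gA (r' + 1 + 1)) (gD (r' + 1 + 1)) (r' + 1) t l := hS l hl
      rcases Nat.lt_or_ge (l.length + 1) (r' + 1) with hlen | hlen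
      · refine ⟨l.map fun x => (2 ^ (2 * (r' + 1 + 1) + 1) * gD (r' + 1 + 1) x.1, x.2),
          by rw [List.length_map]; omega, ?_, ?_⟩
        · intro x hx
          obtain ⟨y, _, rfl⟩ := List.mem_map.mp hx
          exact mem_union_left _ (mem_image.mpr ⟨y.1, mem_univ _, rfl⟩)
        · rw [deg_num]
          exact hgl.2.2
      · obtain ⟨h1, h2⟩ := codim1 (gen (r' + 1 + 1)) hM (gA_pos (r' + 1 + 1)) (by omega) (by omega)
          hS hl hlen hev
        have hpw := adm_pw (s := r' + 1 + 1) (gen (r' + 1 + 1)).odd l hgl.1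
        have hdeg := deg_ones (s := r' + 1 + 1) l h2
        rw [hgl.2.2] at hdeg
        rcases merge L (2 ^ (2 * (r' + 1 + 1) + 1))
            ((univ.image fun i : Ix (r' + 1 + 1) =>
              2 ^ (2 * (r' + 1 + 1) + 1) * gD (r' + 1 + 1) i) ∪
              ({2 ^ (2 * (r' + 1 + 1) + 1)} ∪
              (range L).image fun δ => 2 ^ (2 * (r' + 1 + 1) + 1) * (2 ^ δ + 1)))
            (mem_union_right _ (mem_union_left _ (mem_singleton_self _)))
            (fun δ hδ => mem_union_right _ (mem_union_right _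
              (mem_image.mpr ⟨δ, mem_range.mpr hδ, rfl⟩)))
            (l.map Prod.snd) hpw with hw | ⟨w, hw1, hw2, hw3⟩
        · exfalso
          obtain ⟨k, k1, _, k4⟩ := mkk0 L (2 * (r' + 1 + 1) + 1) _ hw
          rw [List.length_map] at k4
          have hsum : 0 + ∑ i ∈ range l.length, 2 ^ k i = t := by
            rw [k4, hdeg, zero_add]
          have h3 := hL 0 0 l.length k (fun _ _ i hi => absurd hi (Nat.not_lt_zero _))
            (by rw [mul_zero]; exact Nat.zero_le _) k1 (Or.inr (Or.inl ⟨by omega, by omega⟩)) 𝒟 z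
            (by rw [hsum]; exact hz)
            (fun j hj => hz0 (fam_zero z hz ((pow_dvd_pow 2 (by omega)).trans hdt) j hj))
          apply hdoom
          rcases h3 with h3 | h3
          · exact Or.inl fun j hj => h3 j (by omega)
          · exact Or.inr fun j hj => h3 j (by omega)
        · refine ⟨w, ?_, hw2, ?_⟩
          · rw [List.length_map] at hw1
            omega
          · rw [hw3, ← hdeg]
    · exfalso
      apply hdoom
      left
      intro j hj
      have h2 := d2_fam 𝒟 z hz (show 1 ≤ j by omega)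
      refine ⟨h2, fun h3 => hev ?_⟩
      exact (d2_iff 𝒟 hM (Nat.lt_succ_self _) hdt hz hS h0 (show 3 ≤ j + 1 by omega)).mp
        (h2.trans h3)

/-- **The uniform doomsday conjecture outside of codimension two** -/
theorem uniform2 (r : ℕ) (hr : 4 ≤ r) : ∃ C J : ℕ, ∀ N : ℕ,
    N ^ 2 * {t : ℕ | t < 2 ^ N ∧ 2 ^ (2 * r + 3) ∣ t ∧ ∃ (𝒟 : Diffs) (z : Cocycle r),
      IsHom t z.val ∧ z.cls ≠ 0 ∧ ¬ Doom 𝒟 r J z}.ncard
      ≤ C * {t : ℕ | t < 2 ^ N ∧ 2 ^ (2 * r + 3) ∣ t ∧ ∃ z : Cocycle r, IsHom t z.val ∧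
        z.cls ≠ 0}.ncard := by
  classical
  have : Fintype (Ix (r + 1)) := Fintype.ofFinite _
  obtain ⟨J, F, hF, h⟩ := surv3 hr
  rw [show 2 * r + 3 = 2 * (r + 1) + 1 by ring]
  suffices hk : ∃ C : ℕ, ∀ N : ℕ,
      N ^ 2 * {t : ℕ | t < 2 ^ N ∧ 2 ^ (2 * (r + 1) + 1) ∣ t ∧ ∃ (𝒟 : Diffs) (z : Cocycle r),
        IsHom t z.val ∧ z.cls ≠ 0 ∧ ¬ Doom 𝒟 r J z}.ncard
      ≤ C * {t : ℕ | t < 2 ^ N ∧ 2 ^ (2 * (r + 1) + 1) ∣ t ∧ ∃ z : Cocycle r, IsHom t z.val ∧
        z.cls ≠ 0}.ncard by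
    obtain ⟨C, hC⟩ := hk
    exact ⟨C, J, hC⟩
  refine density2 (gen (r + 1)) hr (Nat.le_succ r) F hF _ _ (fun N => ?_) (fun N => ?_)
    (fun N => ?_) fun N t ht hdt => ?_
  · rintro t ⟨ht, hdt, 𝒟, z, hz, hz0, hd⟩
    exact ⟨ht, h t hdt 𝒟 z hz hz0 hd⟩
  · rintro t ⟨ht, hdt, 𝒟, z, hz, hz0, hd⟩
    exact ⟨ht, hdt, z, hz, hz0⟩
  · exact (Set.finite_Iio (2 ^ N)).subset fun t ht => ht.1
  · rintro ⟨z, hz, hzB⟩
    refine ⟨ht, hdt, coc (toN ⟨z, hz⟩), ?_, ?_⟩
    · exact toN_hom ⟨z, hz⟩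
    · intro h
      apply hzB
      have h1 : ncl (toN ⟨z, hz⟩) = 0 := h
      have h2 := toN_B (toN_hom ⟨z, hz⟩) (ncl_zero.mp h1)
      rw [toN_val] at h2
      exact h2

end Pool.Agent.H749.GX
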