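import Pool.Agent.H749.GX.Dq
import Pool.Agent.H749.GV.Blk

/-!
# The vanishing for `α(t) > s` outside of codimension three
-/

set_option autoImplicit false
set_option linter.unusedSectionVars false

namespace Pool.Agent.H749.GX

open Finset Pool.Agent.H749.GK.St
open Pool.Agent.Q171.DG (al al_two al_two1)
open Pool.Agent.H749.GV (tw al_pow2 al_split split_van log_split)

/-- the sum of the powers of two with the given exponents -/
def sm (l : List ℕ) : ℕ := (l.map fun k => 2 ^ k).sum

theorem sm_cons (x : ℕ) (l : List ℕ) : sm (x :: l) = 2 ^ x + sm l := by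
  rw [sm, List.map_cons, List.sum_cons]; rfl

theorem sm_lt (ρ : ℕ) : ∀ l : List ℕ, l.Pairwise (fun x y => y < x) → (∀ e ∈ l, e < ρ) →
    sm l < 2 ^ ρ := by
  intro l
  induction l generalizing ρ with
  | nil => intro _ _; rw [sm, List.map_nil, List.sum_nil]; positivity
  | cons x l ih =>
    intro hp h
    rw [List.pairwise_cons] at hp
    rw [sm_cons]
    have h1 := ih x hp.2 hp.1
    have h2 : 2 ^ (x + 1) ≤ 2 ^ ρ :=
      Nat.pow_le_pow_right (by norm_num) (h x List.mem_cons_self)
    rw [pow_succ] at h2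
    omega

theorem al_one_pow (x : ℕ) : al (2 ^ x) = 1 := by
  have h := al_pow2 x 1
  rw [mul_one] at h
  rw [h]
  have h2 := al_two1 0
  have h3 : al 0 = 0 := by
    have := al_two 0
    rw [mul_zero] at this
    unfold al
    simp
  rw [mul_zero, zero_add] at h2
  omega

theorem al_sm : ∀ l : List ℕ, l.Pairwise (fun x y => y < x) → al (sm l) = l.length := by
  intro l
  induction l with
  | nil => intro _; unfold sm al; simp
  | cons x l ih =>
    intro hp
    rw [List.pairwise_cons] at hp
    rw [sm_cons, al_split x _ _ dvd_rfl (sm_lt x l hp.2 hp.1), al_one_pow, ih hp.2,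
      List.length_cons]
    omega

theorem ex_list : ∀ t : ℕ, ∃ l : List ℕ, l.Pairwise (fun x y => y < x) ∧ sm l = t := by
  intro t
  induction t using Nat.strong_induction_on with
  | _ t ih =>
    rcases Nat.eq_zero_or_pos t with rfl | ht
    · exact ⟨[], List.Pairwise.nil, rfl⟩
    · obtain ⟨k, r, h1, h2⟩ := log_split ht
      have h3 : r < t := by
        have : 0 < 2 ^ k := by positivity
        omega
      obtain ⟨l, hl, hlr⟩ := ih r h3
      refine ⟨k :: l, List.pairwise_cons.mpr ⟨fun e he => ?_, hl⟩, by rw [sm_cons, hlr, h1]⟩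
      have h4 : 2 ^ e ≤ sm l :=
        List.single_le_sum (fun _ _ => Nat.zero_le _) _ (List.mem_map.mpr ⟨e, he, rfl⟩)
      rw [hlr] at h4
      exact (Nat.pow_lt_pow_iff_right (by norm_num)).mp (lt_of_le_of_lt h4 h2)

/-- the vanishing below the line `β` up to the line `s` -/
def Vn (s t β : ℕ) : Prop := ∀ a ≤ s, a < β → ∀ x : Ext a (t : ℤ), x = 0

theorem vstep {s T m β : ℕ} (hT : 2 ^ m ∣ T) (hβ : al T = β) (hβ3 : β ≤ 3) {l : List ℕ}
    (hl : l.Pairwise (fun x y => y < x)) (hgap : ∀ e ∈ l, e + (2 * s + 2) ≤ m)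
    (hP : Vn s (sm l) l.length) : Vn s (T + sm l) (β + l.length) := by
  intro a ha hab
  cases l with
  | nil =>
    rw [List.length_nil, add_zero] at hab
    have e : T + sm [] = T := by rw [sm, List.map_nil, List.sum_nil, add_zero]
    rw [e]
    exact fun x => tw (by omega) (by omega) x
  | cons e l =>
    have hm := hgap e List.mem_cons_self
    refine fun x => split_van (ρ := m - (2 * s + 1)) (dvd_trans (pow_dvd_pow 2 (by omega)) hT)
      (sm_lt _ _ hl fun e' he' => ?_) ?_ x
    · have := hgap e' he'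
      omega
    · intro u v huv
      by_cases hu : u < β
      · exact Or.inl fun x => tw (by omega) (by omega) x
      · exact Or.inr (hP v (by omega) (by omega))

/-- the coefficients of clusters of four ones -/
def FF4 (s : ℕ) : Finset ℕ := {1} ∪
  ((range (6 * s + 10)) ×ˢ ((range (6 * s + 10)) ×ˢ (range (6 * s + 10)))).image
    fun p => 2 ^ p.1 + 2 ^ p.2.1 + 2 ^ p.2.2 + 1

theorem one_FF4 (s : ℕ) : 1 ∈ FF4 s := mem_union_left _ (mem_singleton_self _)

theorem head_gap {l : List ℕ} {x G : ℕ} (hp : (x :: l).Pairwise (fun x y => y < x))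
    (h : ¬ ∀ e ∈ l, e + G ≤ x) : ∃ y l', l = y :: l' ∧ x < y + G := by
  push Not at h
  obtain ⟨e, he, hx⟩ := h
  cases l with
  | nil => exact absurd he List.not_mem_nil
  | cons y l' =>
    refine ⟨y, l', rfl, ?_⟩
    rcases List.mem_cons.mp he with rfl | h1
    · exact hx
    · rw [List.pairwise_cons, List.pairwise_cons] at hp
      have := hp.2.1 e h1
      omega

theorem num_ones (l : List ℕ) : num (l.map fun k => (1, k)) = sm l := by
  induction l with
  | nil => rfl
  | cons k l ih => rw [List.map_cons, num_cons, ih, sm_cons, one_mul]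

theorem cl4 (s : ℕ) : ∀ n : ℕ, ∀ l : List ℕ, l.length = n → l.Pairwise (fun x y => y < x) →
    Vn s (sm l) l.length ∨ ∃ w : List (ℕ × ℕ), w.length + 3 ≤ l.length ∧ (∀ x ∈ w, x.1 ∈ FF4 s) ∧
      num w = sm l := by
  intro n
  induction n using Nat.strong_induction_on with
  | _ n ih =>
    intro l hln hp
    cases l with
    | nil => exact Or.inl fun a _ ha => absurd ha (Nat.not_lt_zero _)
    | cons x₁ l₁ =>
      rw [List.length_cons] at hln
      have hp1 := (List.pairwise_cons.mp hp).2
      have hx1 := (List.pairwise_cons.mp hp).1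
      by_cases h1 : ∀ e ∈ l₁, e + (2 * s + 2) ≤ x₁
      · rcases ih l₁.length (by omega) l₁ rfl hp1 with h | ⟨w, hw1, hw2, hw3⟩
        · left
          rw [sm_cons, List.length_cons, add_comm l₁.length 1]
          exact vstep dvd_rfl (al_one_pow x₁) (by norm_num) hp1 h1 h
        · right
          refine ⟨(1, x₁) :: w, by rw [List.length_cons, List.length_cons]; omega, ?_, ?_⟩
          · intro y hy
            rcases List.mem_cons.mp hy with rfl | hy
            · exact one_FF4 s
            · exact hw2 y hy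
          · rw [num_cons, hw3, sm_cons, one_mul]
      · obtain ⟨x₂, l₂, rfl, h12⟩ := head_gap hp h1
        rw [List.length_cons] at hln
        have hp2 := (List.pairwise_cons.mp hp1).2
        have h21 := hx1 x₂ List.mem_cons_self
        by_cases h2 : ∀ e ∈ l₂, e + (2 * s + 2) ≤ x₂
        · rcases ih l₂.length (by omega) l₂ rfl hp2 with h | ⟨w, hw1, hw2, hw3⟩
          · left
            have e1 : sm (x₁ :: x₂ :: l₂) = (2 ^ x₁ + 2 ^ x₂) + sm l₂ := by
              rw [sm_cons, sm_cons]; ring
            have e2 : (x₁ :: x₂ :: l₂).length = 2 + l₂.length := by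
              rw [List.length_cons, List.length_cons]; omega
            rw [e1, e2]
            refine vstep (m := x₂) (dvd_add (pow_dvd_pow 2 (by omega)) dvd_rfl) ?_ (by norm_num)
              hp2 h2 h
            rw [al_split x₁ _ _ dvd_rfl (Nat.pow_lt_pow_right (by norm_num) (by omega)),
              al_one_pow, al_one_pow]
          · right
            refine ⟨(1, x₁) :: (1, x₂) :: w, by simp only [List.length_cons]; omega, ?_, ?_⟩
            · intro y hy
              rcases List.mem_cons.mp hy with rfl | hy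
              · exact one_FF4 s
              · rcases List.mem_cons.mp hy with rfl | hy
                · exact one_FF4 s
                · exact hw2 y hy
            · rw [num_cons, num_cons, hw3, sm_cons, sm_cons, one_mul, one_mul]
        · obtain ⟨x₃, l₃, rfl, h23⟩ := head_gap hp1 h2
          rw [List.length_cons] at hln
          have hp3 := (List.pairwise_cons.mp hp2).2
          have h32 := (List.pairwise_cons.mp hp1).1 x₃ List.mem_cons_self
          by_cases h3 : ∀ e ∈ l₃, e + (2 * s + 2) ≤ x₃
          · rcases ih l₃.length (by omega) l₃ rfl hp3 with h | ⟨w, hw1, hw2, hw3⟩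
            · left
              have e1 : sm (x₁ :: x₂ :: x₃ :: l₃) = (2 ^ x₁ + (2 ^ x₂ + 2 ^ x₃)) + sm l₃ := by
                rw [sm_cons, sm_cons, sm_cons]; ring
              have e2 : (x₁ :: x₂ :: x₃ :: l₃).length = 3 + l₃.length := by
                rw [List.length_cons, List.length_cons, List.length_cons]; omega
              rw [e1, e2]
              refine vstep (m := x₃) (dvd_add (pow_dvd_pow 2 (by omega))
                (dvd_add (pow_dvd_pow 2 (by omega)) dvd_rfl)) ?_ (by norm_num) hp3 h3 h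
              have e3 : 2 ^ x₂ + 2 ^ x₃ < 2 ^ x₁ := by
                have h5 : 2 ^ (x₃ + 1) ≤ 2 ^ x₂ := Nat.pow_le_pow_right (by norm_num) h32
                have h6 : 2 ^ (x₂ + 1) ≤ 2 ^ x₁ := Nat.pow_le_pow_right (by norm_num) h21
                have h7 : 0 < 2 ^ x₃ := by positivity
                rw [pow_succ] at h5 h6
                omega
              rw [al_split x₁ _ _ dvd_rfl e3,
                al_split x₂ _ _ dvd_rfl (Nat.pow_lt_pow_right (by norm_num) (by omega)),
                al_one_pow, al_one_pow, al_one_pow]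
            · right
              refine ⟨(1, x₁) :: (1, x₂) :: (1, x₃) :: w, by simp only [List.length_cons]; omega,
                ?_, ?_⟩
              · intro y hy
                rcases List.mem_cons.mp hy with rfl | hy
                · exact one_FF4 s
                · rcases List.mem_cons.mp hy with rfl | hy
                  · exact one_FF4 s
                  · rcases List.mem_cons.mp hy with rfl | hy
                    · exact one_FF4 s
                    · exact hw2 y hy
              · rw [num_cons, num_cons, num_cons, hw3, sm_cons, sm_cons, sm_cons, one_mul, one_mul,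
                  one_mul]
          · obtain ⟨x₄, l₄, rfl, h34⟩ := head_gap hp2 h3
            have h43 := (List.pairwise_cons.mp hp2).1 x₄ List.mem_cons_self
            right
            refine ⟨(2 ^ (x₁ - x₄) + 2 ^ (x₂ - x₄) + 2 ^ (x₃ - x₄) + 1, x₄) ::
              l₄.map fun k => (1, k), by simp only [List.length_cons, List.length_map]; omega,
              ?_, ?_⟩
            · intro y hy
              rcases List.mem_cons.mp hy with rfl | hy
              · refine mem_union_right _ (mem_image.mpr ⟨(x₁ - x₄, x₂ - x₄, x₃ - x₄), ?_, rfl⟩)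
                simp only [mem_product, mem_range]
                omega
              · obtain ⟨k, _, rfl⟩ := List.mem_map.mp hy
                exact one_FF4 s
            · rw [num_cons, num_ones, sm_cons, sm_cons, sm_cons, sm_cons]
              have e1 : (2 : ℕ) ^ x₁ = 2 ^ (x₁ - x₄) * 2 ^ x₄ := by rw [← pow_add]; congr 1; omega
              have e2 : (2 : ℕ) ^ x₂ = 2 ^ (x₂ - x₄) * 2 ^ x₄ := by rw [← pow_add]; congr 1; omega
              have e3 : (2 : ℕ) ^ x₃ = 2 ^ (x₃ - x₄) * 2 ^ x₄ := by rw [← pow_add]; congr 1; omega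
              rw [e1, e2, e3]
              ring

/-- comparison of the two counts -/
theorem numer (n e q c G : ℕ) (he : e ≤ n) (hG : 0 < G) (E A : ℕ → ℕ) (hEA : ∀ N, E N ≤ A N)
    (h1 : ∀ N, E N ≤ c * (q * N + 1) ^ (n - e)) (h2 : ∀ N, G ≤ N → (N / G) ^ n ≤ A N) :
    ∃ C, ∀ N, N ^ e * E N ≤ C * A N := by
  refine ⟨G ^ e + c * (q + 1) ^ (n - e) * (2 * G) ^ n, fun N => ?_⟩
  rcases Nat.lt_or_ge N G with hN | hN
  · exact Nat.mul_le_mul ((Nat.pow_le_pow_left hN.le e).trans (Nat.le_add_right _ _)) (hEA N)
  · let m := N / G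
    have hm1 : G * m ≤ N := Nat.mul_div_le N G
    have hm2 : N < G * (m + 1) := Nat.lt_mul_div_succ N hG
    have hm0 : 1 ≤ m := Nat.div_pos hN hG
    have hN2 : N ≤ 2 * G * m := by
      have h4 : G ≤ G * m := Nat.le_mul_of_pos_right _ hm0
      have h5 : G * (m + 1) = G * m + G := by ring
      have h6 : 2 * G * m = G * m + G * m := by ring
      omega
    have hq : q * N + 1 ≤ (q + 1) * N := by
      have : 1 ≤ N := by omega
      calc q * N + 1 ≤ q * N + N := by omega
        _ = (q + 1) * N := by ring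
    calc N ^ e * E N ≤ N ^ e * (c * (q * N + 1) ^ (n - e)) := Nat.mul_le_mul_left _ (h1 N)
      _ ≤ N ^ e * (c * ((q + 1) * N) ^ (n - e)) :=
          Nat.mul_le_mul_left _ (Nat.mul_le_mul_left _ (Nat.pow_le_pow_left hq _))
      _ = c * (q + 1) ^ (n - e) * N ^ n := by
          obtain ⟨n', rfl⟩ : ∃ n', n = n' + e := ⟨n - e, by omega⟩
          rw [Nat.add_sub_cancel, mul_pow, pow_add N n' e]
          ring
      _ ≤ c * (q + 1) ^ (n - e) * (2 * G * m) ^ n :=
          Nat.mul_le_mul_left _ (Nat.pow_le_pow_left hN2 _)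
      _ = c * (q + 1) ^ (n - e) * (2 * G) ^ n * m ^ n := by rw [mul_pow]; ring
      _ ≤ c * (q + 1) ^ (n - e) * (2 * G) ^ n * A N := Nat.mul_le_mul_left _ (h2 N hN)
      _ ≤ _ := Nat.mul_le_mul_right _ (Nat.le_add_left _ _)

theorem TT_al (s m : ℕ) : ∀ n : ℕ, ∀ t ∈ TT' s m n, al t = n := by
  intro n
  induction n with
  | zero =>
    intro t ht
    rw [TT', mem_singleton] at ht
    rw [ht]
    unfold al
    simp
  | succ n ih =>
    intro t ht
    rw [TT', mem_image] at ht
    obtain ⟨⟨f, u⟩, hp, rfl⟩ := ht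
    rw [mem_product, mem_range] at hp
    simp only at hp ⊢
    have h1 := TT_lt s m n u hp.2
    have h2 : 2 ^ ((2 * s + 2) * (n * m)) ≤ 2 ^ ((2 * s + 2) * (n * m + f) + (2 * s + 1)) :=
      Nat.pow_le_pow_right (by norm_num) (by nlinarith)
    rw [al_split _ _ _ dvd_rfl (lt_of_lt_of_le h1 h2), al_one_pow, ih u hp.2]
    omega

/-- **The vanishing outside of codimension three** -/
theorem codim3 (s n : ℕ) : ∃ C : ℕ, ∀ N : ℕ,
    N ^ 3 * {t : ℕ | t < 2 ^ N ∧ al t = n ∧ ∃ a ≤ s, a < n ∧ ∃ x : Ext a (t : ℤ), x ≠ 0}.ncard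
      ≤ C * {t : ℕ | t < 2 ^ N ∧ al t = n}.ncard := by
  classical
  have key : ∀ N, {t : ℕ | t < 2 ^ N ∧ al t = n ∧ ∃ a ≤ s, a < n ∧ ∃ x : Ext a (t : ℤ), x ≠ 0} ⊆
      {t | t < 2 ^ N ∧ ∃ w : List (ℕ × ℕ), w.length + 3 ≤ n ∧ (∀ x ∈ w, x.1 ∈ FF4 s) ∧
        num w = t} := by
    rintro N t ⟨ht, hn, a, has, han, x, hx⟩
    obtain ⟨l, hl, hlt⟩ := ex_list t
    have h1 := al_sm l hl
    rw [hlt, hn] at h1
    rcases cl4 s l.length l rfl hl with h | ⟨w, hw1, hw2, hw3⟩
    · rw [hlt] at h
      exact absurd (h a has (by omega) x) hx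
    · exact ⟨ht, w, by omega, hw2, by rw [hw3, hlt]⟩
  rcases Nat.lt_or_ge n 3 with hn | hn
  · refine ⟨0, fun N => ?_⟩
    have h1 : {t : ℕ | t < 2 ^ N ∧ al t = n ∧ ∃ a ≤ s, a < n ∧ ∃ x : Ext a (t : ℤ), x ≠ 0} = ∅ := by
      rw [Set.eq_empty_iff_forall_notMem]
      intro t ht
      obtain ⟨_, w, hw, _⟩ := key N ht
      omega
    rw [h1, Set.ncard_empty, mul_zero]
    exact Nat.zero_le _
  · refine numer n 3 (FF4 s).card (n - 3 + 1) ((2 * s + 2) * n) hn
      (Nat.mul_pos (by omega) (by omega)) _ _ (fun N => ?_) (fun N => ?_) fun N hN => ?_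
    · refine Set.ncard_le_ncard ?_ ((Set.finite_Iio (2 ^ N)).subset fun t ht => ht.1)
      rintro t ⟨ht, hn, _⟩
      exact ⟨ht, hn⟩
    · refine le_trans (Set.ncard_le_ncard ((key N).trans ?_) ?_)
        (count (FF4 s) (fun c hc => ?_) (n - 3) N)
      · rintro t ⟨ht, w, hw1, hw2, hw3⟩
        exact ⟨ht, w, by omega, hw2, hw3⟩
      · exact (Set.finite_Iio (2 ^ N)).subset fun t ht => ht.1
      · rcases mem_union.mp hc with h | h
        · rw [mem_singleton.mp h]
        · obtain ⟨p, _, rfl⟩ := mem_image.mp h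
          exact Nat.le_add_left 1 _
    · rw [← TT_card s (N / ((2 * s + 2) * n)) n, ← Set.ncard_coe_finset]
      refine Set.ncard_le_ncard ?_ ((Set.finite_Iio (2 ^ N)).subset fun t ht => ht.1)
      intro t ht
      rw [mem_coe] at ht
      refine ⟨lt_of_lt_of_le (TT_lt _ _ n t ht) (Nat.pow_le_pow_right (by norm_num) ?_),
        TT_al _ _ n t ht⟩
      rw [← mul_assoc]
      exact Nat.mul_div_le N _

end Pool.Agent.H749.GX
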