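import Pool.Agent.H749.GX.Va

/-!
# The vanishing for `α(t) > s` outside of codimension `2 (α(t) - s) + 1`
-/

set_option autoImplicit false
set_option linter.unusedSectionVars false

namespace Pool.Agent.H749.GX

open Finset Pool.Agent.H749.GK.St
open Pool.Agent.Q171.DG (al al_two al_two1)
open Pool.Agent.H749.GV (tw tw_min al_pow2 al_split split_van log_split)

theorem vstep2 {s T m β γ : ℕ} (hT : 2 ^ m ∣ T) (hV : Vn s T β)
    {l : List ℕ} (hγ : γ ≤ l.length)
    (hl : l.Pairwise (fun x y => y < x)) (hgap : ∀ e ∈ l, e + (2 * s + 2) ≤ m)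
    (hP : Vn s (sm l) γ) : Vn s (T + sm l) (β + γ) := by
  intro a ha hab
  cases l with
  | nil =>
    rw [List.length_nil] at hγ
    have e : T + sm [] = T := by rw [sm, List.map_nil, List.sum_nil, add_zero]
    rw [e]
    exact hV a ha (by omega)
  | cons e l =>
    have hm := hgap e List.mem_cons_self
    refine fun x => split_van (ρ := m - (2 * s + 1)) (dvd_trans (pow_dvd_pow 2 (by omega)) hT)
      (sm_lt _ _ hl fun e' he' => ?_) ?_ x
    · have := hgap e' he'
      omega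
    · intro u v huv
      by_cases hu : u < β
      · exact Or.inl (hV u (by omega) hu)
      · exact Or.inr (hP v (by omega) (by omega))

/-- a lower bound for the first nonzero line, and an expansion which is shorter if the bound is not
the number of ones -/
def Rp (s : ℕ) (l : List ℕ) : Prop := ∃ (β δ : ℕ) (w : List (ℕ × ℕ)), Vn s (sm l) β ∧
  β + δ = l.length ∧ w.length + 2 * δ + (if δ = 0 then 0 else 1) ≤ l.length ∧
  (∀ x ∈ w, 1 ≤ x.1 ∧ x.1 < 2 ^ (l.length * (2 * s + 2))) ∧ num w = sm l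

/-- the first block of the list -/
def Cl (s : ℕ) (l : List ℕ) (x : ℕ) : Prop := ∃ (c m μ : ℕ) (r : List ℕ),
  sm l = 2 ^ μ * c + sm r ∧ al c = m ∧ 1 ≤ m ∧ c < 2 ^ (x - μ + 1) ∧ 2 ^ (x - μ) ≤ c ∧
  x - μ < m * (2 * s + 2) ∧ μ ≤ x ∧ m + r.length = l.length ∧ r.Pairwise (fun x y => y < x) ∧
  (∀ e ∈ r, e + (2 * s + 2) ≤ μ) ∧ Rp s r

theorem rp_nil (s : ℕ) : Rp s [] :=
  ⟨0, 0, [], fun a _ ha => absurd ha (Nat.not_lt_zero _), rfl, le_rfl,
    fun x hx => absurd hx List.not_mem_nil, rfl⟩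

theorem finish {s x : ℕ} {l : List ℕ} (h : Cl s l x) : Rp s l := by
  obtain ⟨c, m, μ, r, h1, h2, h3, h4, h5, h6, h7, h8, h9, h10, β, δ, w, k1, k2, k3, k4, k5⟩ := h
  have hc : al (2 ^ μ * c) = m := by rw [al_pow2, h2]
  have hV : Vn s (2 ^ μ * c) (min m ((m + 3) / 2)) := fun a _ ha x => tw_min (by rw [hc]; exact ha) x
  refine ⟨min m ((m + 3) / 2) + β, m - min m ((m + 3) / 2) + δ, (c, μ) :: w, ?_, by omega, ?_, ?_, ?_⟩
  · rw [h1]
    exact vstep2 (m := μ) (Dvd.intro _ rfl) hV (by omega) h9 h10 k1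
  · rw [List.length_cons]
    split_ifs at k3 ⊢ <;> omega
  · intro y hy
    rcases List.mem_cons.mp hy with rfl | hy
    · refine ⟨le_trans Nat.one_le_two_pow h5, lt_of_lt_of_le h4 ?_⟩
      refine Nat.pow_le_pow_right (by norm_num) ?_
      have : m * (2 * s + 2) ≤ l.length * (2 * s + 2) := Nat.mul_le_mul_right _ (by omega)
      omega
    · obtain ⟨h11, h12⟩ := k4 y hy
      refine ⟨h11, lt_of_lt_of_le h12 (Nat.pow_le_pow_right (by norm_num) ?_)⟩
      exact Nat.mul_le_mul_right _ (by omega)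
  · rw [num_cons, k5, h1, mul_comm]

theorem clus (s : ℕ) : ∀ l : List ℕ, l.Pairwise (fun x y => y < x) →
    l = [] ∨ ∃ x l', l = x :: l' ∧ Cl s l x := by
  intro l
  induction l with
  | nil => exact fun _ => Or.inl rfl
  | cons x l ih =>
    intro hp
    right
    refine ⟨x, l, rfl, ?_⟩
    rw [List.pairwise_cons] at hp
    have single : Rp s l → (∀ e ∈ l, e + (2 * s + 2) ≤ x) → Cl s (x :: l) x := by
      intro hR hg
      refine ⟨1, 1, x, l, by rw [sm_cons, mul_one], ?_, le_rfl, ?_, ?_, ?_, le_rfl, ?_, hp.2, hg, hR⟩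
      · have := al_one_pow 0
        rwa [pow_zero] at this
      · rw [Nat.sub_self]; norm_num
      · rw [Nat.sub_self, pow_zero]
      · rw [Nat.sub_self]; omega
      · rw [List.length_cons, add_comm]
    rcases ih hp.2 with rfl | ⟨y, l', rfl, hC⟩
    · exact single (rp_nil s) fun e he => absurd he List.not_mem_nil
    · have hyx := hp.1 y List.mem_cons_self
      by_cases h : y + (2 * s + 2) ≤ x
      · refine single (finish hC) fun e he => ?_
        rcases List.mem_cons.mp he with rfl | h1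
        · exact h
        · have := (List.pairwise_cons.mp hp.2).1 e h1
          omega
      · obtain ⟨c, m, μ, r, h1, h2, h3, h4, h5, h6, h7, h8, h9, h10, hR⟩ := hC
        have e1 : 2 ^ (y - μ + 1) ≤ 2 ^ (x - μ) := Nat.pow_le_pow_right (by norm_num) (by omega)
        refine ⟨2 ^ (x - μ) + c, m + 1, μ, r, ?_, ?_, by omega, ?_, by omega, ?_, by omega, ?_, h9,
          h10, hR⟩
        · rw [sm_cons, h1, mul_add, ← pow_add, show μ + (x - μ) = x by omega, add_assoc]
        · rw [al_split (x - μ) _ _ dvd_rfl (lt_of_lt_of_le h4 e1), al_one_pow, h2]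
          omega
        · rw [pow_succ]; omega
        · rw [add_mul, one_mul]; omega
        · rw [List.length_cons]; omega

theorem rp_all (s : ℕ) (l : List ℕ) (hp : l.Pairwise (fun x y => y < x)) : Rp s l := by
  rcases clus s l hp with rfl | ⟨x, l', _, h⟩
  · exact rp_nil s
  · exact finish h

/-- **The vanishing outside of codimension `2 (n - s) + 1`** -/
theorem codimN (s n : ℕ) (hsn : s < n) : ∃ C : ℕ, ∀ N : ℕ,
    N ^ (2 * (n - s) + 1) * {t : ℕ | t < 2 ^ N ∧ al t = n ∧ ∃ x : Ext s (t : ℤ), x ≠ 0}.ncard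
      ≤ C * {t : ℕ | t < 2 ^ N ∧ al t = n}.ncard := by
  classical
  have key : ∀ N, {t : ℕ | t < 2 ^ N ∧ al t = n ∧ ∃ x : Ext s (t : ℤ), x ≠ 0} ⊆
      {t | t < 2 ^ N ∧ ∃ w : List (ℕ × ℕ), w.length + (2 * (n - s) + 1) ≤ n ∧
        (∀ x ∈ w, x.1 ∈ Icc 1 (2 ^ (n * (2 * s + 2)))) ∧ num w = t} := by
    rintro N t ⟨ht, hn, x, hx⟩
    obtain ⟨l, hl, hlt⟩ := ex_list t
    have h1 := al_sm l hl
    rw [hlt, hn] at h1
    obtain ⟨β, δ, w, k1, k2, k3, k4, k5⟩ := rp_all s l hl
    rw [hlt] at k1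
    have h2 : β ≤ s := by
      by_contra hcon
      exact hx (k1 s le_rfl (by omega) x)
    refine ⟨ht, w, ?_, fun y hy => ?_, by rw [k5, hlt]⟩
    · rw [if_neg (show δ ≠ 0 by omega)] at k3
      omega
    · obtain ⟨h3, h4⟩ := k4 y hy
      rw [mem_Icc]
      rw [← h1] at h4
      exact ⟨h3, h4.le⟩
  rcases Nat.lt_or_ge n (2 * (n - s) + 1) with hn | hn
  · refine ⟨0, fun N => ?_⟩
    have h1 : {t : ℕ | t < 2 ^ N ∧ al t = n ∧ ∃ x : Ext s (t : ℤ), x ≠ 0} = ∅ := by
      rw [Set.eq_empty_iff_forall_notMem]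
      intro t ht
      obtain ⟨_, w, hw, _⟩ := key N ht
      omega
    rw [h1, Set.ncard_empty, mul_zero]
    exact Nat.zero_le _
  · refine numer n (2 * (n - s) + 1) (Icc 1 (2 ^ (n * (2 * s + 2)))).card
      (n - (2 * (n - s) + 1) + 1) ((2 * s + 2) * n) hn
      (Nat.mul_pos (by omega) (by omega)) _ _ (fun N => ?_) (fun N => ?_) fun N hN => ?_
    · refine Set.ncard_le_ncard ?_ ((Set.finite_Iio (2 ^ N)).subset fun t ht => ht.1)
      rintro t ⟨ht, hn, _⟩
      exact ⟨ht, hn⟩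
    · refine le_trans (Set.ncard_le_ncard ((key N).trans ?_) ?_)
        (count (Icc 1 (2 ^ (n * (2 * s + 2)))) (fun c hc => (mem_Icc.mp hc).1)
          (n - (2 * (n - s) + 1)) N)
      · rintro t ⟨ht, w, hw1, hw2, hw3⟩
        exact ⟨ht, w, by omega, hw2, hw3⟩
      · exact (Set.finite_Iio (2 ^ N)).subset fun t ht => ht.1
    · rw [← TT_card s (N / ((2 * s + 2) * n)) n, ← Set.ncard_coe_finset]
      refine Set.ncard_le_ncard ?_ ((Set.finite_Iio (2 ^ N)).subset fun t ht => ht.1)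
      intro t ht
      rw [mem_coe] at ht
      refine ⟨lt_of_lt_of_le (TT_lt _ _ n t ht) (Nat.pow_le_pow_right (by norm_num) ?_),
        TT_al _ _ n t ht⟩
      rw [← mul_assoc]
      exact Nat.mul_div_le N _

end Pool.Agent.H749.GX
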